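import Pool.Agent.Lib.MP_5e1226_co.Planar3

-- part Pool.Agent.Lib.MP_5e1226_co.Planar4
section

/-!
The rigidity count in intervals of rank four: the main bound.
-/

set_option linter.unusedSectionVars false

namespace Pool.Agent.Lib.MP_5e1226_co

open Finset Classical

variable {P : Type} [Lattice P] [Fintype P] {ρ : P → ℕ} {b t : P} {r : ℕ}

/-- Filtering by a predicate, with classical decidability. -/
noncomputable def flt (S : Finset P) (Z : P → Prop) : Finset P := S.filter Z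

@[simp] lemma mem_flt {S : Finset P} {Z : P → Prop} {x : P} : x ∈ flt S Z ↔ x ∈ S ∧ Z x := by
  simp only [flt, mem_filter]

lemma flt_congr {S : Finset P} {Z Z' : P → Prop} (h : ∀ x ∈ S, Z x ↔ Z' x) :
    flt S Z = flt S Z' := by
  ext x
  simp only [mem_flt]
  exact and_congr_right fun hx => h x hx

lemma pf_zero (Z : P → Prop) (f : P) :
    pf ρ b r Z (fun _ => 0) f = (flt (lev ρ b f (r + 1)) Z).card := by
  unfold pf flt
  simp

lemma lev_sub {a c c' : P} {s : ℕ} (h : c ≤ c') : lev ρ a c s ⊆ lev ρ a c' s := by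
  intro v hv
  rw [mem_lev] at hv ⊢
  exact ⟨hv.1, hv.2.1.trans h, hv.2.2⟩

/-- Splitting off a union of components of the graph on the unpinned vertices. -/
lemma Normal.split (h : Normal ρ) (hb : ρ b = r) {Z : P → Prop} {C : Finset P}
    (hCZ : ∀ v ∈ C, ¬ Z v)
    (hcl : ∀ u w e, u ∈ C → w ∈ lev ρ b t (r + 1) → ¬ Z w → e ∈ lev ρ b t (r + 2) → u ≤ e →
      w ≤ e → w ∈ C) :
    DD ρ b t r 3 (fun v => Z v ∨ v ∈ C) (fun _ => False) (fun _ => 0) +
      DD ρ b t r 3 (fun v => v ∉ C) (fun _ => False) (fun _ => 0) ≤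
      DD ρ b t r 3 Z (fun _ => False) (fun _ => 0) := by
  have k1 : ∀ e ∈ lev ρ b t (r + 2),
      nk ρ b r (fun v => Z v ∨ v ∈ C) (fun _ => 0) e + nk ρ b r (fun v => v ∉ C) (fun _ => 0) e =
        nk ρ b r Z (fun _ => 0) e ∧
      nu ρ b r (fun v => Z v ∨ v ∈ C) (fun _ => 0) e + nu ρ b r (fun v => v ∉ C) (fun _ => 0) e =
        nu ρ b r Z (fun _ => 0) e := by
    intro e he
    have he' := mem_lev.1 he
    obtain ⟨u, w, hne, b1, b2, b3, b4, b5, b6, l1⟩ := h.edge_ends hb he'.1 he'.2.2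
    have hu : u ∈ lev ρ b t (r + 1) := by simp [b1, b2.trans he'.2.1, b3]
    have hw : w ∈ lev ρ b t (r + 1) := by simp [b4, b5.trans he'.2.1, b6]
    unfold nu
    simp only [nz_pair hne l1, nk_pair l1]
    have i1 := hCZ u
    have i2 := hCZ w
    have i3 := fun h1 h2 => hcl u w e h1 hw h2 he b2 b5
    have i4 := fun h1 h2 => hcl w u e h1 hu h2 he b5 b2
    by_cases h1 : u ∈ C <;> by_cases h2 : w ∈ C <;> by_cases h3 : Z u <;> by_cases h4 : Z w <;>
      simp_all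
  have k2 : ∀ f ∈ lev ρ b t (r + 3),
      w2 ρ b r (fun v => Z v ∨ v ∈ C) (fun _ => 0) f + w2 ρ b r (fun v => v ∉ C) (fun _ => 0) f ≤
        w2 ρ b r Z (fun _ => 0) f := by
    intro f hf
    have hf' := mem_lev.1 hf
    unfold w2
    rw [← sum_congr rfl fun e he => (k1 e (lev_sub hf'.2.1 he)).1, sum_add_distrib]
    have c1 := cc_nonneg (pf ρ b r (fun v => Z v ∨ v ∈ C) (fun _ => 0) f)
    have c2 := cc_nonneg (pf ρ b r (fun v => v ∉ C) (fun _ => 0) f)
    by_cases h1 : ∃ u ∈ lev ρ b f (r + 1), u ∈ C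
    · by_cases h2 : ∃ w ∈ lev ρ b f (r + 1), w ∉ C ∧ ¬ Z w
      · obtain ⟨u, hu, huC⟩ := h1
        obtain ⟨w, hw, hwC, hwZ⟩ := h2
        have : 2 ≤ pf ρ b r Z (fun _ => 0) f := by
          rw [pf_zero]
          by_contra hcon
          have hone : ∀ x y, x ∈ lev ρ b f (r + 1) → y ∈ lev ρ b f (r + 1) → Z x → Z y → x = y :=
            fun x y h1 h2 h3 h4 => card_le_one.1 (by omega : (flt (lev ρ b f (r + 1)) Z).card ≤ 1)
              x (mem_flt.2 ⟨h1, h3⟩) y (mem_flt.2 ⟨h2, h4⟩)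
          have K : ∀ e u' w', e ≤ f → ρ e = r + 2 → u' ≤ e → b ≤ w' → w' ≤ e → ρ w' = r + 1 →
              u' ∈ C → w' ∉ C → Z w' := by
            intro e u' w' a1 a2 a3 a4 a5 a6 a7 a8
            by_contra a9
            exact a8 (hcl u' w' e a7 (by simp [a4, a5.trans (a1.trans hf'.2.1), a6]) a9
              (by simp [a4.trans a5, a1.trans hf'.2.1, a2]) a3 a5)
          obtain ⟨e1, u1, w1, -, p2, p3, p4, p5, p6, p7, p8, p9, p10, p11⟩ :=
            h.cut_two hb hf'.2.2 (fun v => v ∈ C) hu hw huC hwC f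
          obtain ⟨e2, u2, w2, q1, q2, q3, q4, q5, q6, q7, q8, q9, q10, q11⟩ :=
            h.cut_two hb hf'.2.2 (fun v => v ∈ C) hu hw huC hwC e1
          obtain ⟨e3, u3, w3, -, s2, s3, s4, s5, s6, s7, s8, s9, s10, s11⟩ :=
            h.cut_two hb hf'.2.2 (fun v => v ∉ C ∧ ¬ Z v) hw hu ⟨hwC, hwZ⟩ (by simp [huC]) f
          have z1 := K e1 u1 w1 p2 p3 p5 p7 p8 p9 p10 p11
          have z2 := K e2 u2 w2 q2 q3 q5 q7 q8 q9 q10 q11
          have z3 : Z w3 := by
            by_contra a9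
            have a8 : w3 ∈ C := by
              by_contra a10
              exact s11 ⟨a10, a9⟩
            exact s10.2 (K e3 w3 u3 s2 s3 s8 s4 s5 s6 a8 s10.1)
          have m1 : w1 ∈ lev ρ b f (r + 1) := by simp [p7, p8.trans p2, p9]
          have e12 := hone w1 w2 m1 (by simp [q7, q8.trans q2, q9]) z1 z2
          have e13 := hone w1 w3 m1 (by simp [s7, s8.trans s2, s9]) z1 z3
          subst e12 e13
          have N : ∀ e x, e ≤ f → ρ e = r + 2 → b ≤ x → x ≤ e → ρ x = r + 1 → w1 ≤ e → x ∈ C →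
              e3 ≠ e := by
            rintro e x a1 a2 a3 a4 a5 a6 a7 rfl
            have := h.not_three (a := b) (c := e3) (s := r + 1) (x := w1) (y := x) (z := u3)
              (by omega) (by omega) (by simp [p7, a6, p9]) (by simp [a3, a4, a5])
              (by simp [s4, s5, s6]) (by rintro rfl; exact p11 a7) (by rintro rfl; exact s10.2 z1)
            subst this
            exact s10.1 a7
          exact q1 (h.not_three (a := w1) (c := f) (s := r + 2) (x := e3) (y := e2) (z := e1)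
            (by omega) (by omega) (by simp [s8, s2, s3]) (by simp [q8, q2, q3])
            (by simp [p8, p2, p3]) (N e2 u2 q2 q3 q4 q5 q6 q8 q10) (N e1 u1 p2 p3 p4 p5 p6 p8 p10))
        rw [cc_of_two_le this]
        omega
      · have : pf ρ b r Z (fun _ => 0) f = pf ρ b r (fun v => v ∉ C) (fun _ => 0) f := by
          rw [pf_zero, pf_zero]
          refine congrArg card (flt_congr fun v hv => ?_)
          push Not at h2
          exact ⟨fun h3 h4 => hCZ v h4 h3, h2 v hv⟩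
        rw [this]
        omega
    · have : pf ρ b r Z (fun _ => 0) f = pf ρ b r (fun v => Z v ∨ v ∈ C) (fun _ => 0) f := by
        rw [pf_zero, pf_zero]
        refine congrArg card (flt_congr fun v hv => ?_)
        push Not at h1
        simp [h1 v hv]
      rw [this]
      omega
  have k3 : ∀ z, cost 3 (fun v => Z v ∨ v ∈ C) (fun _ => False) z +
      cost 3 (fun v => v ∉ C) (fun _ => False) z = cost 3 Z (fun _ => False) z := by
    intro z
    have := hCZ z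
    unfold cost
    by_cases h1 : z ∈ C <;> by_cases h2 : Z z <;> simp_all
  unfold DD
  simp only [if_false]
  have a1 := sum_le_sum k2
  rw [← sum_congr rfl fun e he => (k1 e he).2, ← sum_congr rfl fun z _ => k3 z]
  simp only [sum_add_distrib] at a1 ⊢
  omega

lemma Normal.DD_nonneg_of_all (h : Normal ρ) (hb : ρ b = r) {d : ℤ} {Z cov : P → Prop}
    {π : P → ℕ} (hZ : ∀ v ∈ lev ρ b t (r + 1), Z v) : 0 ≤ DD ρ b t r d Z cov π := by
  unfold DD
  have a1 : 0 ≤ ∑ e ∈ lev ρ b t (r + 2), if cov e then 0 else nu ρ b r Z π e :=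
    sum_nonneg fun e he => by
      have := h.nu_nonneg hb Z π (mem_lev.1 he).1 (mem_lev.1 he).2.2
      split_ifs <;> omega
  have a2 : 0 ≤ ∑ f ∈ lev ρ b t (r + 3), if cov f then 0 else w2 ρ b r Z π f :=
    sum_nonneg fun e he => by
      have := h.w2_nonneg hb Z π (mem_lev.1 he).1 (mem_lev.1 he).2.2
      split_ifs <;> omega
  have a3 : ∑ z ∈ lev ρ b t (r + 1), cost d Z cov z = 0 :=
    sum_eq_zero fun z hz => by simp [cost, hZ z hz]
  omega

/-- The main bound in rank four, without covered faces. -/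
lemma Normal.planar (h : Normal ρ) (hb : ρ b = r) (ht : ρ t = r + 4) :
    ∀ (n : ℕ) (Z : P → Prop), (flt (lev ρ b t (r + 1)) (fun v => ¬ Z v)).card = n →
      (flt (lev ρ b t (r + 1)) Z).Nonempty →
      - cc ((flt (lev ρ b t (r + 1)) Z).card - 1) ≤
        DD ρ b t r 3 Z (fun _ => False) (fun _ => 0) := by
  intro n
  induction n using Nat.strong_induction_on with
  | _ n ih =>
    intro Z hn hZ
    set V := lev ρ b t (r + 1) with hV
    set W := flt V (fun v => ¬ Z v) with hW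
    by_cases hW0 : W.Nonempty
    swap
    · have := h.DD_nonneg_of_all hb (t := t) (d := 3) (Z := Z) (cov := fun _ => False)
        (π := fun _ => 0) (fun v hv => by
          by_contra h1
          exact hW0 ⟨v, mem_flt.2 ⟨hv, h1⟩⟩)
      have := cc_nonneg ((flt V Z).card - 1)
      omega
    obtain ⟨C, hCm, hmin⟩ := exists_min_image (W.powerset.filter (fun C => C.Nonempty ∧
      ∀ u w e, u ∈ C → w ∈ V → ¬ Z w → e ∈ lev ρ b t (r + 2) → u ≤ e → w ≤ e → w ∈ C)) card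
      ⟨W, by
        simp only [mem_filter, mem_powerset, subset_refl, true_and]
        exact ⟨hW0, fun u w e _ h2 h3 _ _ _ => mem_flt.2 ⟨h2, h3⟩⟩⟩
    simp only [mem_filter, mem_powerset] at hCm hmin
    obtain ⟨hCW, hCne, hcl⟩ := hCm
    have hCV : C ⊆ V := fun v hv => (mem_flt.1 (hCW hv)).1
    have hCZ : ∀ v ∈ C, ¬ Z v := fun v hv => (mem_flt.1 (hCW hv)).2
    have hconn : ConnC ρ b t r C := by
      intro A hA u hu w hw hAu
      have h1 := hmin (C.filter A) ⟨(filter_subset _ _).trans hCW, ⟨u, mem_filter.2 ⟨hu, hAu⟩⟩,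
        fun x y e a1 a2 a3 a4 a5 a6 => by
          rw [mem_filter] at a1 ⊢
          have := hcl x y e a1.1 a2 a3 a4 a5 a6
          exact ⟨this, hA x y e a1.2 a1.1 this a4 a5 a6⟩⟩
      have h2 := eq_of_subset_of_card_le (filter_subset A C) h1
      rw [← h2] at hw
      exact (mem_filter.1 hw).2
    have hZO : flt V Z ⊆ V \ C := by
      intro v hv
      rw [mem_flt] at hv
      exact mem_sdiff.2 ⟨hv.1, fun h1 => hCZ v h1 hv.2⟩
    have hO : (V \ C).Nonempty := hZ.mono hZO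
    have hZ1 := card_pos.2 hZ
    by_cases hCW' : W ⊆ C
    · have := h.comp hb ht hCV hCne hconn hO (Z := Z) (fun v hv =>
        ⟨fun h1 h2 => hCZ v h2 h1, fun h1 => by
          by_contra h2
          exact h1 (hCW' (mem_flt.2 ⟨hv, h2⟩))⟩)
      have h3 := cc_anti (Nat.sub_le_sub_right (card_le_card hZO) 1)
      rw [← hV] at this
      omega
    · have a1 := h.comp hb ht hCV hCne hconn hO (Z := fun v => v ∉ C) (fun v _ => Iff.rfl)
      have a2 := h.split hb hCZ hcl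
      obtain ⟨c, hc⟩ := hCne
      have a3 := ih _ (by
        rw [← hn]
        apply card_lt_card
        refine ⟨fun v hv => ?_, fun h1 => ?_⟩
        · rw [mem_flt] at hv ⊢
          exact ⟨hv.1, fun h2 => hv.2 (Or.inl h2)⟩
        · exact (mem_flt.1 (h1 (hCW hc))).2 (Or.inr hc)) (fun v => Z v ∨ v ∈ C) rfl
        ⟨c, mem_flt.2 ⟨hCV hc, Or.inr hc⟩⟩
      have b1 : (flt V Z).card < (flt V (fun v => Z v ∨ v ∈ C)).card := by
        apply card_lt_card
        refine ⟨fun v hv => ?_, fun h1 => ?_⟩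
        · rw [mem_flt] at hv ⊢
          exact ⟨hv.1, Or.inl hv.2⟩
        · exact hCZ c hc (mem_flt.1 (h1 (mem_flt.2 ⟨hCV hc, Or.inr hc⟩))).2
      have b2 : (flt V Z).card < (V \ C).card := by
        apply card_lt_card
        refine ⟨hZO, fun h1 => hCW' fun v hv => ?_⟩
        by_contra h2
        rw [mem_flt] at hv
        exact hv.2 (mem_flt.1 (h1 (mem_sdiff.2 ⟨hv.1, h2⟩))).2
      rw [← hV] at a1
      have c1 := cc_anti (p := (flt V Z).card) (q := (V \ C).card - 1) (by omega)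
      have c2 := cc_anti (p := (flt V Z).card)
        (q := (flt V (fun v => Z v ∨ v ∈ C)).card - 1) (by omega)
      have c3 : 2 * cc (flt V Z).card ≤ cc ((flt V Z).card - 1) := by
        unfold cc
        split_ifs <;> omega
      omega

/-- In rank four, covered faces only help. -/
lemma Normal.planar_cov (h : Normal ρ) (hb : ρ b = r) (ht : ρ t = r + 4) {Z cov : P → Prop}
    (hv : Valid ρ b t r Z cov) :
    DD ρ b t r 3 Z (fun _ => False) (fun _ => 0) ≤ DD ρ b t r 3 Z cov (fun _ => 0) := by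
  have s1 : ∑ f ∈ lev ρ b t (r + 3), (if cov f then w2 ρ b r Z (fun _ => 0) f else 0) ≤
      ∑ e ∈ lev ρ b t (r + 2), (if cov e then nk ρ b r Z (fun _ => 0) e else 0) := by
    have a1 : ∑ f ∈ lev ρ b t (r + 3), (if cov f then w2 ρ b r Z (fun _ => 0) f else 0) ≤
        ∑ f ∈ lev ρ b t (r + 3), ∑ e ∈ lev ρ b f (r + 2),
          (if cov f then nk ρ b r Z (fun _ => 0) e else 0) := by
      refine sum_le_sum fun f _ => ?_
      by_cases h1 : cov f
      · simp only [h1, if_true, w2]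
        have := cc_nonneg (pf ρ b r Z (fun _ => 0) f)
        omega
      · simp [h1]
    refine a1.trans ?_
    rw [← sum_lev_comm b t (r + 2) (r + 3)
      (fun e f => if cov f then nk ρ b r Z (fun _ => 0) e else 0)]
    refine sum_le_sum fun e he => ?_
    have he' := mem_lev.1 he
    by_cases h1 : Naked ρ b r Z (fun _ => 0) e
    · obtain ⟨z, z1, z2, z3⟩ := h.grd.exists_mid he'.1 (r := r + 1) (by omega) (by omega)
      have hz := h1.2 z (by simp [z1, z2, z3])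
      obtain ⟨f1, f2, hne, b1, b2, b3, b4, b5, b6, l1⟩ :=
        h.edge_ends (b := e) (r := r + 2) he'.2.2 he'.2.1 ht
      rw [l1, sum_pair hne.symm]
      have n1 : ¬ (cov f1 ∧ cov f2) := by
        rintro ⟨c1, c2⟩
        have := hv.join z (by simp [z1, z2.trans he'.2.1, z3]) hz f1 f2 (z2.trans b1) (z2.trans b4)
          b2 b5 c1 c2
        rw [h.grd.sup_eq hne.symm b2 b5 (by omega) (by omega)] at this
        exact hv.top this
      have n2 := hv.down e f1 b1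
      have n3 := hv.down e f2 b4
      by_cases c1 : cov f1 <;> by_cases c2 : cov f2 <;> by_cases c3 : cov e <;> simp_all [nk]
    · simp [nk, h1]
  have s2 : ∑ e ∈ lev ρ b t (r + 2), (if cov e then nz ρ b r Z e else 0) ≤
      ∑ z ∈ lev ρ b t (r + 1), (cost 3 Z (fun _ => False) z - cost 3 Z cov z) := by
    have a1 : ∑ e ∈ lev ρ b t (r + 2), (if cov e then nz ρ b r Z e else 0) =
        ∑ e ∈ lev ρ b t (r + 2), ∑ v ∈ lev ρ b e (r + 1),
          (if cov e then (if Z v then (0 : ℤ) else 1) else 0) := by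
      refine sum_congr rfl fun e _ => ?_
      by_cases h1 : cov e <;> simp [h1, nz]
    rw [a1, ← sum_lev_comm b t (r + 1) (r + 2)
      (fun v e => if cov e then (if Z v then (0 : ℤ) else 1) else 0)]
    refine sum_le_sum fun z hz => ?_
    have hz' := mem_lev.1 hz
    by_cases h1 : Z z
    · simp [h1, cost]
    by_cases h2 : cov z
    · simp only [h1, h2, cost, if_false, if_true]
      rw [sum_boole]
      suffices ((lev ρ z t (r + 2)).filter cov).card ≤ 2 by
        norm_num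
        exact_mod_cast this
      have : ((lev ρ z t (r + 2)).filter cov).card ≤ 2 := by
        by_contra hcon
        obtain ⟨e1, e2, e3, m1, m2, m3, n1, n2, n3⟩ := two_lt_card_iff.1 (not_le.1 hcon)
        simp only [mem_filter, mem_lev] at m1 m2 m3
        have c1 := hv.join z hz h1 e1 e2 m1.1.1 m2.1.1 m1.1.2.1 m2.1.2.1 m1.2 m2.2
        have c2 := hv.join z hz h1 _ e3 (m1.1.1.trans le_sup_left) m3.1.1
          (sup_le m1.1.2.1 m2.1.2.1) m3.1.2.1 c1 m3.2
        have l1 : e1 ⊔ e2 ⊔ e3 ≤ t := sup_le (sup_le m1.1.2.1 m2.1.2.1) m3.1.2.1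
        have l2 := h.grd.lt (lt_of_le_of_ne l1 (by
          intro h5
          rw [h5] at c2
          exact hv.top c2))
        have l3 := h.grd.sup_rank (x := e1) (y := e2) fun h5 =>
          n1 (h.grd.eq h5 (by omega)).symm
        have l4 := h.grd.le (le_sup_left : e1 ⊔ e2 ≤ e1 ⊔ e2 ⊔ e3)
        exact n3 (h.not_three (a := z) (c := e1 ⊔ e2 ⊔ e3) (s := r + 2) (x := e1) (by omega)
          (by omega) (by simp [m1.1.1, m1.1.2.2, sup_assoc])
          (by simp [m2.1.1, m2.1.2.2, le_sup_of_le_left]) (by simp [m3.1.1, m3.1.2.2]) n1 n2)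
      exact this
    · simp only [h1, h2, cost, if_false]
      rw [sum_eq_zero]
      · simp
      · intro e he
        rw [if_neg fun h3 => h2 (hv.down _ _ (mem_lev.1 he).1 h3)]
  have e1 : ∑ e ∈ lev ρ b t (r + 2), nu ρ b r Z (fun _ => 0) e =
      ∑ e ∈ lev ρ b t (r + 2), (if cov e then 0 else nu ρ b r Z (fun _ => 0) e) +
      ∑ e ∈ lev ρ b t (r + 2), (if cov e then nz ρ b r Z e else 0) -
      ∑ e ∈ lev ρ b t (r + 2), (if cov e then nk ρ b r Z (fun _ => 0) e else 0) := by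
    rw [← sum_add_distrib, ← sum_sub_distrib]
    refine sum_congr rfl fun e _ => ?_
    by_cases h1 : cov e <;> simp [h1, nu]
  have e2 : ∑ f ∈ lev ρ b t (r + 3), w2 ρ b r Z (fun _ => 0) f =
      ∑ f ∈ lev ρ b t (r + 3), (if cov f then 0 else w2 ρ b r Z (fun _ => 0) f) +
      ∑ f ∈ lev ρ b t (r + 3), (if cov f then w2 ρ b r Z (fun _ => 0) f else 0) := by
    rw [← sum_add_distrib]
    refine sum_congr rfl fun e _ => ?_
    by_cases h1 : cov e <;> simp [h1]
  unfold DD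
  simp only [if_false]
  rw [sum_sub_distrib] at s2
  omega

/-- Pinning the first vertex. -/
lemma Normal.DD_pin_first (h : Normal ρ) (hb : ρ b = r) {d : ℤ} {y : P}
    (hy : y ∈ lev ρ b t (r + 1)) :
    DD ρ b t r d (fun _ => False) (fun _ => False) (fun _ => 0) =
      DD ρ b t r d (fun v => v = y) (fun _ => False) (fun _ => 0) - d := by
  have hy' := mem_lev.1 hy
  have k1 : ∀ e ∈ lev ρ b t (r + 2), nu ρ b r (fun _ => False) (fun _ => 0) e =
      nu ρ b r (fun v => v = y) (fun _ => 0) e := by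
    intro e he
    have he' := mem_lev.1 he
    obtain ⟨u, w, hne, b1, b2, b3, b4, b5, b6, l1⟩ := h.edge_ends hb he'.1 he'.2.2
    unfold nu
    simp only [nz_pair hne l1, nk_pair l1]
    by_cases h1 : u = y <;> by_cases h2 : w = y <;> simp_all
  have k2 : ∀ f ∈ lev ρ b t (r + 3), w2 ρ b r (fun _ => False) (fun _ => 0) f =
      w2 ρ b r (fun v => v = y) (fun _ => 0) f := by
    intro f hf
    have hf' := mem_lev.1 hf
    by_cases hyf : y ≤ f
    · have a1 := h.w2_add_sum_nu (b := b) (fun _ => False) (fun _ => 0) hf'.2.2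
      have a2 := h.w2_add_sum_nu (b := b) (fun v => v = y) (fun _ => 0) hf'.2.2
      have a0 : ∑ e ∈ lev ρ b f (r + 2), nu ρ b r (fun _ => False) (fun _ => 0) e =
          ∑ e ∈ lev ρ b f (r + 2), nu ρ b r (fun v => v = y) (fun _ => 0) e :=
        sum_congr rfl fun e he => k1 e (lev_sub hf'.2.1 he)
      have hm : y ∈ lev ρ b f (r + 1) := by simp [hy'.1, hyf, hy'.2.2]
      have p1 : pf ρ b r (fun _ => False) (fun _ => 0) f = 0 := by simp [pf]
      have p2 : pf ρ b r (fun v => v = y) (fun _ => 0) f = 1 := by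
        simp only [pf, sum_const_zero, add_zero]
        convert (sum_ite_eq' (lev ρ b f (r + 1)) y (fun _ => 1)).trans (if_pos hm)
      have p3 : nz ρ b r (fun _ => False) f = nz ρ b r (fun v => v = y) f + 1 := by
        unfold nz
        rw [← add_sum_erase _ _ hm, ← add_sum_erase _ (fun v => if v = y then (0 : ℤ) else 1) hm,
          sum_congr rfl (g := fun _ => (1 : ℤ)) (s₂ := (lev ρ b f (r + 1)).erase y)
            (f := fun v => if v = y then (0 : ℤ) else 1) fun v hv => if_neg (ne_of_mem_erase hv)]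
        simp
        ring
      rw [p1] at a1
      rw [p2] at a2
      simp only [cc] at a1 a2
      norm_num at a1 a2
      omega
    · refine w2_congr fun v hv => ?_
      simp only [false_iff]
      rintro rfl
      exact hyf (mem_lev.1 hv).2.1
  have k3 : ∑ z ∈ lev ρ b t (r + 1), cost d (fun _ => False) (fun _ => False) z =
      ∑ z ∈ lev ρ b t (r + 1), cost d (fun v => v = y) (fun _ => False) z + d := by
    rw [← add_sum_erase _ _ hy, ← add_sum_erase _ (cost d (fun v => v = y) fun _ => False) hy,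
      sum_congr rfl (g := cost d (fun _ => False) fun _ => False)
        (f := cost d (fun v => v = y) fun _ => False) fun v hv => by
          simp [cost, ne_of_mem_erase hv]]
    have e1 : cost d (fun v => v = y) (fun _ => False) y = 0 := by simp [cost]
    have e2 : cost d (fun _ => False) (fun _ => False) y = d := by simp [cost]
    rw [e1, e2]
    ring
  unfold DD
  simp only [if_false]
  rw [sum_congr rfl k1, sum_congr rfl k2, k3]
  ring

end Pool.Agent.Lib.MP_5e1226_co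
end

-- part Pool.Agent.Lib.MP_5e1226_co.Batch1
section

/-!
Processing one vertex: definitions and the low levels.
-/

set_option linter.unusedSectionVars false

namespace Pool.Agent.Lib.MP_5e1226_co

open Finset Classical

variable {P : Type} [Lattice P] [Fintype P]

def PL (Z cov : P → Prop) (y z : P) : Prop := Z z ∨ (cov z ∧ ¬ cov (z ⊔ y))

def Zb (ρ : P → ℕ) (t : P) (Z cov : P → Prop) (y z : P) : Prop :=
  Z z ∨ ρ (z ⊔ y) + 2 ≤ ρ t ∨ (ρ (z ⊔ y) + 1 = ρ t ∧ cov z ∧ ¬ cov (z ⊔ y))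

def covb (t : P) (cov : P → Prop) (y x : P) : Prop := cov x ∨ x ⊔ y < t

def ZQ (ρ : P → ℕ) (b : P) (r : ℕ) (Z cov : P → Prop) (y e : P) : Prop :=
  ∃ u ∈ lev ρ b e (r + 1), u ≠ y ∧ PL Z cov y u

noncomputable def piQ (ρ : P → ℕ) (b : P) (r : ℕ) (Z cov : P → Prop) (y f : P) : ℕ :=
  (flt (lev ρ b f (r + 1)) (fun m => m ⊔ y = f ∧ PL Z cov y m)).card

noncomputable def EE (ρ : P → ℕ) (b : P) (r : ℕ) (Z cov : P → Prop) (y Φ : P) : ℤ :=
  (∑ e ∈ lev ρ b Φ (r + 2), if ¬ cov e ∧ e ⊔ y = Φ then nu ρ b r Z (fun _ => 0) e else 0) +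
  ∑ f ∈ lev ρ b Φ (r + 3), if ¬ cov f ∧ f ⊔ y = Φ then w2 ρ b r Z (fun _ => 0) f else 0

noncomputable def OW (ρ : P → ℕ) (b : P) (r : ℕ) (Z cov : P → Prop) (y Φ : P) : ℤ :=
  ∑ z ∈ lev ρ b Φ (r + 1), if z ⊔ y = Φ then cost ((ρ Φ : ℤ) - r - 1) Z cov z else 0

noncomputable def UP (ρ : P → ℕ) (b : P) (r : ℕ) (Z cov : P → Prop) (y Φ : P) : ℤ :=
  ∑ z ∈ lev ρ b Φ (r + 1),
    if ρ (z ⊔ y) + 1 = ρ Φ ∧ r + 3 ≤ ρ (z ⊔ y) ∧ ¬ PL Z cov y z then 1 else 0

variable {ρ : P → ℕ} {b t y : P} {r : ℕ} {Z cov : P → Prop}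

lemma Valid.sub (hv : Valid ρ b t r Z cov) {Φ : P} (hΦ : Φ ≤ t) (hc : ¬ cov Φ) :
    Valid ρ b Φ r Z cov :=
  ⟨hv.down, fun z hz hZ x x' a1 a2 a3 a4 =>
    hv.join z (lev_sub hΦ hz) hZ x x' a1 a2 (a3.trans hΦ) (a4.trans hΦ), hc⟩

lemma Valid.batch (h : Normal ρ) (hv : Valid ρ b t r Z cov) (hy : y ≤ t) :
    Valid ρ b t r (Zb ρ t Z cov y) (covb t cov y) := by
  refine ⟨?_, ?_, ?_⟩
  · rintro x x' hx (h1 | h1)
    · exact Or.inl (hv.down _ _ hx h1)
    · exact Or.inr (lt_of_le_of_lt (sup_le_sup_right hx y) h1)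
  · intro z hz hZ
    unfold Zb at hZ
    push Not at hZ
    obtain ⟨z1, z2, z3⟩ := hZ
    have key : ∀ x, z ≤ x → x ⊔ y < t → x ⊔ y = z ⊔ y ∧ ρ (z ⊔ y) + 1 = ρ t := by
      intro x a1 a2
      have b1 := h.grd.lt a2
      have b2 : z ⊔ y ≤ x ⊔ y := sup_le_sup_right a1 y
      have b3 := h.grd.le b2
      exact ⟨(h.grd.eq b2 (by omega)).symm, by omega⟩
    have key2 : ∀ x x', z ≤ x → z ≤ x' → x ⊔ y < t → cov x' → cov x := by
      intro x x' a1 a2 a3 a4
      obtain ⟨b1, b2⟩ := key x a1 a3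
      have := z3 b2 (hv.down _ _ a2 a4)
      rw [← b1] at this
      exact hv.down _ _ le_sup_left this
    rintro x x' a1 a2 a3 a4 (c1 | c1) (c2 | c2)
    · exact Or.inl (hv.join z hz z1 x x' a1 a2 a3 a4 c1 c2)
    · exact Or.inl (hv.join z hz z1 x x' a1 a2 a3 a4 c1 (key2 x' x a2 a1 c2 c1))
    · exact Or.inl (hv.join z hz z1 x x' a1 a2 a3 a4 (key2 x x' a1 a2 c1 c2) c2)
    · right
      rw [sup_sup_distrib_right, (key x' a2 c2).1, ← (key x a1 c1).1, sup_idem]
      exact c1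
  · rintro (h1 | h1)
    · exact hv.top h1
    · rw [sup_eq_left.2 hy] at h1
      exact lt_irrefl _ h1

lemma Valid.quot (h : Normal ρ) (hb : ρ b = r) (hv : Valid ρ b t r Z cov)
    (hy : y ∈ lev ρ b t (r + 1)) : Valid ρ y t (r + 1) (ZQ ρ b r Z cov y) cov := by
  rw [mem_lev] at hy
  refine ⟨hv.down, ?_, hv.top⟩
  intro e he hZ x x' a1 a2 a3 a4
  rw [mem_lev] at he
  obtain ⟨u, c1, c2, c3, c4, -⟩ := h.edge_other hb hy.1 he.1 hy.2.2 he.2.2
  exact hv.join u (by simp [c2, c3.trans he.2.1, c4])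
    (fun h1 => hZ ⟨u, by simp [c2, c3, c4], c1, Or.inl h1⟩) x x' (c3.trans a1) (c3.trans a2) a3 a4

lemma sum_fiber {G : P} (hy : y ≤ G) (s k : ℕ) (B : P → P → ℤ) :
    ∑ f ∈ lev ρ y G s, ∑ m ∈ lev ρ b f k, (if m ⊔ y = f then B m f else 0) =
      ∑ m ∈ lev ρ b G k, if ρ (m ⊔ y) = s then B m (m ⊔ y) else 0 := by
  rw [sum_comm' (t' := lev ρ b G k) (s' := fun m => lev ρ (m ⊔ y) G s) (by
    intro f m
    simp only [mem_lev, sup_le_iff]
    constructor
    · rintro ⟨⟨a1, a2, a3⟩, a4, a5, a6⟩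
      exact ⟨⟨⟨a5, a1⟩, a2, a3⟩, a4, a5.trans a2, a6⟩
    · rintro ⟨⟨⟨a5, a1⟩, a2, a3⟩, a4, _, a6⟩
      exact ⟨⟨a1, a2, a3⟩, a4, a5, a6⟩)]
  refine sum_congr rfl fun m hm => ?_
  rw [sum_ite_eq]
  simp [(mem_lev.1 hm).2.1, hy]

/-- Sums over the edges at `y` are sums over the neighbours of `y`. -/
lemma Normal.sum_nbr (h : Normal ρ) (hb : ρ b = r) {G : P} (hy : y ∈ lev ρ b G (r + 1))
    (A B : P → ℤ) (hAB : ∀ e u, y ≤ e → e ≤ G → ρ e = r + 2 → u ≠ y → b ≤ u → u ≤ e →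
      ρ u = r + 1 → u ⊔ y = e → lev ρ b e (r + 1) = {y, u} → A e = B u) :
    ∑ e ∈ lev ρ y G (r + 2), A e =
      ∑ u ∈ lev ρ b G (r + 1), if ρ (u ⊔ y) = r + 2 then B u else 0 := by
  rw [mem_lev] at hy
  rw [← sum_fiber hy.2.1 (r + 2) (r + 1) (fun u _ => B u)]
  refine sum_congr rfl fun e he => ?_
  rw [mem_lev] at he
  obtain ⟨u, c1, c2, c3, c4, l1⟩ := h.edge_other hb hy.1 he.1 hy.2.2 he.2.2
  have e1 : u ⊔ y = e := h.grd.sup_eq c1 c3 he.1 (by omega) (by omega)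
  have e2 : y ≠ e := by rintro rfl; omega
  rw [l1, sum_pair c1.symm, hAB e u he.1 he.2.1 he.2.2 c1 c2 c3 c4 e1 l1]
  simp [e1, e2]

lemma Normal.sum_nu_at (h : Normal ρ) (hb : ρ b = r) {G : P} (hy : y ∈ lev ρ b G (r + 1))
    (hZ : Z y) : ∑ e ∈ lev ρ y G (r + 2), nu ρ b r Z (fun _ => 0) e =
      ∑ u ∈ lev ρ b G (r + 1), if ρ (u ⊔ y) = r + 2 then (if Z u then 0 else 1) else 0 := by
  refine h.sum_nbr hb hy _ _ fun e u _ _ _ a4 _ _ _ _ l1 => ?_
  unfold nu
  rw [nz_pair a4 l1, nk_pair l1]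
  simp [hZ]

lemma ZQ_iff {e u : P} (hne : u ≠ y) (l1 : lev ρ b e (r + 1) = {y, u}) :
    ZQ ρ b r Z cov y e ↔ PL Z cov y u := by
  unfold ZQ
  rw [l1]
  simp [hne]

lemma Grd.level (h : Grd ρ) {z : P} (hz : ρ z = ρ y) (hne : z ≠ y) : ρ y < ρ (z ⊔ y) := by
  rw [sup_comm]
  exact h.sup_rank fun h1 => hne (h.eq h1 hz.ge)

lemma lev_self (h : Grd ρ) {Φ : P} {s : ℕ} (hb : b ≤ Φ) (hs : ρ Φ = s) : lev ρ b Φ s = {Φ} := by
  ext x
  simp only [mem_lev, mem_singleton]
  constructor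
  · rintro ⟨-, a2, a3⟩
    exact h.eq a2 (by omega)
  · rintro rfl
    exact ⟨hb, le_rfl, hs⟩

lemma lev_empty (h : Grd ρ) {Φ : P} {s : ℕ} (hs : ρ Φ < s) : lev ρ b Φ s = ∅ := by
  ext x
  simp only [mem_lev, notMem_empty, iff_false]
  rintro ⟨-, a2, a3⟩
  have := h.le a2
  omega

lemma UP_low (h : Grd ρ) {Φ : P} (hΦ : ρ Φ ≤ r + 3) : UP ρ b r Z cov y Φ = 0 :=
  sum_eq_zero fun z _ => if_neg (by omega)

lemma Normal.level0 (h : Normal ρ) (hby : b ≤ y) (hy : ρ y = r + 1) (hZ : Z y) :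
    OW ρ b r Z cov y y + UP ρ b r Z cov y y ≤ EE ρ b r Z cov y y := by
  rw [UP_low h.grd (by omega)]
  unfold OW EE
  rw [lev_self h.grd hby hy, lev_empty h.grd (by omega), lev_empty h.grd (by omega)]
  simp [cost, hZ]

lemma Normal.level1 (h : Normal ρ) (hb : ρ b = r) {e : P} (hy : y ∈ lev ρ b e (r + 1)) (hZ : Z y)
    (he : ρ e = r + 2) (hc : ¬ cov e) :
    OW ρ b r Z cov y e + UP ρ b r Z cov y e ≤ EE ρ b r Z cov y e := by
  rw [UP_low h.grd (by omega)]
  rw [mem_lev] at hy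
  obtain ⟨u, c1, c2, c3, c4, l1⟩ := h.edge_other hb hy.1 hy.2.1 hy.2.2 he
  unfold OW EE
  rw [lev_self h.grd (hy.1.trans hy.2.1) he, lev_empty h.grd (s := r + 3) (by omega), l1,
    sum_pair c1.symm, sum_singleton, if_pos (show ¬ cov e ∧ e ⊔ y = e from
      ⟨hc, sup_eq_left.2 hy.2.1⟩)]
  unfold nu
  rw [nz_pair c1 l1, nk_pair l1]
  simp only [cost, hZ, he]
  by_cases h1 : Z u <;> by_cases h2 : cov u <;> by_cases h3 : u ⊔ y = e <;> simp [h1, h2, h3]

lemma Normal.level_high (h : Normal ρ) (hb : ρ b = r) {Φ : P} (hy : y ∈ lev ρ b Φ (r + 1))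
    (hv : Valid ρ b Φ r Z cov)
    (hD : 0 ≤ DD ρ b Φ r ((ρ Φ : ℤ) - r - 1) (Zb ρ Φ Z cov y) (covb Φ cov y) (fun _ => 0)) :
    OW ρ b r Z cov y Φ + UP ρ b r Z cov y Φ ≤ EE ρ b r Z cov y Φ := by
  rw [mem_lev] at hy
  have hm : ∀ v, Z v → Zb ρ Φ Z cov y v := fun v hv => Or.inl hv
  have hc : ∀ x, x ≤ Φ → (covb Φ cov y x ↔ ¬ (¬ cov x ∧ x ⊔ y = Φ)) := by
    intro x hx
    unfold covb
    have := (sup_le hx hy.2.1).lt_iff_ne
    tauto
  have a1 : (∑ e ∈ lev ρ b Φ (r + 2),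
      if covb Φ cov y e then 0 else nu ρ b r (Zb ρ Φ Z cov y) (fun _ => 0) e) ≤
      ∑ e ∈ lev ρ b Φ (r + 2),
        if ¬ cov e ∧ e ⊔ y = Φ then nu ρ b r Z (fun _ => 0) e else 0 := by
    refine sum_le_sum fun e he => ?_
    rw [mem_lev] at he
    have := h.nu_mono hb hm (fun _ => 0) he.1 he.2.2
    by_cases h1 : ¬ cov e ∧ e ⊔ y = Φ
    · rw [if_pos h1, if_neg (by rw [hc e he.2.1]; exact not_not.2 h1)]
      exact this
    · rw [if_neg h1, if_pos ((hc e he.2.1).2 h1)]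
  have a2 : (∑ e ∈ lev ρ b Φ (r + 3),
      if covb Φ cov y e then 0 else w2 ρ b r (Zb ρ Φ Z cov y) (fun _ => 0) e) ≤
      ∑ e ∈ lev ρ b Φ (r + 3),
        if ¬ cov e ∧ e ⊔ y = Φ then w2 ρ b r Z (fun _ => 0) e else 0 := by
    refine sum_le_sum fun e he => ?_
    rw [mem_lev] at he
    have := h.w2_mono hb hm (fun _ => 0) he.2.2
    by_cases h1 : ¬ cov e ∧ e ⊔ y = Φ
    · rw [if_pos h1, if_neg (by rw [hc e he.2.1]; exact not_not.2 h1)]
      exact this
    · rw [if_neg h1, if_pos ((hc e he.2.1).2 h1)]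
  have a3 : OW ρ b r Z cov y Φ + UP ρ b r Z cov y Φ ≤ ∑ z ∈ lev ρ b Φ (r + 1),
      cost ((ρ Φ : ℤ) - r - 1) (Zb ρ Φ Z cov y) (covb Φ cov y) z := by
    unfold OW UP
    rw [← sum_add_distrib]
    refine sum_le_sum fun z hz => ?_
    rw [mem_lev] at hz
    have b0 := h.grd.le hy.2.1
    by_cases h1 : z ⊔ y = Φ
    · have e1 : Zb ρ Φ Z cov y z ↔ Z z := by
        unfold Zb
        rw [h1]
        simp
      have e2 : covb Φ cov y z ↔ cov z := by
        unfold covb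
        rw [h1]
        simp
      simp [h1, cost, e1, e2]
    · have e2 : covb Φ cov y z := Or.inr (lt_of_le_of_ne (sup_le hz.2.1 hy.2.1) h1)
      rw [if_neg h1]
      split_ifs with h2
      · have e1 : ¬ Zb ρ Φ Z cov y z := by
          rintro (c | c | c)
          · exact h2.2.2 (Or.inl c)
          · omega
          · exact h2.2.2 (Or.inr c.2)
        simp [cost, e1, e2]
      · simp only [cost, e2, if_true]
        split_ifs <;> omega
  unfold DD at hD
  unfold EE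
  omega

lemma Normal.level2 (h : Normal ρ) (hb : ρ b = r) {f : P} (hy : y ∈ lev ρ b f (r + 1)) (hZ : Z y)
    (hf : ρ f = r + 3) (hv : Valid ρ b f r Z cov) :
    OW ρ b r Z cov y f + UP ρ b r Z cov y f +
      nu ρ y (r + 1) (ZQ ρ b r Z cov y) (piQ ρ b r Z cov y) f ≤ EE ρ b r Z cov y f := by
  rw [UP_low h.grd (by omega)]
  have hy' := mem_lev.1 hy
  have a1 := h.w2_add_sum_nu (b := b) Z (fun _ => 0) hf
  have a2 := h.sum_nu_at hb hy hZ
  have a3 : nz ρ y (r + 1) (ZQ ρ b r Z cov y) f = ∑ u ∈ lev ρ b f (r + 1),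
      if ρ (u ⊔ y) = r + 2 then (if PL Z cov y u then 0 else 1) else 0 :=
    h.sum_nbr hb hy _ _ fun e u _ _ _ a4 _ _ _ _ l1 => by rw [ZQ_iff a4 l1]
  have a4 : ∑ e ∈ lev ρ b f (r + 2), nu ρ b r Z (fun _ => 0) e =
      (∑ e ∈ lev ρ b f (r + 2), if ¬ cov e ∧ e ⊔ y = f then nu ρ b r Z (fun _ => 0) e else 0) +
      ∑ e ∈ lev ρ y f (r + 2), nu ρ b r Z (fun _ => 0) e +
      (∑ e ∈ lev ρ b f (r + 2), if cov e ∧ ¬ y ≤ e then nz ρ b r Z e else 0) -
      (∑ e ∈ lev ρ b f (r + 2), if cov e ∧ ¬ y ≤ e then nk ρ b r Z (fun _ => 0) e else 0) := by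
    have : lev ρ y f (r + 2) = (lev ρ b f (r + 2)).filter (fun e => y ≤ e) := by
      ext e
      simp only [mem_lev, mem_filter]
      exact ⟨fun ⟨a1, a2, a3⟩ => ⟨⟨hy'.1.trans a1, a2, a3⟩, a1⟩, fun ⟨⟨_, a2, a3⟩, a1⟩ => ⟨a1, a2, a3⟩⟩
    rw [this, sum_filter, ← sum_add_distrib, ← sum_add_distrib, ← sum_sub_distrib]
    refine sum_congr rfl fun e he => ?_
    rw [mem_lev] at he
    by_cases h1 : y ≤ e
    · have : e ≠ f := by rintro rfl; omega
      simp [h1, this]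
    · have := h.grd.sup_eq' h1 he.2.1 hy'.2.1 (by omega)
      by_cases h2 : cov e <;> simp [h1, h2, this, nu]
  have a5 : 2 * nz ρ b r Z f = OW ρ b r Z cov y f +
      (∑ u ∈ lev ρ b f (r + 1), if ρ (u ⊔ y) = r + 2 then (if Z u then 0 else 1) else 0) +
      (∑ u ∈ lev ρ b f (r + 1),
        if ρ (u ⊔ y) = r + 2 then (if PL Z cov y u then 0 else 1) else 0) +
      ∑ u ∈ lev ρ b f (r + 1), if ¬ Z u ∧ PL Z cov y u then 1 else 0 := by
    unfold nz OW
    rw [← sum_add_distrib, ← sum_add_distrib, ← sum_add_distrib, mul_sum]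
    refine sum_congr rfl fun z hz => ?_
    rw [mem_lev] at hz
    by_cases h1 : Z z
    · simp [h1, cost, PL]
    have hne : z ≠ y := by rintro rfl; exact h1 hZ
    have l1 := h.grd.level (by omega : ρ z = ρ y) hne
    have l2 : z ⊔ y ≤ f := sup_le hz.2.1 hy'.2.1
    by_cases h2 : z ⊔ y = f
    · have := hv.top
      by_cases h3 : cov z <;> simp [h1, h2, h3, cost, PL, hf, this]
    · have l3 := h.grd.lt (lt_of_le_of_ne l2 h2)
      have l4 : ρ (z ⊔ y) = r + 2 := by omega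
      by_cases h3 : PL Z cov y z <;> simp [h1, h2, h3, l4]
  have a6 : (∑ e ∈ lev ρ b f (r + 2), if cov e ∧ ¬ y ≤ e then nz ρ b r Z e else 0) ≤
      ∑ u ∈ lev ρ b f (r + 1), if ¬ Z u ∧ PL Z cov y u then 1 else 0 := by
    have b1 : (∑ e ∈ lev ρ b f (r + 2), if cov e ∧ ¬ y ≤ e then nz ρ b r Z e else 0) =
        ∑ e ∈ lev ρ b f (r + 2), ∑ v ∈ lev ρ b e (r + 1),
          (if cov e ∧ ¬ y ≤ e then (if Z v then (0 : ℤ) else 1) else 0) := by
      refine sum_congr rfl fun e _ => ?_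
      by_cases h1 : cov e ∧ ¬ y ≤ e
      · simp only [if_pos h1, nz]
      · simp only [if_neg h1, sum_const_zero]
    rw [b1, ← sum_lev_comm b f (r + 1) (r + 2)
      (fun v e => if cov e ∧ ¬ y ≤ e then (if Z v then (0 : ℤ) else 1) else 0)]
    refine sum_le_sum fun z hz => ?_
    have hz' := mem_lev.1 hz
    by_cases h1 : Z z
    · simp [h1]
    obtain ⟨e1, e2, hne, c1, c2, c3, c4, c5, c6, l1⟩ := h.corner hz'.2.1 hz'.2.2 hf
    rw [l1, sum_pair hne]
    have n1 : ¬ (cov e1 ∧ cov e2) := by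
      rintro ⟨d1, d2⟩
      have := hv.join z hz h1 e1 e2 c1 c4 c2 c5 d1 d2
      rw [h.grd.sup_eq hne c2 c5 (by omega) (by omega)] at this
      exact hv.top this
    have n2 : ∀ e, z ≤ e → e ≤ f → ρ e = r + 2 → cov e → ¬ y ≤ e → PL Z cov y z := by
      intro e d1 d2 d3 d4 d5
      refine Or.inr ⟨hv.down _ _ d1 d4, fun d6 => ?_⟩
      have := hv.join z hz h1 e (z ⊔ y) d1 le_sup_left d2 (sup_le hz'.2.1 hy'.2.1) d4 d6
      rw [← sup_assoc, sup_eq_left.2 d1, h.grd.sup_eq' d5 d2 hy'.2.1 (by omega)] at this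
      exact hv.top this
    have n3 := n2 e1 c1 c2 c3
    have n4 := n2 e2 c4 c5 c6
    by_cases d1 : cov e1 ∧ ¬ y ≤ e1
    · rw [if_pos d1, if_neg (fun d2 : cov e2 ∧ ¬ y ≤ e2 => n1 ⟨d1.1, d2.1⟩)]
      simp [h1, n3 d1.1 d1.2]
    · rw [if_neg d1]
      by_cases d2 : cov e2 ∧ ¬ y ≤ e2
      · rw [if_pos d2]
        simp [h1, n4 d2.1 d2.2]
      · rw [if_neg d2]
        split_ifs <;> omega
  have a7 : 0 ≤ (∑ e ∈ lev ρ b f (r + 2),
      if cov e ∧ ¬ y ≤ e then nk ρ b r Z (fun _ => 0) e else 0) :=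
    sum_nonneg fun e _ => by
      have := nk_nonneg (ρ := ρ) (b := b) (r := r) Z (fun _ => 0) e
      split_ifs <;> omega
  have a8 := nk_nonneg (ρ := ρ) (b := y) (r := r + 1) (ZQ ρ b r Z cov y) (piQ ρ b r Z cov y) f
  have a9 : EE ρ b r Z cov y f = (∑ e ∈ lev ρ b f (r + 2),
      if ¬ cov e ∧ e ⊔ y = f then nu ρ b r Z (fun _ => 0) e else 0) +
      w2 ρ b r Z (fun _ => 0) f := by
    unfold EE
    rw [lev_self h.grd (hy'.1.trans hy'.2.1) hf, sum_singleton, if_pos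
      (show ¬ cov f ∧ f ⊔ y = f from ⟨hv.top, sup_eq_left.2 hy'.2.1⟩)]
  rw [a9]
  unfold nu at a1 a2 a4 ⊢
  by_cases hp : 2 ≤ pf ρ b r Z (fun _ => 0) f
  · rw [cc_of_two_le hp] at a1
    omega
  · have hp1 : 1 ≤ pf ρ b r Z (fun _ => 0) f := by
      rw [pf_zero]
      exact card_pos.2 ⟨y, mem_flt.2 ⟨hy, hZ⟩⟩
    have hone : ∀ x, x ∈ lev ρ b f (r + 1) → Z x → x = y := by
      rw [pf_zero] at hp
      exact fun x h1 h3 => card_le_one.1 (by omega : (flt (lev ρ b f (r + 1)) Z).card ≤ 1)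
        x (mem_flt.2 ⟨h1, h3⟩) y (mem_flt.2 ⟨hy, hZ⟩)
    rw [show pf ρ b r Z (fun _ => 0) f = 1 by omega] at a1
    have b1 : (∑ e ∈ lev ρ b f (r + 2), if cov e ∧ ¬ y ≤ e then nz ρ b r Z e else 0) =
        2 * (∑ e ∈ lev ρ b f (r + 2),
          if cov e ∧ ¬ y ≤ e then nk ρ b r Z (fun _ => 0) e else 0) := by
      rw [mul_sum]
      refine sum_congr rfl fun e he => ?_
      rw [mem_lev] at he
      split_ifs with h1
      · obtain ⟨u, w, hne, b1, b2, b3, b4, b5, b6, l1⟩ := h.edge_ends hb he.1 he.2.2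
        have n1 : ¬ Z u := fun h2 => h1.2 (by
          rw [← hone u (by simp [b1, b2.trans he.2.1, b3]) h2]; exact b2)
        have n2 : ¬ Z w := fun h2 => h1.2 (by
          rw [← hone w (by simp [b4, b5.trans he.2.1, b6]) h2]; exact b5)
        rw [nz_pair hne l1, nk_pair l1]
        simp [n1, n2]
      · simp
    have c1 : cc 1 = 1 := rfl
    by_cases h0 : (∑ u ∈ lev ρ b f (r + 1), if ¬ Z u ∧ PL Z cov y u then (1 : ℤ) else 0) = 0
    · have hn : ∀ u ∈ lev ρ b f (r + 1), u ≠ y → ¬ PL Z cov y u := by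
        intro u hu hne hP
        have := (sum_eq_zero_iff_of_nonneg fun u _ => by positivity).1 h0 u hu
        rw [if_pos ⟨fun h2 => hne (hone u hu h2), hP⟩] at this
        exact one_ne_zero this
      have : nk ρ y (r + 1) (ZQ ρ b r Z cov y) (piQ ρ b r Z cov y) f = 1 := by
        unfold nk
        rw [if_pos]
        constructor
        · unfold piQ
          rw [card_eq_zero, eq_empty_iff_forall_notMem]
          intro m hm
          rw [mem_flt] at hm
          refine hn m hm.1 ?_ hm.2.2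
          rintro rfl
          rw [sup_idem] at hm
          have := hm.2.1
          subst this
          omega
        · rintro e he ⟨u, hu, hne, hP⟩
          exact hn u (lev_sub (mem_lev.1 he).2.1 hu) hne hP
      omega
    · have : 0 ≤ (∑ u ∈ lev ρ b f (r + 1), if ¬ Z u ∧ PL Z cov y u then (1 : ℤ) else 0) :=
        sum_nonneg fun u _ => by positivity
      omega

end Pool.Agent.Lib.MP_5e1226_co
end

-- part Pool.Agent.Lib.MP_5e1226_co.Batch2
section

/-!
Processing one vertex: the three-dimensional faces.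
-/

set_option linter.unusedSectionVars false

namespace Pool.Agent.Lib.MP_5e1226_co

open Finset Classical

variable {P : Type} [Lattice P] [Fintype P] {ρ : P → ℕ} {b t y : P} {r : ℕ} {Z cov : P → Prop}

def Za (Z cov : P → Prop) (y G z : P) : Prop := Z z ∨ (PL Z cov y z ∧ z ⊔ y ≠ G)

def cova (cov : P → Prop) (y G x : P) : Prop := ∃ x', x ≤ x' ∧ x' ≤ G ∧ cov x' ∧ x' ⊔ y = G

lemma Valid.aux {G : P} (hv : Valid ρ b G r Z cov) : Valid ρ b G r (Za Z cov y G) (cova cov y G) := by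
  refine ⟨?_, ?_, ?_⟩
  · rintro x x' hx ⟨w, a1, a2⟩
    exact ⟨w, hx.trans a1, a2⟩
  · rintro z hz hZ x x' a1 a2 - - ⟨w, b1, b2, b3, b4⟩ ⟨w', c1, c2, c3, c4⟩
    refine ⟨w ⊔ w', sup_le_sup b1 c1, sup_le b2 c2,
      hv.join z hz (fun h1 => hZ (Or.inl h1)) w w' (a1.trans b1) (a2.trans c1) b2 c2 b3 c3, ?_⟩
    rw [sup_sup_distrib_right, b4, c4, sup_idem]
  · rintro ⟨w, a1, a2, a3, -⟩
    exact hv.top (hv.down _ _ a1 a3)

lemma lev_filter_le {c : P} {s : ℕ} (hby : b ≤ y) :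
    lev ρ y c s = (lev ρ b c s).filter (fun e => y ≤ e) := by
  ext e
  simp only [mem_lev, mem_filter]
  exact ⟨fun ⟨a1, a2, a3⟩ => ⟨⟨hby.trans a1, a2, a3⟩, a1⟩, fun ⟨⟨_, a2, a3⟩, a1⟩ => ⟨a1, a2, a3⟩⟩

/-- Weight of a polygon at a pinned vertex `y` with its edges that avoid `y`. -/
lemma Normal.face_at (h : Normal ρ) (hb : ρ b = r) {f : P} (hy : y ∈ lev ρ b f (r + 1)) (hZ : Z y)
    (hf : ρ f = r + 3) :
    w2 ρ b r Z (fun _ => 0) f +
      (∑ e ∈ lev ρ b f (r + 2), if e ⊔ y = f then nu ρ b r Z (fun _ => 0) e else 0) =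
      2 * (∑ z ∈ lev ρ b f (r + 1), if z ⊔ y = f then (if Z z then 0 else 1) else 0) +
      ∑ e ∈ lev ρ y f (r + 2), nu ρ b r Z (fun _ => 0) e - cc (pf ρ b r Z (fun _ => 0) f) := by
  have hy' := mem_lev.1 hy
  have a1 := h.w2_add_sum_nu (b := b) Z (fun _ => 0) hf
  have a2 := h.sum_nu_at hb hy hZ
  have a4 : ∑ e ∈ lev ρ b f (r + 2), nu ρ b r Z (fun _ => 0) e =
      (∑ e ∈ lev ρ b f (r + 2), if e ⊔ y = f then nu ρ b r Z (fun _ => 0) e else 0) +
      ∑ e ∈ lev ρ y f (r + 2), nu ρ b r Z (fun _ => 0) e := by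
    rw [lev_filter_le hy'.1, sum_filter, ← sum_add_distrib]
    refine sum_congr rfl fun e he => ?_
    rw [mem_lev] at he
    by_cases h1 : y ≤ e
    · have : e ≠ f := by rintro rfl; omega
      simp [h1, this]
    · have := h.grd.sup_eq' h1 he.2.1 hy'.2.1 (by omega)
      simp [h1, this]
  have a5 : nz ρ b r Z f =
      (∑ z ∈ lev ρ b f (r + 1), if z ⊔ y = f then (if Z z then 0 else 1) else 0) +
      (∑ u ∈ lev ρ b f (r + 1), if ρ (u ⊔ y) = r + 2 then (if Z u then 0 else 1) else 0) := by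
    unfold nz
    rw [← sum_add_distrib]
    refine sum_congr rfl fun z hz => ?_
    rw [mem_lev] at hz
    by_cases h1 : Z z
    · simp [h1]
    have hne : z ≠ y := by rintro rfl; exact h1 hZ
    have l1 := h.grd.level (by omega : ρ z = ρ y) hne
    have l2 : z ⊔ y ≤ f := sup_le hz.2.1 hy'.2.1
    by_cases h2 : z ⊔ y = f
    · simp [h1, h2, hf]
    · have l3 := h.grd.lt (lt_of_le_of_ne l2 h2)
      have l4 : ρ (z ⊔ y) = r + 2 := by omega
      simp [h1, h2, l4]
  omega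

lemma Normal.level3 (h : Normal ρ) (hb : ρ b = r) {G : P} (hy : y ∈ lev ρ b G (r + 1)) (hZ : Z y)
    (hG : ρ G = r + 4) (hv : Valid ρ b G r Z cov) :
    OW ρ b r Z cov y G + UP ρ b r Z cov y G +
      w2 ρ y (r + 1) (ZQ ρ b r Z cov y) (piQ ρ b r Z cov y) G ≤ EE ρ b r Z cov y G := by
  have hy' := mem_lev.1 hy
  set Z' := Za Z cov y G with hZ'
  have hm : ∀ v, Z v → Z' v := fun v hv => Or.inl hv
  have hZy : Z' y := hm y hZ
  have hlow : ∀ z, ρ (z ⊔ y) ≤ r + 3 → (Z' z ↔ PL Z cov y z) := by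
    intro z hz
    have : z ⊔ y ≠ G := by
      intro h1
      rw [h1] at hz
      omega
    simp only [hZ', Za, PL]
    tauto
  have d1 := h.planar hb hG _ Z' rfl ⟨y, mem_flt.2 ⟨hy, hZy⟩⟩
  have d2 := h.planar_cov hb hG (hv.aux (y := y))
  rw [← hZ'] at d2
  have d3 : pf ρ y (r + 1) (ZQ ρ b r Z cov y) (piQ ρ b r Z cov y) G + 1 ≤
      (flt (lev ρ b G (r + 1)) Z').card := by
    have e1 : (∑ e ∈ lev ρ y G (r + 2), if ZQ ρ b r Z cov y e then (1 : ℤ) else 0) =
        ∑ u ∈ lev ρ b G (r + 1),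
          if ρ (u ⊔ y) = r + 2 then (if PL Z cov y u then 1 else 0) else 0 :=
      h.sum_nbr hb hy _ _ fun e u _ _ _ a4 _ _ _ _ l1 => by rw [ZQ_iff a4 l1]
    have e2 : ∑ f ∈ lev ρ y G (r + 3), (piQ ρ b r Z cov y f : ℤ) = ∑ u ∈ lev ρ b G (r + 1),
          if ρ (u ⊔ y) = r + 3 then (if PL Z cov y u then 1 else 0) else 0 := by
      rw [← sum_fiber hy'.2.1 (r + 3) (r + 1) (fun u _ => if PL Z cov y u then 1 else 0)]
      refine sum_congr rfl fun f _ => ?_
      unfold piQ flt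
      rw [card_filter]
      push_cast
      refine sum_congr rfl fun m _ => ?_
      by_cases h1 : m ⊔ y = f <;> by_cases h2 : PL Z cov y m <;> simp [h1, h2]
    have e3 : ((flt (lev ρ b G (r + 1)) Z').card : ℤ) =
        ∑ u ∈ lev ρ b G (r + 1), if Z' u then 1 else 0 := by
      unfold flt
      rw [card_filter]
      push_cast
      rfl
    have e4 : (∑ u ∈ lev ρ b G (r + 1), if u = y then (1 : ℤ) else 0) = 1 := by
      rw [sum_ite_eq', if_pos hy]
    have e5 : (∑ u ∈ lev ρ b G (r + 1),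
          if ρ (u ⊔ y) = r + 2 then (if PL Z cov y u then (1 : ℤ) else 0) else 0) +
        (∑ u ∈ lev ρ b G (r + 1),
          if ρ (u ⊔ y) = r + 3 then (if PL Z cov y u then (1 : ℤ) else 0) else 0) +
        (∑ u ∈ lev ρ b G (r + 1), if u = y then (1 : ℤ) else 0) ≤
        ∑ u ∈ lev ρ b G (r + 1), if Z' u then 1 else 0 := by
      rw [← sum_add_distrib, ← sum_add_distrib]
      refine sum_le_sum fun u _ => ?_
      by_cases h1 : u = y
      · subst h1
        simp [hZy, hy'.2.2]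
      · have := hlow u
        by_cases h2 : ρ (u ⊔ y) = r + 2
        · simp [h1, h2, this (by omega)]
        · by_cases h3 : ρ (u ⊔ y) = r + 3
          · simp [h1, h3, this (by omega)]
          · simp only [h1, h2, h3, if_false]
            split_ifs <;> omega
    have e6 : (pf ρ y (r + 1) (ZQ ρ b r Z cov y) (piQ ρ b r Z cov y) G : ℤ) =
        (∑ e ∈ lev ρ y G (r + 2), if ZQ ρ b r Z cov y e then (1 : ℤ) else 0) +
        ∑ f ∈ lev ρ y G (r + 3), (piQ ρ b r Z cov y f : ℤ) := by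
      unfold pf
      push_cast
      rfl
    omega
  have d4 := cc_anti (p := pf ρ y (r + 1) (ZQ ρ b r Z cov y) (piQ ρ b r Z cov y) G)
    (q := (flt (lev ρ b G (r + 1)) Z').card - 1) (by omega)
  have hcv : ∀ x, x ≤ G → x ⊔ y = G → (cova cov y G x ↔ cov x) := fun x a1 a2 =>
    ⟨fun ⟨w, b1, _, b3, _⟩ => hv.down _ _ b1 b3, fun b1 => ⟨x, le_rfl, a1, b1, a2⟩⟩
  have s1 : (∑ e ∈ lev ρ b G (r + 2), if cova cov y G e then 0 else nu ρ b r Z' (fun _ => 0) e) ≤
      (∑ e ∈ lev ρ b G (r + 2), if ¬ cov e ∧ e ⊔ y = G then nu ρ b r Z (fun _ => 0) e else 0) +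
      ∑ e ∈ lev ρ y G (r + 2), nu ρ b r Z' (fun _ => 0) e +
      ∑ f ∈ lev ρ y G (r + 3), ∑ e ∈ lev ρ b f (r + 2),
        if e ⊔ y = f then nu ρ b r Z' (fun _ => 0) e else 0 := by
    rw [sum_fiber hy'.2.1 (r + 3) (r + 2) (fun e _ => nu ρ b r Z' (fun _ => 0) e),
      lev_filter_le hy'.1, sum_filter, ← sum_add_distrib, ← sum_add_distrib]
    refine sum_le_sum fun e he => ?_
    rw [mem_lev] at he
    have n1 := h.nu_mono hb hm (fun _ => 0) he.1 he.2.2
    have n2 := h.nu_nonneg hb Z' (fun _ => 0) he.1 he.2.2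
    by_cases h1 : e ⊔ y = G
    · have := hcv e he.2.1 h1
      by_cases h2 : cov e
      · simp only [this, h2, if_true]
        split_ifs <;> omega
      · simp only [this, h2, if_false, h1, not_false_iff, and_self, if_true]
        split_ifs <;> omega
    · simp only [h1, and_false, if_false]
      by_cases h2 : y ≤ e
      · simp only [h2, if_true]
        split_ifs <;> omega
      · have l1 := h.grd.sup_rank h2
        have l2 := h.grd.lt (lt_of_le_of_ne (sup_le he.2.1 hy'.2.1) h1)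
        rw [if_pos (show ρ (e ⊔ y) = r + 3 by omega)]
        split_ifs <;> omega
  have s2 : (∑ f ∈ lev ρ b G (r + 3), if cova cov y G f then 0 else w2 ρ b r Z' (fun _ => 0) f) ≤
      (∑ f ∈ lev ρ b G (r + 3), if ¬ cov f ∧ f ⊔ y = G then w2 ρ b r Z (fun _ => 0) f else 0) +
      ∑ f ∈ lev ρ y G (r + 3), w2 ρ b r Z' (fun _ => 0) f := by
    rw [lev_filter_le hy'.1, sum_filter, ← sum_add_distrib]
    refine sum_le_sum fun e he => ?_
    rw [mem_lev] at he
    have n1 := h.w2_mono hb hm (fun _ => 0) he.2.2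
    have n2 := h.w2_nonneg hb Z' (fun _ => 0) he.1 he.2.2
    by_cases h1 : e ⊔ y = G
    · have := hcv e he.2.1 h1
      by_cases h2 : cov e
      · simp only [this, h2, if_true]
        split_ifs <;> omega
      · simp only [this, h2, if_false, h1, not_false_iff, and_self, if_true]
        split_ifs <;> omega
    · simp only [h1, and_false, if_false]
      by_cases h2 : y ≤ e
      · simp only [h2, if_true]
        split_ifs <;> omega
      · exact absurd (h.grd.sup_eq' h2 he.2.1 hy'.2.1 (by omega)) h1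
  have s3 : ∑ f ∈ lev ρ y G (r + 3), w2 ρ b r Z' (fun _ => 0) f +
      (∑ f ∈ lev ρ y G (r + 3), ∑ e ∈ lev ρ b f (r + 2),
        if e ⊔ y = f then nu ρ b r Z' (fun _ => 0) e else 0) +
      ∑ f ∈ lev ρ y G (r + 3), nk ρ y (r + 1) (ZQ ρ b r Z cov y) (piQ ρ b r Z cov y) f ≤
      2 * (∑ f ∈ lev ρ y G (r + 3), ∑ z ∈ lev ρ b f (r + 1),
        if z ⊔ y = f then (if Z' z then 0 else 1) else 0) +
      ∑ f ∈ lev ρ y G (r + 3), ∑ e ∈ lev ρ y f (r + 2), nu ρ b r Z' (fun _ => 0) e := by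
    rw [mul_sum, ← sum_add_distrib, ← sum_add_distrib, ← sum_add_distrib]
    refine sum_le_sum fun f hf => ?_
    rw [mem_lev] at hf
    have hyf : y ∈ lev ρ b f (r + 1) := by simp [hy'.1, hf.1, hy'.2.2]
    rw [h.face_at hb hyf hZy hf.2.2]
    have : nk ρ y (r + 1) (ZQ ρ b r Z cov y) (piQ ρ b r Z cov y) f ≤
        cc (pf ρ b r Z' (fun _ => 0) f) := by
      unfold nk
      split_ifs with h1
      · have : pf ρ b r Z' (fun _ => 0) f ≤ 1 := by
          rw [pf_zero, card_le_one]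
          have key : ∀ x ∈ flt (lev ρ b f (r + 1)) Z', x = y := by
            intro x hx
            rw [mem_flt] at hx
            by_contra hne
            have hx1 := mem_lev.1 hx.1
            have l2 : x ⊔ y ≤ f := sup_le hx1.2.1 hf.1
            have l3 := h.grd.le l2
            have hP := (hlow x (by omega)).1 hx.2
            by_cases h2 : x ⊔ y = f
            · have := h1.1
              unfold piQ at this
              rw [card_eq_zero, eq_empty_iff_forall_notMem] at this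
              exact this x (mem_flt.2 ⟨hx.1, h2, hP⟩)
            · have l4 := h.grd.lt (lt_of_le_of_ne l2 h2)
              have l1 := h.grd.level (by omega : ρ x = ρ y) hne
              exact h1.2 (x ⊔ y) (by simp [hx1.2.1, hf.1]; omega)
                ⟨x, by simp [hx1.1, hx1.2.2], hne, hP⟩
          intro x hx x' hx'
          rw [key x hx, key x' hx']
        have h3 := cc_anti this
        have c1 : cc 1 = 1 := rfl
        omega
      · exact cc_nonneg _
    omega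
  have s4 : ∑ f ∈ lev ρ y G (r + 3), ∑ e ∈ lev ρ y f (r + 2), nu ρ b r Z' (fun _ => 0) e =
      2 * ∑ e ∈ lev ρ y G (r + 2), nu ρ b r Z' (fun _ => 0) e := by
    rw [← sum_lev_comm y G (r + 2) (r + 3) (fun e _ => nu ρ b r Z' (fun _ => 0) e), mul_sum]
    refine sum_congr rfl fun e he => ?_
    rw [mem_lev] at he
    rw [sum_const, h.two he.2.1 (by omega) (by omega)]
    simp
  have s5 := sum_fiber (ρ := ρ) (b := b) hy'.2.1 (r + 3) (r + 1) (fun z _ => if Z' z then 0 else 1)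
  have s6 := h.sum_nu_at hb hy hZy
  have s7 : UP ρ b r Z cov y G = ∑ m ∈ lev ρ b G (r + 1),
      if ρ (m ⊔ y) = r + 3 then (if Z' m then 0 else 1) else 0 := by
    unfold UP
    refine sum_congr rfl fun m _ => ?_
    by_cases h1 : ρ (m ⊔ y) = r + 3
    · by_cases h2 : PL Z cov y m <;> simp [h1, h2, hlow m h1.le, hG]
    · rw [if_neg h1, if_neg (by omega)]
  have s8 : OW ρ b r Z cov y G + 3 * (∑ m ∈ lev ρ b G (r + 1),
      if ρ (m ⊔ y) = r + 3 then (if Z' m then 0 else 1) else 0) + 3 * (∑ m ∈ lev ρ b G (r + 1),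
      if ρ (m ⊔ y) = r + 2 then (if Z' m then 0 else 1) else 0) ≤
      ∑ z ∈ lev ρ b G (r + 1), cost 3 Z' (cova cov y G) z := by
    unfold OW
    rw [mul_sum, mul_sum, ← sum_add_distrib, ← sum_add_distrib]
    refine sum_le_sum fun z hz => ?_
    have hz' := mem_lev.1 hz
    by_cases h1 : z ⊔ y = G
    · have e1 : Z' z ↔ Z z := by simp [hZ', Za, h1]
      have e3 : ((r + 4 : ℕ) : ℤ) - r - 1 = 3 := by push_cast; ring
      simp only [h1, hG, cost, e1, hcv z hz'.2.1 h1, e3]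
      simp
    · by_cases h2 : Z' z
      · simp [h1, h2, cost]
      · have l2 := h.grd.lt (lt_of_le_of_ne (sup_le hz'.2.1 hy'.2.1) h1)
        have hP : ¬ PL Z cov y z := fun h3 => h2 ((hlow z (by omega)).2 h3)
        have e2 : ¬ cova cov y G z := by
          rintro ⟨w, b1, b2, b3, b4⟩
          unfold PL at hP
          push Not at hP
          have := hv.join z hz hP.1 w (z ⊔ y) b1 le_sup_left b2 (sup_le hz'.2.1 hy'.2.1) b3
            (hP.2 (hv.down _ _ b1 b3))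
          rw [← sup_assoc, sup_eq_left.2 b1, b4] at this
          exact hv.top this
        simp only [h1, h2, e2, cost, if_false]
        split_ifs <;> omega
  have s9 : w2 ρ y (r + 1) (ZQ ρ b r Z cov y) (piQ ρ b r Z cov y) G =
      ∑ f ∈ lev ρ y G (r + 3), nk ρ y (r + 1) (ZQ ρ b r Z cov y) (piQ ρ b r Z cov y) f -
      cc (pf ρ y (r + 1) (ZQ ρ b r Z cov y) (piQ ρ b r Z cov y) G) := rfl
  have d5 := d1.trans d2
  unfold DD at d5
  unfold EE
  omega

end Pool.Agent.Lib.MP_5e1226_co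
end

-- part Pool.Agent.Lib.MP_5e1226_co.Batch3
section

/-!
Processing one vertex: the batch inequality.
-/

set_option linter.unusedSectionVars false

namespace Pool.Agent.Lib.MP_5e1226_co

open Finset Classical

variable {P : Type} [Lattice P] [Fintype P] {ρ : P → ℕ} {b t y : P} {r : ℕ} {Z cov : P → Prop}

lemma sum_below (T : Finset P) (hT : ∀ Φ ∈ T, Φ ≤ t) (k : ℕ) (B : P → P → ℤ) :
    ∑ Φ ∈ T, ∑ m ∈ lev ρ b Φ k, B m Φ =
      ∑ m ∈ lev ρ b t k, ∑ Φ ∈ T, if m ≤ Φ then B m Φ else 0 := by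
  rw [sum_comm]
  refine sum_congr rfl fun Φ hΦ => ?_
  rw [← sum_filter]
  refine sum_congr ?_ fun _ _ => rfl
  ext m
  simp only [mem_lev, mem_filter]
  exact ⟨fun ⟨a1, a2, a3⟩ => ⟨⟨a1, a2.trans (hT Φ hΦ), a3⟩, a2⟩,
    fun ⟨⟨a1, _, a3⟩, a2⟩ => ⟨a1, a2, a3⟩⟩

lemma sum_join_eq (T : Finset P) (m : P) (c : Prop) (B : P → ℤ) :
    (∑ Φ ∈ T, if m ≤ Φ then (if c ∧ m ⊔ y = Φ then B Φ else 0) else 0) =
      if c ∧ m ⊔ y ∈ T then B (m ⊔ y) else 0 := by
  have : ∀ Φ ∈ T, (if m ≤ Φ then (if c ∧ m ⊔ y = Φ then B Φ else 0) else 0) =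
      if m ⊔ y = Φ then (if c then B Φ else 0) else 0 := by
    intro Φ _
    by_cases h1 : m ⊔ y = Φ
    · have : m ≤ Φ := h1 ▸ le_sup_left
      simp [h1, this]
    · simp [h1]
  rw [sum_congr rfl this, sum_ite_eq]
  by_cases h1 : c <;> by_cases h2 : m ⊔ y ∈ T <;> simp [h1, h2]

lemma Normal.batch (h : Normal ρ) (hb : ρ b = r) {d : ℤ} (ht : (ρ t : ℤ) = r + d + 1)
    (hd : 4 ≤ d) (hy : y ∈ lev ρ b t (r + 1)) (hZ : Z y) (hv : Valid ρ b t r Z cov)
    (hrec : ∀ Φ, y ≤ Φ → Φ < t → ¬ cov Φ → r + 5 ≤ ρ Φ →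
      0 ≤ DD ρ b Φ r ((ρ Φ : ℤ) - r - 1) (Zb ρ Φ Z cov y) (covb Φ cov y) (fun _ => 0)) :
    DD ρ b t r d (Zb ρ t Z cov y) (covb t cov y) (fun _ => 0) +
      DD ρ y t (r + 1) (d - 1) (ZQ ρ b r Z cov y) cov (piQ ρ b r Z cov y) ≤
      DD ρ b t r d Z cov (fun _ => 0) := by
  have hy' := mem_lev.1 hy
  set T := univ.filter (fun Φ => y ≤ Φ ∧ Φ < t ∧ ¬ cov Φ) with hT
  have hmT : ∀ Φ, Φ ∈ T ↔ y ≤ Φ ∧ Φ < t ∧ ¬ cov Φ := by simp [hT]
  have hTt : ∀ Φ ∈ T, Φ ≤ t := fun Φ hΦ => ((hmT Φ).1 hΦ).2.1.le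
  have hm : ∀ v, Z v → Zb ρ t Z cov y v := fun v hv => Or.inl hv
  have k0 : ∀ Φ ∈ T, OW ρ b r Z cov y Φ + UP ρ b r Z cov y Φ +
      (if ρ Φ = r + 3 then nu ρ y (r + 1) (ZQ ρ b r Z cov y) (piQ ρ b r Z cov y) Φ else 0) +
      (if ρ Φ = r + 4 then w2 ρ y (r + 1) (ZQ ρ b r Z cov y) (piQ ρ b r Z cov y) Φ else 0) ≤
      EE ρ b r Z cov y Φ := by
    intro Φ hΦ
    obtain ⟨a1, a2, a3⟩ := (hmT Φ).1 hΦ
    have hyΦ : y ∈ lev ρ b Φ (r + 1) := by simp [hy'.1, a1, hy'.2.2]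
    have hvΦ := hv.sub a2.le a3
    have l1 := h.grd.le a1
    by_cases c1 : ρ Φ = r + 1
    · have := h.grd.eq a1 (by omega)
      subst this
      rw [if_neg (by omega), if_neg (by omega)]
      simpa using h.level0 (cov := cov) hy'.1 c1 hZ
    by_cases c2 : ρ Φ = r + 2
    · rw [if_neg (by omega), if_neg (by omega)]
      simpa using h.level1 hb hyΦ hZ c2 a3
    by_cases c3 : ρ Φ = r + 3
    · rw [if_pos c3, if_neg (by omega)]
      simpa using h.level2 hb hyΦ hZ c3 hvΦ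
    by_cases c4 : ρ Φ = r + 4
    · rw [if_neg c3, if_pos c4]
      simpa using h.level3 hb hyΦ hZ c4 hvΦ
    · rw [if_neg c3, if_neg c4]
      simpa using h.level_high hb hyΦ hvΦ (hrec Φ a1 a2 a3 (by omega))
  have k0' := sum_le_sum k0
  simp only [sum_add_distrib] at k0'
  have k1 : ∑ Φ ∈ T, EE ρ b r Z cov y Φ =
      (∑ e ∈ lev ρ b t (r + 2), if ¬ cov e ∧ e ⊔ y ∈ T then nu ρ b r Z (fun _ => 0) e else 0) +
      ∑ e ∈ lev ρ b t (r + 3), if ¬ cov e ∧ e ⊔ y ∈ T then w2 ρ b r Z (fun _ => 0) e else 0 := by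
    unfold EE
    rw [sum_add_distrib, sum_below T hTt, sum_below T hTt]
    congr 1
    · refine sum_congr rfl fun m _ => ?_
      convert sum_join_eq T m (¬ cov m) (fun _ => nu ρ b r Z (fun _ => 0) m)
    · refine sum_congr rfl fun m _ => ?_
      convert sum_join_eq T m (¬ cov m) (fun _ => w2 ρ b r Z (fun _ => 0) m)
  have k2 : ∑ Φ ∈ T, OW ρ b r Z cov y Φ = ∑ z ∈ lev ρ b t (r + 1),
      if z ⊔ y ∈ T then cost ((ρ (z ⊔ y) : ℤ) - r - 1) Z cov z else 0 := by
    unfold OW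
    rw [sum_below T hTt]
    refine sum_congr rfl fun m _ => ?_
    have := sum_join_eq (y := y) T m True (fun Φ => cost ((ρ Φ : ℤ) - r - 1) Z cov m)
    simp only [true_and] at this
    convert this
  have k3 : ∑ Φ ∈ T, UP ρ b r Z cov y Φ = ∑ z ∈ lev ρ b t (r + 1), ∑ Φ ∈ T, if z ≤ Φ then
      (if ρ (z ⊔ y) + 1 = ρ Φ ∧ r + 3 ≤ ρ (z ⊔ y) ∧ ¬ PL Z cov y z then 1 else 0) else 0 := by
    unfold UP
    rw [sum_below T hTt]
  have k45 : ∀ (s : ℕ) (B : P → ℤ), s < ρ t → (∑ Φ ∈ T, if ρ Φ = s then B Φ else 0) =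
      ∑ f ∈ lev ρ y t s, if cov f then 0 else B f := by
    intro s B hs
    have : ∀ f ∈ lev ρ y t s, (if cov f then 0 else B f) = if ¬ cov f then B f else 0 := by
      intro f _
      by_cases h1 : cov f <;> simp [h1]
    rw [sum_congr rfl this, ← sum_filter, ← sum_filter]
    refine sum_congr ?_ fun _ _ => rfl
    ext f
    simp only [mem_filter, hmT, mem_lev]
    constructor
    · rintro ⟨⟨a1, a2, a3⟩, a4⟩
      exact ⟨⟨a1, a2.le, a4⟩, a3⟩
    · rintro ⟨⟨a1, a2, a4⟩, a3⟩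
      exact ⟨⟨a1, lt_of_rank (ρ := ρ) a2 (by omega), a3⟩, a4⟩
  rw [k1, k2, k3, k45 _ _ (by omega), k45 _ _ (by omega)] at k0'
  have k6 : ∑ e ∈ lev ρ y t (r + 2), cost (d - 1) (ZQ ρ b r Z cov y) cov e =
      ∑ u ∈ lev ρ b t (r + 1), if ρ (u ⊔ y) = r + 2 then
        (if PL Z cov y u then 0 else if cov (u ⊔ y) then 1 else d - 1) else 0 :=
    h.sum_nbr hb hy _ _ fun e u _ _ _ a4 _ _ _ a8 l1 => by
      unfold cost
      rw [ZQ_iff a4 l1, a8]
  have k7 : ∑ z ∈ lev ρ b t (r + 1), cost d Z cov z ≤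
      ∑ z ∈ lev ρ b t (r + 1), cost d (Zb ρ t Z cov y) (covb t cov y) z +
      (∑ z ∈ lev ρ b t (r + 1),
        if z ⊔ y ∈ T then cost ((ρ (z ⊔ y) : ℤ) - r - 1) Z cov z else 0) +
      (∑ z ∈ lev ρ b t (r + 1), ∑ Φ ∈ T, if z ≤ Φ then
        (if ρ (z ⊔ y) + 1 = ρ Φ ∧ r + 3 ≤ ρ (z ⊔ y) ∧ ¬ PL Z cov y z then 1 else 0) else 0) +
      ∑ u ∈ lev ρ b t (r + 1), if ρ (u ⊔ y) = r + 2 then
        (if PL Z cov y u then 0 else if cov (u ⊔ y) then 1 else d - 1) else 0 := by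
    rw [← sum_add_distrib, ← sum_add_distrib, ← sum_add_distrib]
    refine sum_le_sum fun z hz => ?_
    have hz' := mem_lev.1 hz
    have hU : ∀ U : Finset P, (∀ Φ ∈ U, z ⊔ y ≤ Φ ∧ Φ < t ∧ ¬ cov Φ ∧ ρ (z ⊔ y) + 1 = ρ Φ ∧
        r + 3 ≤ ρ (z ⊔ y) ∧ ¬ PL Z cov y z) → (U.card : ℤ) ≤ ∑ Φ ∈ T, if z ≤ Φ then
        (if ρ (z ⊔ y) + 1 = ρ Φ ∧ r + 3 ≤ ρ (z ⊔ y) ∧ ¬ PL Z cov y z then 1 else 0) else 0 := by
      intro U hU
      refine le_trans ?_ (sum_le_sum_of_subset_of_nonneg (s := U) (fun Φ hΦ => (hmT Φ).2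
        ⟨le_sup_right.trans (hU Φ hΦ).1, (hU Φ hΦ).2.1, (hU Φ hΦ).2.2.1⟩) fun Φ _ _ => by
          positivity)
      rw [card_eq_sum_ones]
      push_cast
      refine sum_le_sum fun Φ hΦ => ?_
      rw [if_pos (le_sup_left.trans (hU Φ hΦ).1), if_pos (hU Φ hΦ).2.2.2]
    have hU0 := hU ∅ (by simp)
    generalize (∑ Φ ∈ T, if z ≤ Φ then
        (if ρ (z ⊔ y) + 1 = ρ Φ ∧ r + 3 ≤ ρ (z ⊔ y) ∧ ¬ PL Z cov y z then (1 : ℤ) else 0)
        else 0) = X at hU hU0
    simp only [card_empty, Nat.cast_zero] at hU0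
    by_cases h1 : Z z
    · simp [cost, h1, hm z h1, PL, hU0]
    have hne : z ≠ y := by rintro rfl; exact h1 hZ
    have l1 := h.grd.level (by omega : ρ z = ρ y) hne
    have l2 : z ⊔ y ≤ t := sup_le hz'.2.1 hy'.2.1
    by_cases h2 : z ⊔ y = t
    · have e1 : ¬ Zb ρ t Z cov y z := by
        unfold Zb
        rw [h2]
        simp [h1]
      have e2 : covb t cov y z ↔ cov z := by
        unfold covb
        rw [h2]
        simp
      have e3 : z ⊔ y ∉ T := by
        rw [hmT, h2]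
        simp
      have e4 : ρ (z ⊔ y) ≠ r + 2 := by
        rw [h2]
        omega
      simp [cost, h1, e1, e2, e3, e4, hU0]
    have l3 : z ⊔ y < t := lt_of_le_of_ne l2 h2
    have l4 := h.grd.lt l3
    have e2 : covb t cov y z := Or.inr l3
    have e3 : z ⊔ y ∈ T ↔ ¬ cov (z ⊔ y) := by
      rw [hmT]
      simp [l3]
    have e5 : PL Z cov y z ↔ cov z ∧ ¬ cov (z ⊔ y) := by simp [PL, h1]
    have e6 := hv.down z (z ⊔ y) le_sup_left
    by_cases h3 : ρ (z ⊔ y) + 2 ≤ ρ t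
    · have e1 : Zb ρ t Z cov y z := Or.inr (Or.inl h3)
      by_cases h4 : ρ (z ⊔ y) = r + 2
      · by_cases h5 : cov (z ⊔ y)
        · simp [cost, h1, e1, e3, e5, h4, h5, e6 h5, hU0]
        · by_cases h6 : cov z
          · simp [cost, h1, e1, e3, e5, h4, h5, h6, hU0]
          · simp [cost, h1, e1, e3, e5, h4, h5, h6]
            omega
      · by_cases h5 : cov (z ⊔ y)
        · obtain ⟨Φ, c1, c2, c3, c4⟩ := hv.exists_uncov h hz h1 le_sup_left l2 h5
          have := hU {Φ} (by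
            intro Φ' hΦ'
            rw [mem_singleton.1 hΦ']
            exact ⟨c1, lt_of_rank (ρ := ρ) c2 (by omega), c4, c3.symm, by omega, by simp [e5, h5]⟩)
          simp only [card_singleton, Nat.cast_one] at this
          simp [cost, h1, e1, e3, h4, h5, e6 h5, this]
        · by_cases h6 : cov z
          · simp [cost, h1, e1, e3, h4, h5, h6, hU0]
          · have := hU (lev ρ (z ⊔ y) t (ρ (z ⊔ y) + 1)) (by
              intro Φ hΦ
              rw [mem_lev] at hΦ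
              exact ⟨hΦ.1, lt_of_rank (ρ := ρ) hΦ.2.1 (by omega),
                fun c => h6 (hv.down _ _ (le_sup_left.trans hΦ.1) c), hΦ.2.2.symm, by omega,
                by simp [e5, h6]⟩)
            have c2 := h.card_atoms l2 (r := ρ (z ⊔ y) + 1) (n := ρ t - ρ (z ⊔ y)) rfl (by omega)
            simp [cost, h1, e1, e3, h4, h5, h6]
            omega
    · have h4 : ρ (z ⊔ y) ≠ r + 2 := by omega
      have e1 : Zb ρ t Z cov y z ↔ cov z ∧ ¬ cov (z ⊔ y) := by
        have : ρ (z ⊔ y) + 1 = ρ t := by omega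
        simp [Zb, h1, h3, this]
      by_cases h5 : cov (z ⊔ y)
      · simp [cost, h1, e1, e2, e3, h4, h5, e6 h5, hU0]
      · by_cases h6 : cov z
        · simp [cost, h1, e1, e3, h4, h5, h6, hU0]
        · simp [cost, h1, e1, e2, e3, h4, h5, h6]
          omega
  have hcT : ∀ x, x ≤ t → ¬ cov x → (x ⊔ y ∈ T ↔ covb t cov y x) := by
    intro x a1 a2
    rw [hmT]
    unfold covb
    exact ⟨fun c => Or.inr c.2.1, fun c =>
      ⟨le_sup_right, c.resolve_left a2, fun c2 => a2 (hv.down _ _ le_sup_left c2)⟩⟩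
  have k8 : (∑ e ∈ lev ρ b t (r + 2),
      if covb t cov y e then 0 else nu ρ b r (Zb ρ t Z cov y) (fun _ => 0) e) +
      (∑ e ∈ lev ρ b t (r + 2), if ¬ cov e ∧ e ⊔ y ∈ T then nu ρ b r Z (fun _ => 0) e else 0) ≤
      ∑ e ∈ lev ρ b t (r + 2), if cov e then 0 else nu ρ b r Z (fun _ => 0) e := by
    rw [← sum_add_distrib]
    refine sum_le_sum fun e he => ?_
    rw [mem_lev] at he
    have := h.nu_mono hb hm (fun _ => 0) he.1 he.2.2
    by_cases h1 : cov e
    · simp [h1, covb]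
    · by_cases h2 : covb t cov y e <;> simp [h1, h2, hcT e he.2.1 h1, this]
  have k9 : (∑ e ∈ lev ρ b t (r + 3),
      if covb t cov y e then 0 else w2 ρ b r (Zb ρ t Z cov y) (fun _ => 0) e) +
      (∑ e ∈ lev ρ b t (r + 3), if ¬ cov e ∧ e ⊔ y ∈ T then w2 ρ b r Z (fun _ => 0) e else 0) ≤
      ∑ e ∈ lev ρ b t (r + 3), if cov e then 0 else w2 ρ b r Z (fun _ => 0) e := by
    rw [← sum_add_distrib]
    refine sum_le_sum fun e he => ?_
    rw [mem_lev] at he
    have := h.w2_mono hb hm (fun _ => 0) he.2.2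
    by_cases h1 : cov e
    · simp [h1, covb]
    · by_cases h2 : covb t cov y e <;> simp [h1, h2, hcT e he.2.1 h1, this]
  have k10 : DD ρ y t (r + 1) (d - 1) (ZQ ρ b r Z cov y) cov (piQ ρ b r Z cov y) =
      (∑ f ∈ lev ρ y t (r + 3),
        if cov f then 0 else nu ρ y (r + 1) (ZQ ρ b r Z cov y) (piQ ρ b r Z cov y) f) +
      (∑ f ∈ lev ρ y t (r + 4),
        if cov f then 0 else w2 ρ y (r + 1) (ZQ ρ b r Z cov y) (piQ ρ b r Z cov y) f) -
      ∑ e ∈ lev ρ y t (r + 2), cost (d - 1) (ZQ ρ b r Z cov y) cov e := rfl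
  rw [k10, k6]
  unfold DD
  omega

end Pool.Agent.Lib.MP_5e1226_co
end
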