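import Mathlib

/-!
Definitions for the toric g-polynomial of a graded poset and for Gorenstein* posets.
-/

namespace Pool.Agent.Lib.MP_5e1226_co

open Finset Polynomial

/-- `ρ` is the rank function of a graded poset with minimum: `ρ ⊥ = 0` and `ρ` goes up by one
along every covering relation. -/
structure IsRank {P : Type} [PartialOrder P] [OrderBot P] (ρ : P → ℕ) : Prop where
  bot : ρ ⊥ = 0
  cov : ∀ a b : P, a ⋖ b → ρ b = ρ a + 1

/-- From `f = ∑ f_i x^i` and `n ≥ 1`, the polynomial `∑_{i ≤ (n-1)/2} (f_i - f_{i-1}) x^i`,
with `f_{-1} = 0`. -/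
noncomputable def gOf (n : ℕ) (f : ℤ[X]) : ℤ[X] :=
  ∑ i ∈ range ((n - 1) / 2 + 1), C (f.coeff i - if i = 0 then 0 else f.coeff (i - 1)) * X ^ i

open Classical in
/-- `toricG ρ t` is the toric g-polynomial of the lower interval `[⊥, t]`: it is `1` in rank `0`,
and otherwise it is `gOf n f` for `n = ρ t` and
`f = ∑_{s < t} g([⊥, s]) (x - 1)^(n - 1 - ρ s)` (the toric h-polynomial of `[⊥, t]`). -/
noncomputable def toricG {P : Type} [PartialOrder P] [Fintype P] (ρ : P → ℕ) (t : P) : ℤ[X] :=
  if ρ t = 0 then 1
  else gOf (ρ t) (∑ s : {s : P // s < t}, toricG ρ s.1 * (X - 1) ^ (ρ t - 1 - ρ s.1))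
termination_by (univ.filter (fun x : P => x < t)).card
decreasing_by
  apply Finset.card_lt_card
  refine ⟨fun x hx => ?_, fun h => ?_⟩
  · simp only [mem_filter, mem_univ, true_and] at hx ⊢
    exact hx.trans s.2
  · have h1 : s.1 ∈ univ.filter (fun x : P => x < t) := by
      simp only [mem_filter, mem_univ, true_and]
      exact s.2
    have h2 := h h1
    simp only [mem_filter, mem_univ, true_and, lt_self_iff_false] at h2

/-- The order complex of `P` minus its minimum and maximum: the faces are the finite chains
that avoid `⊥` and `⊤` (the empty chain included). -/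
def orderCx (P : Type) [PartialOrder P] [BoundedOrder P] : Set (Finset P) :=
  {σ | IsChain (· ≤ ·) (σ : Set P) ∧ ⊥ ∉ σ ∧ ⊤ ∉ σ}

/-- The link of the face `F` in the simplicial complex `K`. -/
def link {P : Type} [DecidableEq P] (K : Set (Finset P)) (F : Finset P) : Set (Finset P) :=
  {G | G ∈ K ∧ Disjoint G F ∧ G ∪ F ∈ K}

/-- Simplicial chains of `K` with coefficients in `k` supported on the faces with `j` vertices
(chains of dimension `j - 1`; `j = 0` is the augmentation term). -/
def chains (k : Type) [Field k] {P : Type} (K : Set (Finset P)) (j : ℕ) :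
    Submodule k (Finset P → k) where
  carrier := {c | ∀ σ, c σ ≠ 0 → σ ∈ K ∧ σ.card = j}
  add_mem' := by
    intro a b ha hb σ h
    by_cases h1 : a σ = 0
    · apply hb σ
      intro h2
      apply h
      simp [h1, h2]
    · exact ha σ h1
  zero_mem' := by
    intro σ h
    exact absurd rfl h
  smul_mem' := by
    intro r a ha σ h
    apply ha σ
    intro h2
    apply h
    simp [h2]

open Classical in
/-- The simplicial boundary map; a face (a chain of `P`) is oriented by the order of `P`, so that
`∂ [x_0 < ... < x_m] = ∑ (-1)^i [x_0 < ... < x_m with x_i omitted]`. -/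
noncomputable def bdry (k : Type) [Field k] (P : Type) [PartialOrder P] [Fintype P]
    [DecidableEq P] : (Finset P → k) →ₗ[k] (Finset P → k) where
  toFun c τ := ∑ x ∈ τᶜ, (-1) ^ (τ.filter (fun y => y < x)).card * c (insert x τ)
  map_add' a b := by
    funext τ
    simp only [Pi.add_apply, mul_add, sum_add_distrib]
  map_smul' r a := by
    funext τ
    simp only [Pi.smul_apply, smul_eq_mul, RingHom.id_apply, mul_sum]
    exact sum_congr rfl fun x _ => by ring

/-- Cycles of `K` on faces with `j` vertices. -/
noncomputable def cycles (k : Type) [Field k] {P : Type} [PartialOrder P] [Fintype P]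
    [DecidableEq P] (K : Set (Finset P)) (j : ℕ) : Submodule k (Finset P → k) :=
  chains k K j ⊓ LinearMap.ker (bdry k P)

/-- Boundaries of `K` on faces with `j` vertices. -/
noncomputable def boundaries (k : Type) [Field k] {P : Type} [PartialOrder P] [Fintype P]
    [DecidableEq P] (K : Set (Finset P)) (j : ℕ) : Submodule k (Finset P → k) :=
  (chains k K (j + 1)).map (bdry k P)

/-- `redH k K j` is the reduced simplicial homology of `K` over `k` in dimension `j - 1`. -/
abbrev redH (k : Type) [Field k] {P : Type} [PartialOrder P] [Fintype P]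
    [DecidableEq P] (K : Set (Finset P)) (j : ℕ) : Type :=
  (cycles k K j) ⧸ (boundaries k K j).submoduleOf (cycles k K j)

/-- `K` has dimension `D - 1` for some `D`, its reduced homology over `k` vanishes below that
dimension and is isomorphic to `k` in that dimension. -/
def HasSphereHomology (k : Type) [Field k] {P : Type} [PartialOrder P] [Fintype P]
    [DecidableEq P] (K : Set (Finset P)) : Prop :=
  ∃ D : ℕ, (∀ σ ∈ K, σ.card ≤ D) ∧ (∃ σ ∈ K, σ.card = D) ∧
    (∀ j < D, Subsingleton (redH k K j)) ∧ Nonempty (redH k K D ≃ₗ[k] k)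

/-- `P` is Gorenstein* over `k`: the order complex of `P` minus its minimum and maximum is a
homology sphere over `k`, that is, the link of every face (the empty face included) has the
reduced homology of a sphere of its own dimension. -/
def GorensteinStar (k : Type) [Field k] (P : Type) [PartialOrder P] [BoundedOrder P] [Fintype P]
    [DecidableEq P] : Prop :=
  ∀ F ∈ orderCx P, HasSphereHomology k (link (orderCx P) F)

end Pool.Agent.Lib.MP_5e1226_co
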