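import Pool.Agent.Lib.MP_5e1226_co.Defs

/-!
Euler characteristic and connectedness of complexes of chains with the homology of a sphere.
-/

set_option linter.unusedSectionVars false

namespace Pool.Agent.Lib.MP_5e1226_co

open Finset

variable {k : Type} [Field k] {P : Type} [PartialOrder P] [Fintype P] [DecidableEq P]

open Classical in
noncomputable def sg (k : Type) [Field k] {P : Type} [PartialOrder P] (τ : Finset P) (x : P) : k :=
  (-1) ^ (τ.filter (fun y => y < x)).card

lemma bdry_apply (c : Finset P → k) (τ : Finset P) :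
    bdry k P c τ = ∑ x ∈ τᶜ, sg k τ x * c (insert x τ) := rfl

lemma mem_chains {K : Set (Finset P)} {j : ℕ} {c : Finset P → k} :
    c ∈ chains k K j ↔ ∀ σ, c σ ≠ 0 → σ ∈ K ∧ σ.card = j := Iff.rfl

open Classical in
lemma sg_insert {τ : Finset P} {x : P} (hx : x ∉ τ) (y : P) :
    sg k (insert x τ) y = (if x < y then -1 else 1) * sg k τ y := by
  unfold sg
  rw [filter_insert]
  split_ifs with h
  · rw [card_insert_of_notMem (by simp [hx]), pow_succ]
    ring
  · simp

lemma bdry_bdry {c : Finset P → k} (hc : ∀ σ, c σ ≠ 0 → IsChain (· ≤ ·) (σ : Set P)) :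
    bdry k P (bdry k P c) = 0 := by
  classical
  funext τ
  rw [bdry_apply, Pi.zero_apply]
  simp only [bdry_apply, mul_sum]
  rw [sum_sigma']
  refine sum_involution (fun p _ => ⟨p.2, p.1⟩) ?_ ?_ ?_ ?_
  · rintro ⟨x, y⟩ hp
    simp only [mem_sigma, mem_compl, mem_insert, not_or] at hp
    obtain ⟨hx, hyx, hy⟩ := hp
    simp only
    rw [sg_insert hx, sg_insert hy, Finset.insert_comm x y]
    by_cases h0 : c (insert y (insert x τ)) = 0
    · simp [h0]
    · have := (hc _ h0) (x := x) (by simp) (y := y) (by simp) (Ne.symm hyx)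
      rcases this with h1 | h1
      · have h2 : x < y := lt_of_le_of_ne h1 (Ne.symm hyx)
        rw [if_pos h2, if_neg h2.asymm]
        ring
      · have h2 : y < x := lt_of_le_of_ne h1 hyx
        rw [if_pos h2, if_neg h2.asymm]
        ring
  · rintro ⟨x, y⟩ hp _ h
    simp only [mem_sigma, mem_compl, mem_insert, not_or] at hp
    exact hp.2.1 (congrArg Sigma.fst h)
  · rintro ⟨x, y⟩ hp
    simp only [mem_sigma, mem_compl, mem_insert, not_or] at hp ⊢
    exact ⟨hp.2.2, Ne.symm hp.2.1, hp.1⟩
  · rintro ⟨x, y⟩ _
    rfl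

lemma bdry_mem {K : Set (Finset P)} (hK : ∀ σ ∈ K, ∀ τ, τ ⊆ σ → τ ∈ K) {j : ℕ}
    {c : Finset P → k} (hc : c ∈ chains k K (j + 1)) : bdry k P c ∈ chains k K j := by
  intro τ h
  rw [bdry_apply] at h
  obtain ⟨x, hx, h2⟩ := exists_ne_zero_of_sum_ne_zero h
  obtain ⟨a1, a2⟩ := hc _ (right_ne_zero_of_mul h2)
  rw [card_insert_of_notMem (mem_compl.1 hx)] at a2
  exact ⟨hK _ a1 _ (subset_insert _ _), by omega⟩

open Classical in
lemma finrank_chains (K : Set (Finset P)) (j : ℕ) :
    Module.finrank k (chains k K j) = (univ.filter (fun σ : Finset P => σ ∈ K ∧ σ.card = j)).card := by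
  let e : chains k K j ≃ₗ[k] ({σ : Finset P // σ ∈ K ∧ σ.card = j} → k) :=
    { toFun := fun c σ => c.1 σ.1
      map_add' := fun _ _ => rfl
      map_smul' := fun _ _ => rfl
      invFun := fun g => ⟨fun σ => if h : σ ∈ K ∧ σ.card = j then g ⟨σ, h⟩ else 0, fun σ h => by
        by_contra h1
        exact h (dif_neg h1)⟩
      left_inv := fun c => by
        apply Subtype.ext
        funext σ
        by_cases h : σ ∈ K ∧ σ.card = j
        · simp [h]
        · simp only [h, dif_neg, not_false_iff]
          by_contra h1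
          exact h (c.2 σ (Ne.symm h1))
      right_inv := fun g => by
        funext σ
        simp [σ.2] }
  rw [e.finrank_eq, Module.finrank_fintype_fun_eq_card, Fintype.card_subtype]

lemma finrank_chains_succ (K : Set (Finset P)) (j : ℕ) :
    Module.finrank k (chains k K (j + 1)) =
      Module.finrank k (cycles k K (j + 1)) + Module.finrank k (boundaries k K j) := by
  have e1 := LinearMap.finrank_range_add_finrank_ker ((bdry k P).domRestrict (chains k K (j + 1)))
  rw [LinearMap.range_domRestrict, LinearMap.ker_domRestrict] at e1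
  have e2 : (LinearMap.ker (bdry k P)).comap (chains k K (j + 1)).subtype =
      (cycles k K (j + 1)).comap (chains k K (j + 1)).subtype := by
    unfold cycles
    rw [Submodule.comap_inf, Submodule.comap_subtype_self, top_inf_eq]
  have e3 : cycles k K (j + 1) ≤ chains k K (j + 1) := inf_le_left
  rw [e2, (Submodule.comapSubtypeEquivOfLe e3).finrank_eq] at e1
  unfold boundaries
  omega

lemma cycles_zero (K : Set (Finset P)) : cycles k K 0 = chains k K 0 := by
  unfold cycles
  rw [inf_eq_left]
  intro c hc
  rw [LinearMap.mem_ker]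
  funext τ
  rw [bdry_apply, Pi.zero_apply]
  refine sum_eq_zero fun x _ => ?_
  by_contra h
  have := (hc _ (right_ne_zero_of_mul h)).2
  rw [card_eq_zero] at this
  exact insert_ne_empty _ _ this

lemma cycles_le_of_subsingleton {K : Set (Finset P)} {j : ℕ} (h : Subsingleton (redH k K j)) :
    cycles k K j ≤ boundaries k K j := by
  intro c hc
  have := Submodule.Quotient.subsingleton_iff.1 h
  have h2 : (⟨c, hc⟩ : cycles k K j) ∈ (boundaries k K j).submoduleOf (cycles k K j) := by
    rw [this]; trivial
  exact h2

open Classical in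
/-- The Euler-Poincare formula for a complex of chains with the homology of a sphere. -/
lemma euler_poincare {K : Set (Finset P)} (hK : ∀ σ ∈ K, ∀ τ, τ ⊆ σ → τ ∈ K)
    (hch : ∀ σ ∈ K, IsChain (· ≤ ·) (σ : Set P)) {D : ℕ} (h1 : ∀ σ ∈ K, σ.card ≤ D)
    (h2 : ∀ j < D, Subsingleton (redH k K j)) (h3 : Nonempty (redH k K D ≃ₗ[k] k)) :
    ∑ σ ∈ univ.filter (fun σ : Finset P => σ ∈ K), (-1 : ℤ) ^ σ.card = (-1) ^ D := by
  have hBZ : ∀ j, boundaries k K j ≤ cycles k K j := by
    rintro j _ ⟨c, hc, rfl⟩
    exact ⟨bdry_mem hK hc, bdry_bdry fun σ h => hch σ (hc σ h).1⟩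
  have key : ∀ j ≤ D, ∑ i ∈ range (j + 1), (-1 : ℤ) ^ i * Module.finrank k (chains k K i) =
      (-1) ^ j * Module.finrank k (cycles k K j) := by
    intro j
    induction j with
    | zero => intro _; rw [cycles_zero]; simp
    | succ j ih =>
      intro hj
      rw [sum_range_succ, ih (by omega), finrank_chains_succ,
        le_antisymm (hBZ j) (cycles_le_of_subsingleton (h2 j (by omega)))]
      push_cast
      ring
  have hB : boundaries k K D = ⊥ := by
    unfold boundaries
    have : chains k K (D + 1) = ⊥ := by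
      rw [eq_bot_iff]
      intro c hc
      rw [Submodule.mem_bot]
      funext σ
      by_contra h
      have a1 := hc σ h
      have := h1 σ a1.1
      omega
    rw [this, Submodule.map_bot]
  have hZ : Module.finrank k (cycles k K D) = 1 := by
    obtain ⟨e⟩ := h3
    have a1 := e.finrank_eq
    have a2 := Submodule.finrank_quotient_add_finrank
      ((boundaries k K D).submoduleOf (cycles k K D))
    have a3 : (boundaries k K D).submoduleOf (cycles k K D) = ⊥ := by
      rw [hB]
      exact Submodule.comap_bot _ |>.trans (Submodule.ker_subtype _)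
    have a4 : Module.finrank k ((boundaries k K D).submoduleOf (cycles k K D)) = 0 := by
      rw [a3]
      exact finrank_bot _ _
    rw [Module.finrank_self] at a1
    unfold redH at a1
    omega
  have := key D le_rfl
  rw [hZ] at this
  simp only [Nat.cast_one, mul_one] at this
  rw [← this, ← sum_fiberwise_of_maps_to (s := univ.filter (fun σ : Finset P => σ ∈ K))
    (t := range (D + 1)) (g := card) (by
      intro σ hσ
      have := h1 σ (mem_filter.1 hσ).2
      simp only [mem_range]
      omega)]
  refine sum_congr rfl fun i _ => ?_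
  rw [finrank_chains, filter_filter, sum_congr rfl (g := fun _ => (-1 : ℤ) ^ i)
    (fun σ hσ => by rw [(mem_filter.1 hσ).2.2])]
  simp [mul_comm]

/-- Vanishing of reduced homology in dimension zero gives connectedness. -/
lemma conn_of_subsingleton {K : Set (Finset P)} (hK : ∀ σ ∈ K, IsChain (· ≤ ·) (σ : Set P))
    (h : Subsingleton (redH k K 1)) (A : P → Prop)
    (hA : ∀ v w, A v → ({w, v} : Finset P) ∈ K → A w) {x y : P} (hx : {x} ∈ K) (hy : {y} ∈ K)
    (hAx : A x) : A y := by
  classical
  by_contra hAy
  have hxy : ({x} : Finset P) ≠ {y} := by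
    intro h1
    rw [singleton_inj] at h1
    subst h1
    exact hAy hAx
  let c : Finset P → k := Pi.single {x} 1 - Pi.single {y} 1
  have hc : c ∈ cycles k K 1 := by
    constructor
    · intro σ hσ
      by_cases h1 : σ = {x}
      · subst h1; exact ⟨hx, rfl⟩
      · by_cases h2 : σ = {y}
        · subst h2; exact ⟨hy, rfl⟩
        · exact absurd (by simp [c, h1, h2]) hσ
    · change bdry k P c = 0
      funext τ
      rw [bdry_apply, Pi.zero_apply]
      by_cases hτ : τ = ∅
      · subst hτ
        simp only [sg, c, filter_empty, card_empty, pow_zero, one_mul, compl_empty,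
          insert_empty_eq, Pi.sub_apply, sum_sub_distrib, Pi.single_apply, singleton_inj]
        simp
      · refine sum_eq_zero fun z hz => ?_
        have key : ∀ w, insert z τ ≠ {w} := by
          intro w h1
          have := congrArg card h1
          rw [card_insert_of_notMem (mem_compl.1 hz), card_singleton] at this
          exact hτ (card_eq_zero.1 (by omega))
        simp [c, key]
  obtain ⟨g, hg, hgc⟩ := cycles_le_of_subsingleton h hc
  have s1 : ∑ v ∈ univ.filter A, c {v} = 1 := by
    simp only [c, Pi.sub_apply, sum_sub_distrib, Pi.single_apply, singleton_inj]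
    simp [hAx, hAy]
  have s2 : ∑ v ∈ univ.filter A, bdry k P g {v} = 0 := by
    simp only [bdry_apply]
    have e1 : ∀ v ∈ univ.filter A, ∑ w ∈ ({v} : Finset P)ᶜ, sg k {v} w * g (insert w {v}) =
        ∑ w ∈ (univ.filter A).erase v, sg k {v} w * g (insert w {v}) := by
      intro v hv
      symm
      refine sum_subset (fun w hw => by simpa using ne_of_mem_erase hw) fun w hw hw2 => ?_
      by_contra h1
      apply hw2
      rw [mem_erase]
      exact ⟨by simpa using hw, mem_filter.2 ⟨mem_univ _,
        hA v w (mem_filter.1 hv).2 (hg _ (right_ne_zero_of_mul h1)).1⟩⟩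
    rw [sum_congr rfl e1, sum_sigma']
    refine sum_involution (fun p _ => ⟨p.2, p.1⟩) ?_ ?_ ?_ ?_
    · rintro ⟨v, w⟩ hp
      simp only [mem_sigma, mem_erase] at hp
      obtain ⟨-, hwv, -⟩ := hp
      simp only
      have a1 := sg_insert (k := k) (τ := ∅) (x := v) (by simp) w
      have a2 := sg_insert (k := k) (τ := ∅) (x := w) (by simp) v
      simp only [insert_empty_eq] at a1 a2
      rw [a1, a2, pair_comm v w]
      by_cases h0 : g {w, v} = 0
      · simp [h0]
      · have := (hK _ (hg _ h0).1) (x := v) (by simp) (y := w) (by simp) (Ne.symm hwv)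
        simp only [sg, filter_empty, card_empty, pow_zero]
        rcases this with h1 | h1
        · have h2 : v < w := lt_of_le_of_ne h1 (Ne.symm hwv)
          rw [if_pos h2, if_neg h2.asymm]
          ring
        · have h2 : w < v := lt_of_le_of_ne h1 hwv
          rw [if_pos h2, if_neg h2.asymm]
          ring
    · rintro ⟨v, w⟩ hp _ h
      simp only [mem_sigma, mem_erase] at hp
      exact hp.2.1 (congrArg Sigma.fst h)
    · rintro ⟨v, w⟩ hp
      simp only [mem_sigma, mem_erase] at hp ⊢
      exact ⟨hp.2.2, Ne.symm hp.2.1, hp.1⟩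
    · rintro ⟨v, w⟩ _
      rfl
  rw [hgc, s1] at s2
  exact one_ne_zero s2

end Pool.Agent.Lib.MP_5e1226_co
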