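import Pool.Agent.Lib.MP_5e1226_co.Planar3
import Pool.Agent.Lib.MP_5e1226_co.Homology1

-- part Pool.Agent.Lib.MP_5e1226_co.Elim
section

/-!
Pins on edges can be traded for pinned vertices.
-/

set_option linter.unusedSectionVars false

namespace Pool.Agent.Lib.MP_5e1226_co

open Finset Classical

variable {P : Type} [Lattice P] [Fintype P] {ρ : P → ℕ} {b t : P} {r : ℕ} {d : ℤ}

lemma Normal.elim_free (h : Normal ρ) (hb : ρ b = r) (ht : (ρ t : ℤ) = r + d + 1)
    {Z Z' cov : P → Prop} (hv : Valid ρ b t r Z cov) {π π' : P → ℕ} {ε u : P}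
    (hε : ε ∈ lev ρ b t (r + 2)) (hu : u ∈ lev ρ b ε (r + 1)) (hZ : ¬ Z u)
    (hZ' : ∀ v, Z' v ↔ Z v ∨ v = u) (hπ1 : π ε = π' ε + 1) (hπ : ∀ e, e ≠ ε → π' e = π e) :
    DD ρ b t r d Z' cov π' ≤ DD ρ b t r d Z cov π := by
  obtain ⟨hbε, hεt, hεr⟩ := mem_lev.1 hε
  obtain ⟨hbu, huε, hur⟩ := mem_lev.1 hu
  have hut : u ∈ lev ρ b t (r + 1) := by simp [hbu, huε.trans hεt, hur]
  set a : P → ℤ := fun e => (if cov e then 0 else nu ρ b r Z π e) -
    (if cov e then 0 else nu ρ b r Z' π' e) with ha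
  set β : P → ℤ := fun f => (if cov f then 0 else w2 ρ b r Z π f) -
    (if cov f then 0 else w2 ρ b r Z' π' f) with hβ
  have ha1 : ∀ e ∈ lev ρ b t (r + 2), u ≤ e → ¬ cov e → a e = 1 - nk ρ b r Z π e := by
    intro e he hue hc
    rw [mem_lev] at he
    obtain ⟨w, b1, b2, b3, b4, l1⟩ := h.edge_other hb hbu hue hur he.2.2
    simp only [ha, hc, if_false, nu]
    rw [nz_pair b1 l1, nz_pair b1 l1, nk_pair (Z := Z') l1]
    by_cases h1 : Z w
    · simp [hZ', hZ, b1, h1]
    · simp [hZ', hZ, b1, h1]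
      ring
  have ha2 : ∀ e ∈ lev ρ b t (r + 2), ¬ u ≤ e → a e = 0 := by
    intro e he hue
    rw [mem_lev] at he
    obtain ⟨v, w, hne, b1, b2, b3, b4, b5, b6, l1⟩ := h.edge_ends hb he.1 he.2.2
    have e1 : v ≠ u := by rintro rfl; exact hue b2
    have e2 : w ≠ u := by rintro rfl; exact hue b5
    have e3 : e ≠ ε := by rintro rfl; exact hue huε
    simp only [ha, nu]
    rw [nz_pair hne l1, nz_pair hne l1, nk_pair l1, nk_pair l1, hπ e e3]
    simp [hZ', e1, e2]
  have ha0 : ∀ e ∈ lev ρ b t (r + 2), 0 ≤ a e := by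
    intro e he
    by_cases hc : cov e
    · simp [ha, hc]
    · by_cases hue : u ≤ e
      · rw [ha1 e he hue hc]
        have := nk_le_one (ρ := ρ) (b := b) (r := r) Z π e
        omega
      · rw [ha2 e he hue]
  have hnkε : nk ρ b r Z π ε = 0 := by
    unfold nk Naked
    rw [if_neg]
    rintro ⟨h1, -⟩
    omega
  have hβ1 : ∀ f ∈ lev ρ ε t (r + 3), ¬ cov f →
      β f = ∑ e ∈ lev ρ u f (r + 2), nk ρ b r Z π e := by
    intro f hf hc
    rw [mem_lev] at hf
    simp only [hβ, hc, if_false, w2]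
    rw [sum_nk_add (Z := Z) (π := π) (π' := π') hZ' hbu hur (fun e _ hue => hπ e (by
      rintro rfl; exact hue huε))]
    have hp : pf ρ b r Z' π' f = pf ρ b r Z π f := by
      unfold pf
      rw [sum_ind_add hZ' (by simp [hbu, huε.trans hf.1, hur]) hZ]
      have hεf : ε ∈ lev ρ b f (r + 2) := by simp [hbε, hf.1, hεr]
      rw [← add_sum_erase _ _ hεf, ← add_sum_erase _ π hεf, hπ1,
        sum_congr rfl fun e he => hπ e (ne_of_mem_erase he)]
      ring
    rw [hp]
    ring
  have hβ0 : ∀ f ∈ lev ρ b t (r + 3), 0 ≤ β f := by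
    intro f hf
    rw [mem_lev] at hf
    by_cases hc : cov f
    · simp [hβ, hc]
    · by_cases hεf : ε ≤ f
      · rw [hβ1 f (by simp [hεf, hf.2.1, hf.2.2]) hc]
        exact sum_nonneg fun e _ => nk_nonneg Z π e
      · have hπf : ∀ e ∈ lev ρ b f (r + 2), π' e = π e := fun e he => hπ e (by
          rintro rfl; exact hεf (mem_lev.1 he).2.1)
        by_cases huf : u ≤ f
        · have := h.w2_add hb hZ' hbu huf hur hf.2.2 hZ hπf
          simp only [hβ, hc, if_false]
          omega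
        · have e1 : w2 ρ b r Z' π' f = w2 ρ b r Z π' f := w2_congr fun v hv => by
            have : v ≠ u := by rintro rfl; exact huf (mem_lev.1 hv).2.1
            simp [hZ', this]
          have e2 : w2 ρ b r Z π' f = w2 ρ b r Z π f := by
            unfold w2 pf
            rw [sum_congr rfl hπf]
            congr 1
            refine sum_congr rfl fun e he => ?_
            unfold nk Naked
            rw [hπf e he]
          simp only [hβ, hc, if_false]
          omega
  have hoth : ∀ f ∈ lev ρ ε t (r + 3), ∃ e, e ≠ ε ∧ u ≤ e ∧ e ≤ f ∧ ρ e = r + 2 ∧ ε ⊔ e = f := by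
    intro f hf
    rw [mem_lev] at hf
    obtain ⟨e, b1, b2, b3, b4, -⟩ := h.other huε hf.1 (by omega) (by omega)
    exact ⟨e, b1, b2, b3, by omega, h.grd.sup_eq b1.symm hf.1 b3 b4.symm (by omega)⟩
  choose! g hg using hoth
  have key : ∀ U : Finset P, U ⊆ lev ρ ε t (r + 3) → (∀ f ∈ U, ¬ cov f ∧ ¬ cov (g f)) →
      a ε + U.card ≤ ∑ e ∈ lev ρ b t (r + 2), a e + ∑ f ∈ lev ρ b t (r + 3), β f := by
    intro U hU hc
    have hgE : ∀ f ∈ U, g f ∈ lev ρ b t (r + 2) := by
      intro f hf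
      obtain ⟨-, b2, b3, b4, -⟩ := hg f (hU hf)
      simp [hbu.trans b2, b3.trans (mem_lev.1 (hU hf)).2.1, b4]
    have hinj : Set.InjOn g U := by
      intro f hf f' hf' he
      rw [← (hg f (hU hf)).2.2.2.2, ← (hg f' (hU hf')).2.2.2.2, he]
    have s1 : a ε + ∑ f ∈ U, a (g f) ≤ ∑ e ∈ lev ρ b t (r + 2), a e := by
      rw [← sum_image hinj, ← sum_insert (by
        simp only [mem_image, not_exists, not_and]
        intro f hf he
        exact (hg f (hU hf)).1 he)]
      refine sum_le_sum_of_subset_of_nonneg ?_ fun e he _ => ha0 e he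
      intro e he
      rcases mem_insert.1 he with rfl | he
      · exact hε
      · obtain ⟨f, hf, rfl⟩ := mem_image.1 he
        exact hgE f hf
    have s2 : ∑ f ∈ U, β f ≤ ∑ f ∈ lev ρ b t (r + 3), β f := by
      refine sum_le_sum_of_subset_of_nonneg ?_ fun f hf _ => hβ0 f hf
      intro f hf
      have := mem_lev.1 (hU hf)
      simp [hbε.trans this.1, this.2.1, this.2.2]
    have s3 : (U.card : ℤ) ≤ ∑ f ∈ U, a (g f) + ∑ f ∈ U, β f := by
      rw [← sum_add_distrib, card_eq_sum_ones]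
      push_cast
      refine sum_le_sum fun f hf => ?_
      obtain ⟨b1, b2, b3, b4, -⟩ := hg f (hU hf)
      rw [ha1 _ (hgE f hf) b2 (hc f hf).2, hβ1 f (hU hf) (hc f hf).1]
      have := single_le_sum (f := fun e => nk ρ b r Z π e) (s := lev ρ u f (r + 2))
        (fun e _ => nk_nonneg Z π e) (a := g f) (by simp [b2, b3, b4])
      omega
    omega
  have hcost : ∑ z ∈ lev ρ b t (r + 1), cost d Z cov z =
      ∑ z ∈ lev ρ b t (r + 1), cost d Z' cov z + cost d Z cov u := by
    rw [← add_sum_erase _ _ hut, ← add_sum_erase _ (cost d Z' cov) hut]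
    have e1 : cost d Z' cov u = 0 := by simp [cost, hZ']
    have e2 : ∑ z ∈ (lev ρ b t (r + 1)).erase u, cost d Z' cov z =
        ∑ z ∈ (lev ρ b t (r + 1)).erase u, cost d Z cov z := sum_congr rfl fun z hz => by
      simp [cost, hZ', ne_of_mem_erase hz]
    rw [e1, e2]
    ring
  have fin : cost d Z cov u ≤
      ∑ e ∈ lev ρ b t (r + 2), a e + ∑ f ∈ lev ρ b t (r + 3), β f := by
    by_cases hcu : cov u
    · have e1 : cost d Z cov u = 1 := by simp [cost, hZ, hcu]
      rw [e1]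
      by_cases hcε : cov ε
      · obtain ⟨f, b1, b2, b3, b4⟩ := hv.exists_uncov h hut hZ huε hεt hcε
        have hf : f ∈ lev ρ ε t (r + 3) := by simp [b1, b2]; omega
        have := key {f} (by simpa using hf) (by
          intro f' hf'
          rw [mem_singleton.1 hf']
          refine ⟨b4, fun h1 => b4 ?_⟩
          obtain ⟨-, c2, c3, -, c5⟩ := hg f hf
          rw [← c5]
          exact hv.join u hut hZ _ _ huε c2 hεt (c3.trans b2) hcε h1)
        have := ha0 ε hε
        simp only [card_singleton] at *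
        omega
      · have := key ∅ (empty_subset _) (by simp)
        rw [ha1 ε hε huε hcε, hnkε] at this
        simpa using this
    · have e1 : cost d Z cov u = d := by simp [cost, hZ, hcu]
      have hn : ∀ x, u ≤ x → ¬ cov x := fun x hx h1 => hcu (hv.down _ _ hx h1)
      have := key (lev ρ ε t (r + 3)) subset_rfl fun f hf =>
        ⟨hn f (huε.trans (mem_lev.1 hf).1), hn _ (hg f hf).2.1⟩
      rw [ha1 ε hε huε (hn ε huε), hnkε] at this
      have hle := h.grd.le hεt
      have h3 := h.card_atoms hεt (r := r + 3) (n := ρ t - (r + 2)) (by omega) (by omega)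
      omega
  unfold DD
  rw [hcost]
  simp only [ha, hβ, sum_sub_distrib] at fin
  omega

lemma Normal.elim_pinned (h : Normal ρ) (hb : ρ b = r)
    {Z cov : P → Prop} {π π' : P → ℕ} {ε : P}
    (hε : ε ∈ lev ρ b t (r + 2)) (hZ : ∀ u ∈ lev ρ b ε (r + 1), Z u)
    (hπ : ∀ e, e ≠ ε → π' e = π e) :
    DD ρ b t r d Z cov π' = DD ρ b t r d Z cov π := by
  obtain ⟨hbε, hεt, hεr⟩ := mem_lev.1 hε
  obtain ⟨u, w, hne, b1, b2, b3, b4, b5, b6, l1⟩ := h.edge_ends hb hbε hεr
  have hu : Z u := hZ u (by simp [b1, b2, b3])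
  have hw : Z w := hZ w (by simp [b4, b5, b6])
  have hnk : ∀ e, nk ρ b r Z π' e = nk ρ b r Z π e := by
    intro e
    by_cases he : e = ε
    · subst he
      rw [nk_pair l1, nk_pair l1]
      simp [hu]
    · unfold nk Naked
      rw [hπ e he]
  unfold DD
  congr 2
  · refine sum_congr rfl fun e _ => ?_
    unfold nu
    rw [hnk]
  · refine sum_congr rfl fun f hf => ?_
    unfold w2
    simp only [hnk]
    congr 2
    by_cases hεf : ε ≤ f
    · have : ∀ q : P → ℕ, 2 ≤ pf ρ b r Z q f := by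
        intro q
        unfold pf
        have a1 : ∑ v ∈ ({u, w} : Finset P), (if Z v then 1 else 0) ≤
            ∑ v ∈ lev ρ b f (r + 1), if Z v then 1 else 0 :=
          sum_le_sum_of_subset (by
            rw [← l1]
            intro x hx
            rw [mem_lev] at hx ⊢
            exact ⟨hx.1, hx.2.1.trans hεf, hx.2.2⟩)
        rw [sum_pair hne.symm] at a1
        simp only [hu, hw, if_true] at a1
        omega
      rw [cc_of_two_le (this π), cc_of_two_le (this π')]
    · unfold pf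
      rw [sum_congr rfl fun e he => hπ e (by rintro rfl; exact hεf (mem_lev.1 he).2.1)]

lemma DD_congr_pins {Z cov : P → Prop} {π π' : P → ℕ}
    (hπ : ∀ e ∈ lev ρ b t (r + 2), π' e = π e) :
    DD ρ b t r d Z cov π' = DD ρ b t r d Z cov π := by
  have hnk : ∀ e ∈ lev ρ b t (r + 2), nk ρ b r Z π' e = nk ρ b r Z π e := by
    intro e he
    unfold nk Naked
    rw [hπ e he]
  unfold DD
  congr 2
  · refine sum_congr rfl fun e he => ?_
    unfold nu
    rw [hnk e he]
  · refine sum_congr rfl fun f hf => ?_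
    have hs : ∀ e ∈ lev ρ b f (r + 2), e ∈ lev ρ b t (r + 2) := by
      intro e he
      rw [mem_lev] at he hf ⊢
      exact ⟨he.1, he.2.1.trans hf.2.1, he.2.2⟩
    unfold w2 pf
    rw [sum_congr rfl fun e he => hnk e (hs e he), sum_congr rfl fun e he => hπ e (hs e he)]

/-- Every state with pins dominates a state without pins and with more pinned vertices. -/
lemma Normal.elim (h : Normal ρ) (hb : ρ b = r) (ht : (ρ t : ℤ) = r + d + 1)
    {cov : P → Prop} : ∀ (n : ℕ) (Z : P → Prop) (π : P → ℕ), Valid ρ b t r Z cov →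
      ∑ e ∈ lev ρ b t (r + 2), π e = n →
      ∃ Z' : P → Prop, (∀ v, Z v → Z' v) ∧
        DD ρ b t r d Z' cov (fun _ => 0) ≤ DD ρ b t r d Z cov π := by
  intro n
  induction n with
  | zero =>
    intro Z π _ hs
    refine ⟨Z, fun _ h => h, le_of_eq (DD_congr_pins fun e he => ?_)⟩
    exact ((sum_eq_zero_iff.1 hs) e he).symm
  | succ n ih =>
    intro Z π hv hs
    obtain ⟨ε, hε, hπε⟩ := exists_ne_zero_of_sum_ne_zero (s := lev ρ b t (r + 2)) (f := π)
      (by omega)
    have hπ : ∀ e, e ≠ ε → Function.update π ε (π ε - 1) e = π e := fun e he =>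
      Function.update_of_ne he _ _
    have hπ1 : π ε = Function.update π ε (π ε - 1) ε + 1 := by
      rw [Function.update_self]; omega
    have hs' : ∑ e ∈ lev ρ b t (r + 2), Function.update π ε (π ε - 1) e = n := by
      rw [← add_sum_erase _ _ hε] at hs ⊢
      have e1 : ∑ e ∈ (lev ρ b t (r + 2)).erase ε, Function.update π ε (π ε - 1) e =
          ∑ e ∈ (lev ρ b t (r + 2)).erase ε, π e :=
        sum_congr rfl fun e he => hπ e (ne_of_mem_erase he)
      omega
    by_cases hZ : ∀ u ∈ lev ρ b ε (r + 1), Z u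
    · obtain ⟨Z', h1, h2⟩ := ih Z _ hv hs'
      exact ⟨Z', h1, h2.trans (h.elim_pinned hb hε hZ hπ).le⟩
    · push Not at hZ
      obtain ⟨u, hu, hZu⟩ := hZ
      obtain ⟨Z', h1, h2⟩ := ih (fun v => Z v ∨ v = u) _ (hv.mono fun v h => Or.inl h) hs'
      exact ⟨Z', fun v h => h1 v (Or.inl h),
        h2.trans (h.elim_free hb ht hv hε hu hZu (fun _ => Iff.rfl) hπ1 hπ)⟩

end Pool.Agent.Lib.MP_5e1226_co
end

-- part Pool.Agent.Lib.MP_5e1226_co.Homology2
section

/-!
Gorenstein* posets are Eulerian, and their intervals are connected.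
-/

set_option linter.unusedSectionVars false

namespace Pool.Agent.Lib.MP_5e1226_co

open Finset

variable {k : Type} [Field k] {P : Type} [PartialOrder P] [Fintype P] [DecidableEq P] {ρ : P → ℕ}

/-- The order complex of the open interval `(a, c)`. -/
def openCx (a c : P) : Set (Finset P) :=
  {σ | IsChain (· ≤ ·) (σ : Set P) ∧ ∀ x ∈ σ, a < x ∧ x < c}

lemma GorensteinStar.interval [BoundedOrder P] (h : GorensteinStar k P) {a c : P} (hac : a ≤ c) :
    HasSphereHomology k (openCx a c) := by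
  classical
  obtain ⟨M, hM, hsub⟩ := (IsChain.pair (r := (· ≤ ·)) hac).exists_maxChain
  have haM : a ∈ M := hsub (by simp)
  have hcM : c ∈ M := hsub (by simp)
  have tot : ∀ x ∈ M, ∀ y ∈ M, x ≤ y ∨ y ≤ x := fun x hx y hy => hM.1.total hx hy
  let F : Finset P := univ.filter (fun x => x ∈ M ∧ x ≠ ⊥ ∧ x ≠ ⊤ ∧ (x ≤ a ∨ c ≤ x))
  have hF : ∀ x, x ∈ F ↔ x ∈ M ∧ x ≠ ⊥ ∧ x ≠ ⊤ ∧ (x ≤ a ∨ c ≤ x) := by simp [F]
  have hFK : F ∈ orderCx P :=
    ⟨hM.1.mono fun x hx => ((hF x).1 hx).1, by simp [hF], by simp [hF]⟩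
  have := h F hFK
  have e : link (orderCx P) F = openCx a c := by
    ext G
    constructor
    · rintro ⟨⟨g1, g2, g3⟩, hd, g4, -, -⟩
      refine ⟨g1, fun x hx => ?_⟩
      have hx0 : x ≠ ⊥ := by rintro rfl; exact g2 hx
      have hx1 : x ≠ ⊤ := by rintro rfl; exact g3 hx
      have hxF : x ∉ F := disjoint_left.1 hd hx
      have cmp : ∀ m ∈ M, (m ≤ a ∨ c ≤ m) → x ≤ m ∨ m ≤ x := by
        intro m hm hm2
        by_cases h0 : m = ⊥
        · subst h0; exact Or.inr bot_le
        by_cases h1 : m = ⊤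
        · subst h1; exact Or.inl le_top
        exact g4.total (by simp [hx]) (by simp [hF, hm, h0, h1, hm2])
      have key : (x ≤ a ∨ c ≤ x) → False := by
        intro h2
        apply hxF
        rw [hF]
        refine ⟨?_, hx0, hx1, h2⟩
        have : IsChain (· ≤ ·) (insert x M) := by
          refine hM.1.insert fun m hm _ => ?_
          rcases h2 with h2 | h2
          · rcases tot m hm a haM with h3 | h3
            · exact cmp m hm (Or.inl h3)
            · exact Or.inl (h2.trans h3)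
          · rcases tot m hm c hcM with h3 | h3
            · exact Or.inr (h3.trans h2)
            · exact cmp m hm (Or.inr h3)
        rw [hM.2 this (Set.subset_insert _ _)]
        exact Set.mem_insert _ _
      constructor
      · rcases cmp a haM (Or.inl le_rfl) with h2 | h2
        · exact (key (Or.inl h2)).elim
        · exact lt_of_le_of_ne h2 fun h3 => key (Or.inl h3.ge)
      · rcases cmp c hcM (Or.inr le_rfl) with h2 | h2
        · exact lt_of_le_of_ne h2 fun h3 => key (Or.inr h3.ge)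
        · exact (key (Or.inr h2)).elim
    · rintro ⟨g1, g2⟩
      have g3 : ⊥ ∉ G := fun h1 => not_lt_bot (g2 _ h1).1
      have g4 : ⊤ ∉ G := fun h1 => not_top_lt (g2 _ h1).2
      refine ⟨⟨g1, g3, g4⟩, disjoint_left.2 fun x hx hxF => ?_, ?_, by simp [g3, hF], by simp [g4, hF]⟩
      · rcases ((hF x).1 hxF).2.2.2 with h1 | h1
        · exact (g2 x hx).1.not_ge h1
        · exact (g2 x hx).2.not_ge h1
      · have cmp : ∀ x ∈ G, ∀ m ∈ F, x ≤ m ∨ m ≤ x := by
          intro x hx m hm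
          rcases ((hF m).1 hm).2.2.2 with h1 | h1
          · exact Or.inr (h1.trans (g2 x hx).1.le)
          · exact Or.inl ((g2 x hx).2.le.trans h1)
        intro x hx y hy _
        simp only [coe_union, Set.mem_union, mem_coe] at hx hy
        rcases hx with hx | hx <;> rcases hy with hy | hy
        · exact g1.total hx hy
        · exact cmp x hx y hy
        · exact (cmp y hy x hx).symm
        · exact tot x ((hF x).1 hx).1 y ((hF y).1 hy).1
  rwa [e] at this

lemma Grd.card_le (h : Grd ρ) {a c : P} {σ : Finset P} (hσ : σ ∈ openCx a c) :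
    σ.card ≤ ρ c - ρ a - 1 := by
  have := card_le_card_of_injOn (s := σ) (t := Ioo (ρ a) (ρ c)) ρ (by
    intro x hx
    simp only [coe_Ioo, Set.mem_Ioo]
    exact ⟨h.lt (hσ.2 x hx).1, h.lt (hσ.2 x hx).2⟩) (by
    intro x hx y hy hxy
    rcases hσ.1.total hx hy with h1 | h1
    · exact h.eq h1 hxy.ge
    · exact (h.eq h1 hxy.le).symm)
  simpa using this

lemma insert_mem_openCx {a c x : P} {σ : Finset P} (hσ : σ ∈ openCx a x) (hax : a < x)
    (hxc : x < c) : insert x σ ∈ openCx a c := by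
  constructor
  · rw [coe_insert]
    exact hσ.1.insert fun m hm _ => Or.inr (hσ.2 m hm).2.le
  · intro y hy
    rcases mem_insert.1 hy with rfl | hy
    · exact ⟨hax, hxc⟩
    · exact ⟨(hσ.2 y hy).1, (hσ.2 y hy).2.trans hxc⟩

lemma Grd.exists_card (h : Grd ρ) {a : P} : ∀ (n : ℕ) {c : P}, a ≤ c → ρ c = ρ a + n + 1 →
    ∃ σ ∈ openCx a c, σ.card = n := by
  intro n
  induction n with
  | zero => exact fun _ _ => ⟨∅, ⟨by simp, by simp⟩, rfl⟩
  | succ n ih =>
    intro c hac hc
    obtain ⟨x, x1, x2, x3⟩ := h.exists_mid hac (r := ρ a + n + 1) (by omega) (by omega)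
    obtain ⟨σ, h1, h2⟩ := ih x1 x3
    refine ⟨insert x σ, insert_mem_openCx h1 (lt_of_rank (ρ := ρ) x1 (by omega))
      (lt_of_rank (ρ := ρ) x2 (by omega)), ?_⟩
    rw [card_insert_of_notMem fun h3 => lt_irrefl _ (h1.2 x h3).2, h2]

lemma Grd.sphere (h : Grd ρ) {a c : P} (hac : a < c) (hs : HasSphereHomology k (openCx a c)) :
    (∀ j < ρ c - ρ a - 1, Subsingleton (redH k (openCx a c) j)) ∧
      Nonempty (redH k (openCx a c) (ρ c - ρ a - 1) ≃ₗ[k] k) := by
  obtain ⟨D, h1, ⟨σ, h2, h3⟩, h4, h5⟩ := hs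
  have l1 := h.lt hac
  obtain ⟨τ, t1, t2⟩ := h.exists_card (ρ c - ρ a - 1) hac.le (by omega)
  have a1 := h1 τ t1
  have a2 := h.card_le h2
  have : D = ρ c - ρ a - 1 := by omega
  subst this
  exact ⟨h4, h5⟩

open Classical in
lemma sum_openCx (a c : P) :
    ∑ σ ∈ univ.filter (fun σ : Finset P => σ ∈ openCx a c), (-1 : ℤ) ^ σ.card =
      1 - ∑ x ∈ univ.filter (fun x => a < x ∧ x < c),
        ∑ σ ∈ univ.filter (fun σ : Finset P => σ ∈ openCx a x), (-1 : ℤ) ^ σ.card := by
  have h0 : (∅ : Finset P) ∈ univ.filter (fun σ : Finset P => σ ∈ openCx a c) := by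
    exact mem_filter.2 ⟨mem_univ _, by simp, by simp⟩
  rw [← add_sum_erase _ _ h0, card_empty, pow_zero, sub_eq_add_neg, sum_sigma', ← sum_neg_distrib]
  congr 1
  symm
  refine sum_bij (fun p _ => insert p.1 p.2) ?_ ?_ ?_ ?_
  · rintro ⟨x, σ⟩ hp
    simp only [mem_sigma, mem_filter, mem_univ, true_and] at hp
    simp only [mem_erase, mem_filter, mem_univ, true_and]
    exact ⟨insert_ne_empty _ _, insert_mem_openCx hp.2 hp.1.1 hp.1.2⟩
  · rintro ⟨x, σ⟩ hp ⟨y, τ⟩ hq he
    simp only [mem_sigma, mem_filter, mem_univ, true_and] at hp hq he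
    have hxy : x = y := by
      have a1 : x ∈ insert y τ := he ▸ mem_insert_self x σ
      have a2 : y ∈ insert x σ := he.symm ▸ mem_insert_self y τ
      rcases mem_insert.1 a1 with h1 | h1
      · exact h1
      rcases mem_insert.1 a2 with h2 | h2
      · exact h2.symm
      exact absurd (hp.2.2 y h2).2 (hq.2.2 x h1).2.asymm
    subst hxy
    have n1 : x ∉ σ := fun h3 => lt_irrefl _ (hp.2.2 x h3).2
    have n2 : x ∉ τ := fun h3 => lt_irrefl _ (hq.2.2 x h3).2
    have : σ = τ := by rw [← erase_insert n1, he, erase_insert n2]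
    rw [this]
  · intro σ hσ
    simp only [mem_erase, mem_filter, mem_univ, true_and] at hσ
    obtain ⟨x, hx⟩ := σ.exists_maximal (nonempty_iff_ne_empty.2 hσ.1)
    refine ⟨⟨x, σ.erase x⟩, ?_, insert_erase hx.1⟩
    simp only [mem_sigma, mem_filter, mem_univ, true_and]
    refine ⟨hσ.2.2 x hx.1, hσ.2.1.mono (by simp), fun y hy => ?_⟩
    have hy' := mem_of_mem_erase hy
    refine ⟨(hσ.2.2 y hy').1, lt_of_le_of_ne ?_ (ne_of_mem_erase hy)⟩
    rcases hσ.2.1.total hy' hx.1 with h1 | h1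
    · exact h1
    · exact hx.2 hy' h1
  · rintro ⟨x, σ⟩ hp
    simp only [mem_sigma, mem_filter, mem_univ, true_and] at hp
    rw [card_insert_of_notMem fun h3 => lt_irrefl _ (hp.2.2 x h3).2, pow_succ]
    ring

open Classical in
/-- Every nontrivial interval has as many elements of even rank as of odd rank. -/
def Eulerian (ρ : P → ℕ) : Prop :=
  ∀ a c : P, a < c → ∑ x ∈ univ.filter (fun x => a ≤ x ∧ x ≤ c), (-1 : ℤ) ^ ρ x = 0

lemma GorensteinStar.eulerian [BoundedOrder P] (hG : GorensteinStar k P) (h : Grd ρ) :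
    Eulerian ρ := by
  classical
  have key : ∀ a c : P, a < c →
      ∑ σ ∈ univ.filter (fun σ : Finset P => σ ∈ openCx a c), (-1 : ℤ) ^ σ.card =
        - ((-1) ^ ρ a * (-1) ^ ρ c) := by
    intro a c hac
    obtain ⟨h1, h2⟩ := h.sphere hac (hG.interval hac.le)
    have := euler_poincare (k := k) (K := openCx a c)
      (fun σ hσ τ hτ => ⟨hσ.1.mono (by simpa using hτ), fun x hx => hσ.2 x (hτ hx)⟩)
      (fun σ hσ => hσ.1) (fun σ hσ => h.card_le hσ) h1 h2
    have l1 := h.lt hac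
    obtain ⟨m, hm⟩ : ∃ m, ρ c = ρ a + m + 1 := ⟨ρ c - ρ a - 1, by omega⟩
    rw [show ρ c - ρ a - 1 = m by omega] at this
    rw [hm, pow_succ, pow_add, ← mul_assoc, ← mul_assoc, ← mul_pow]
    convert this using 1
    simp
  intro a c hac
  have e1 := sum_openCx a c
  have e2 : ∑ x ∈ univ.filter (fun x => a < x ∧ x < c),
      ∑ σ ∈ univ.filter (fun σ : Finset P => σ ∈ openCx a x), (-1 : ℤ) ^ σ.card =
      ∑ x ∈ univ.filter (fun x => a < x ∧ x < c), - ((-1) ^ ρ a * (-1) ^ ρ x) :=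
    sum_congr rfl fun x hx => key a x (mem_filter.1 hx).2.1
  have e3 : univ.filter (fun x => a ≤ x ∧ x ≤ c) =
      insert a (insert c (univ.filter (fun x => a < x ∧ x < c))) := by
    ext x
    simp only [mem_filter, mem_univ, true_and, mem_insert]
    constructor
    · rintro ⟨h1, h2⟩
      rcases h1.lt_or_eq with h1 | h1
      · rcases h2.lt_or_eq with h2 | h2
        · exact Or.inr (Or.inr ⟨h1, h2⟩)
        · exact Or.inr (Or.inl h2)
      · exact Or.inl h1.symm
    · rintro (rfl | rfl | ⟨h1, h2⟩)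
      · exact ⟨le_rfl, hac.le⟩
      · exact ⟨hac.le, le_rfl⟩
      · exact ⟨h1.le, h2.le⟩
  have e4 : (-1 : ℤ) ^ ρ a * (-1) ^ ρ a = 1 := by rw [← mul_pow]; simp
  have e5 := key a c hac
  rw [sum_neg_distrib, ← mul_sum] at e2
  have goal : ∑ x ∈ univ.filter (fun x => a ≤ x ∧ x ≤ c), (-1 : ℤ) ^ ρ x = 0 := by
    rw [e3, sum_insert (by simp [hac.ne]), sum_insert (by simp)]
    have e6 : - ((-1 : ℤ) ^ ρ a * (-1) ^ ρ c) =
        1 + (-1) ^ ρ a * ∑ x ∈ univ.filter (fun x => a < x ∧ x < c), (-1 : ℤ) ^ ρ x := by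
      rw [← e5]
      refine Eq.trans ?_ (e1.trans ?_)
      · congr
      · rw [sub_eq_add_neg]
        congr 1
        rw [neg_eq_iff_eq_neg, ← e2]
    linear_combination (-(-1 : ℤ) ^ ρ a) * e6 + (- (-1) ^ ρ c -
      ∑ x ∈ univ.filter (fun x => a < x ∧ x < c), (-1 : ℤ) ^ ρ x) * e4
  convert goal

lemma Eulerian.dia (hE : Eulerian ρ) (h : Grd ρ) {a c : P} (hac : a ≤ c) (hr : ρ c = ρ a + 2) :
    (lev ρ a c (ρ a + 1)).card = 2 := by
  classical
  have hlt : a < c := lt_of_rank (ρ := ρ) hac (by omega)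
  have e1 := hE a c hlt
  have e3 : univ.filter (fun x => a ≤ x ∧ x ≤ c) = insert a (insert c (lev ρ a c (ρ a + 1))) := by
    ext x
    simp only [mem_filter, mem_univ, true_and, mem_insert, mem_lev]
    constructor
    · rintro ⟨h1, h2⟩
      rcases h1.lt_or_eq with h3 | h3
      · rcases h2.lt_or_eq with h4 | h4
        · have := h.lt h3
          have := h.lt h4
          exact Or.inr (Or.inr ⟨h1, h2, by omega⟩)
        · exact Or.inr (Or.inl h4)
      · exact Or.inl h3.symm
    · rintro (rfl | rfl | ⟨h1, h2, -⟩)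
      · exact ⟨le_rfl, hac⟩
      · exact ⟨hac, le_rfl⟩
      · exact ⟨h1, h2⟩
  have e2 : ∑ x ∈ univ.filter (fun x => a ≤ x ∧ x ≤ c), (-1 : ℤ) ^ ρ x = 0 := by convert e1
  rw [e3, sum_insert (by simp [hlt.ne]), sum_insert (by simp [hr]),
    sum_congr rfl (g := fun _ => (-1 : ℤ) ^ (ρ a + 1)) fun x hx => by rw [(mem_lev.1 hx).2.2],
    sum_const, hr, nsmul_eq_mul] at e2
  have e4 : (-1 : ℤ) ^ ρ a * (-1) ^ ρ a = 1 := by rw [← mul_pow]; simp
  have : ((lev ρ a c (ρ a + 1)).card : ℤ) = 2 := by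
    linear_combination (-(-1 : ℤ) ^ ρ a) * e2 + (2 - ((lev ρ a c (ρ a + 1)).card : ℤ)) * e4
  exact_mod_cast this

lemma GorensteinStar.normal [BoundedOrder P] (hG : GorensteinStar k P) (h : Grd ρ) :
    Normal ρ := by
  refine ⟨h, fun a b hab hr => (hG.eulerian h).dia h hab hr, ?_⟩
  intro a c hac hr A hA x y x1 x2 y1 y2 hAx
  have hlt : a < c := lt_of_rank (ρ := ρ) hac (by omega)
  obtain ⟨h1, -⟩ := h.sphere hlt (hG.interval hac)
  refine conn_of_subsingleton (K := openCx a c) (fun σ hσ => hσ.1) (h1 1 (by omega)) A ?_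
    ⟨by simp, by simp [x1, x2]⟩ ⟨by simp, by simp [y1, y2]⟩ hAx
  intro v w hv hK
  have a1 := hK.2 v (by simp)
  have a2 := hK.2 w (by simp)
  exact hA v w hv a1.1 a1.2 a2.1 a2.2 (hK.1.total (by simp) (by simp))

end Pool.Agent.Lib.MP_5e1226_co
end

-- part Pool.Agent.Lib.MP_5e1226_co.Toric
section

/-!
Symmetry of the toric h-polynomial of an Eulerian poset and the first coefficients of `g`.
-/

set_option linter.unusedSectionVars false

namespace Pool.Agent.Lib.MP_5e1226_co

open Finset Polynomial Classical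

variable {P : Type} [PartialOrder P] [Fintype P] {ρ : P → ℕ}

lemma coeff_gOf (n : ℕ) (f : ℤ[X]) (i : ℕ) : (gOf n f).coeff i =
    if i ≤ (n - 1) / 2 then f.coeff i - (if i = 0 then 0 else f.coeff (i - 1)) else 0 := by
  unfold gOf
  simp only [finsetSum_coeff, coeff_C_mul_X_pow]
  rw [sum_ite_eq]
  simp only [mem_range, Nat.lt_succ_iff]

lemma toricG_coeff_high (t : P) {i : ℕ} (hi : (ρ t - 1) / 2 < i) : (toricG ρ t).coeff i = 0 := by
  rw [toricG]
  split_ifs with h
  · rw [coeff_one, if_neg (by omega)]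
  · rw [coeff_gOf, if_neg (by omega)]

lemma toricG_natDegree (t : P) : (toricG ρ t).natDegree ≤ ρ t :=
  natDegree_le_iff_coeff_eq_zero.2 fun _ hi => toricG_coeff_high t (by omega)

lemma toricG_coeff_low (h : Grd ρ) (t : P) (ht : ρ t ≠ 0) {i : ℕ} (hi : i ≤ (ρ t - 1) / 2) :
    (toricG ρ t).coeff i =
      - (∑ s ∈ univ.filter (fun s => s < t), toricG ρ s * (X - 1) ^ (ρ t - ρ s)).coeff i := by
  have e : ∑ s ∈ univ.filter (fun s => s < t), toricG ρ s * (X - 1) ^ (ρ t - ρ s) =
      (X - 1) * ∑ s : {s : P // s < t}, toricG ρ s.1 * (X - 1) ^ (ρ t - 1 - ρ s.1) := by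
    rw [mul_sum, sum_subtype (univ.filter (fun s => s < t)) (p := fun s => s < t) (by simp)]
    refine sum_congr rfl fun s _ => ?_
    have := h.lt s.2
    rw [show ρ t - ρ s.1 = (ρ t - 1 - ρ s.1) + 1 by omega, pow_succ]
    ring
  rw [e]
  conv_lhs => rw [toricG, if_neg ht, coeff_gOf, if_pos hi]
  rw [sub_mul, one_mul, coeff_sub]
  rcases i with _ | i
  · simp only [coeff_X_mul_zero, if_true]
    ring
  · rw [coeff_X_mul]
    simp only [Nat.add_sub_cancel, Nat.succ_ne_zero, if_false]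
    ring

lemma reflect_sum {ι : Type} (S : Finset ι) (f : ι → ℤ[X]) (N : ℕ) :
    reflect N (∑ i ∈ S, f i) = ∑ i ∈ S, reflect N (f i) := by
  induction S using Finset.induction_on with
  | empty => simp
  | insert a S ha ih => rw [sum_insert ha, sum_insert ha, reflect_add, ih]

lemma natDegree_X_sub_one_pow (m : ℕ) : ((X - 1 : ℤ[X]) ^ m).natDegree ≤ m := by
  refine natDegree_pow_le.trans ?_
  have : (X - 1 : ℤ[X]).natDegree ≤ 1 := by compute_degree
  nlinarith

lemma reflect_X_sub_one_pow (m : ℕ) :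
    reflect m ((X - 1 : ℤ[X]) ^ m) = (-1) ^ m * (X - 1) ^ m := by
  induction m with
  | zero => simp
  | succ m ih =>
    rw [pow_succ, reflect_mul _ _ (natDegree_X_sub_one_pow m) (by compute_degree), ih, reflect_sub,
      reflect_one_X, reflect_one]
    ring

lemma reflect_term {s t : P} (hst : ρ s ≤ ρ t) :
    reflect (ρ t) (toricG ρ s * (X - 1) ^ (ρ t - ρ s)) =
      reflect (ρ s) (toricG ρ s) * ((-1) ^ (ρ t - ρ s) * (X - 1) ^ (ρ t - ρ s)) := by
  rw [← reflect_X_sub_one_pow, ← reflect_mul _ _ (toricG_natDegree s) (natDegree_X_sub_one_pow _)]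
  congr 1
  omega

lemma filter_le_eq (t : P) :
    univ.filter (fun s => s ≤ t) = insert t (univ.filter (fun s => s < t)) := by
  ext s
  simp only [mem_filter, mem_univ, true_and, mem_insert]
  exact le_iff_eq_or_lt

/-- Stanley's symmetry identity. -/
lemma Eulerian.symm (hE : Eulerian ρ) (h : Grd ρ) (t : P) :
    reflect (ρ t) (toricG ρ t) =
      ∑ s ∈ univ.filter (fun s => s ≤ t), toricG ρ s * (X - 1) ^ (ρ t - ρ s) := by
  induction t using (wellFounded_lt (α := P)).induction with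
  | _ t ih =>
    rw [filter_le_eq, sum_insert (by simp), Nat.sub_self, pow_zero, mul_one]
    set Q := ∑ s ∈ univ.filter (fun s => s < t), toricG ρ s * (X - 1) ^ (ρ t - ρ s) with hQ
    by_cases ht : ρ t = 0
    · have : Q = 0 := sum_eq_zero fun s hs => by
        have := h.lt (mem_filter.1 hs).2
        omega
      rw [this, toricG, if_pos ht, ht]
      simp
    have hR : reflect (ρ t) Q = - Q := by
      rw [hQ, reflect_sum]
      have e1 : ∀ s ∈ univ.filter (fun s => s < t),
          reflect (ρ t) (toricG ρ s * (X - 1) ^ (ρ t - ρ s)) =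
          ∑ u ∈ univ.filter (fun u => u ≤ s),
            toricG ρ u * (X - 1) ^ (ρ t - ρ u) * (-1) ^ (ρ t - ρ s) := by
        intro s hs
        have hs' := (mem_filter.1 hs).2
        have l1 := h.lt hs'
        rw [reflect_term l1.le, ih s hs', sum_mul]
        refine sum_congr rfl fun u hu => ?_
        have l2 := h.le (mem_filter.1 hu).2
        rw [show ρ t - ρ u = (ρ s - ρ u) + (ρ t - ρ s) by omega, pow_add]
        ring
      rw [sum_congr rfl e1, sum_comm' (t' := univ.filter (fun s => s < t))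
        (s' := fun u => univ.filter (fun s => u ≤ s ∧ s < t)) (by
          intro s u
          simp only [mem_filter, mem_univ, true_and]
          exact ⟨fun ⟨a1, a2⟩ => ⟨⟨a2, a1⟩, lt_of_le_of_lt a2 a1⟩, fun ⟨⟨a2, a1⟩, _⟩ => ⟨a1, a2⟩⟩),
        ← sum_neg_distrib]
      refine sum_congr rfl fun u hu => ?_
      rw [← mul_sum]
      have hu' := (mem_filter.1 hu).2
      have e2 := hE u t hu'
      have e3 : univ.filter (fun x => u ≤ x ∧ x ≤ t) =
          insert t (univ.filter (fun s => u ≤ s ∧ s < t)) := by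
        ext s
        simp only [mem_filter, mem_univ, true_and, mem_insert]
        constructor
        · rintro ⟨a1, a2⟩
          rcases a2.eq_or_lt with a2 | a2
          · exact Or.inl a2
          · exact Or.inr ⟨a1, a2⟩
        · rintro (rfl | ⟨a1, a2⟩)
          · exact ⟨hu'.le, le_rfl⟩
          · exact ⟨a1, a2.le⟩
      rw [e3, sum_insert (by simp)] at e2
      have e4 : ∑ s ∈ univ.filter (fun s => u ≤ s ∧ s < t), (-1 : ℤ) ^ (ρ t - ρ s) = -1 := by
        have e5 : ∀ s ∈ univ.filter (fun s => u ≤ s ∧ s < t),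
            (-1 : ℤ) ^ (ρ t - ρ s) = (-1) ^ ρ t * (-1) ^ ρ s := by
          intro s hs
          have l1 := h.lt (mem_filter.1 hs).2.2
          rw [← pow_add, show ρ t + ρ s = (ρ t - ρ s) + 2 * ρ s by omega, pow_add, pow_mul]
          simp
        have e6 : (-1 : ℤ) ^ ρ t * (-1) ^ ρ t = 1 := by rw [← mul_pow]; simp
        rw [sum_congr rfl e5, ← mul_sum]
        linear_combination (-1 : ℤ) ^ ρ t * e2 - e6
      have e7 : ∑ s ∈ univ.filter (fun s => u ≤ s ∧ s < t), (-1 : ℤ[X]) ^ (ρ t - ρ s) = -1 := by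
        have := congrArg (fun z : ℤ => (z : ℤ[X])) e4
        push_cast at this
        exact this
      rw [e7]
      ring
    have hA : ∀ i ≤ ρ t, Q.coeff (ρ t - i) = - Q.coeff i := by
      intro i hi
      have := congrArg (fun p => p.coeff i) hR
      simpa only [coeff_reflect, revAt_le hi, coeff_neg] using this
    ext i
    rw [coeff_reflect, coeff_add]
    by_cases hi : i ≤ ρ t
    · rw [revAt_le hi]
      have a1 := hA i hi
      by_cases h1 : i ≤ (ρ t - 1) / 2
      · rw [toricG_coeff_low h t ht h1, toricG_coeff_high t (by omega), ← hQ]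
        ring
      · rw [toricG_coeff_high t (not_le.1 h1)]
        by_cases h2 : ρ t - i ≤ (ρ t - 1) / 2
        · rw [toricG_coeff_low h t ht h2, ← hQ, a1]
          ring
        · rw [toricG_coeff_high t (not_le.1 h2)]
          rw [show ρ t - i = i by omega] at a1
          omega
    · have := congrArg (fun p => p.coeff i) hR
      simp only [coeff_reflect, revAt_eq_self_of_lt (not_le.1 hi), coeff_neg] at this
      rw [revAt_eq_self_of_lt (not_le.1 hi)]
      omega

lemma Eulerian.dual (hE : Eulerian ρ) (h : Grd ρ) (t : P) :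
    toricG ρ t = ∑ s ∈ univ.filter (fun s => s ≤ t),
      reflect (ρ s) (toricG ρ s) * ((-1) ^ (ρ t - ρ s) * (X - 1) ^ (ρ t - ρ s)) := by
  rw [← reflect_reflect (N := ρ t) (p := toricG ρ t), hE.symm h t, reflect_sum]
  exact sum_congr rfl fun s hs => reflect_term (h.le (mem_filter.1 hs).2)

lemma coeff_alt (m i : ℕ) :
    ((-1 : ℤ[X]) ^ m * (X - 1) ^ m).coeff i = (-1) ^ i * (m.choose i : ℤ) := by
  have e1 : (-1 : ℤ[X]) ^ m = C ((-1) ^ m) := by simp
  have e2 : (X - 1 : ℤ[X]) = X + C (-1) := by simp [sub_eq_add_neg]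
  rw [e1, e2, coeff_C_mul, coeff_X_add_C_pow]
  by_cases h : i ≤ m
  · rw [← mul_assoc, ← pow_add, show m + (m - i) = i + 2 * (m - i) by omega, pow_add, pow_mul]
    simp
  · rw [Nat.choose_eq_zero_of_lt (not_le.1 h)]
    simp

lemma coeff_refl (s : P) (j : ℕ) : (reflect (ρ s) (toricG ρ s)).coeff j =
    if j ≤ ρ s then (toricG ρ s).coeff (ρ s - j) else 0 := by
  rw [coeff_reflect]
  split_ifs with h
  · rw [revAt_le h]
  · rw [revAt_eq_self_of_lt (not_le.1 h), toricG_coeff_high s (by omega)]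

lemma coeff_mul_one' (p q : ℤ[X]) :
    (p * q).coeff 1 = p.coeff 0 * q.coeff 1 + p.coeff 1 * q.coeff 0 := by
  rw [coeff_mul, Nat.sum_antidiagonal_eq_sum_range_succ_mk]
  simp [sum_range_succ]

lemma coeff_mul_two' (p q : ℤ[X]) :
    (p * q).coeff 2 = p.coeff 0 * q.coeff 2 + p.coeff 1 * q.coeff 1 + p.coeff 2 * q.coeff 0 := by
  rw [coeff_mul, Nat.sum_antidiagonal_eq_sum_range_succ_mk]
  simp [sum_range_succ]

variable [OrderBot P]

lemma sum_rank (t : P) (n : ℕ) (g : P → ℤ) :
    (∑ s ∈ univ.filter (fun s => s ≤ t), if ρ s = n then g s else 0) =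
      ∑ s ∈ lev ρ ⊥ t n, g s := by
  rw [← sum_filter]
  refine sum_congr ?_ fun _ _ => rfl
  ext s
  simp

lemma lev_zero (h : Grd ρ) (h0 : ρ ⊥ = 0) (t : P) : lev ρ ⊥ t 0 = {⊥} := by
  ext s
  simp only [mem_lev, bot_le, true_and, mem_singleton]
  constructor
  · rintro ⟨-, h1⟩
    exact (h.eq bot_le (by omega)).symm
  · rintro rfl
    exact ⟨bot_le, h0⟩

lemma toricG_of_zero {s : P} (hs : ρ s = 0) : toricG ρ s = 1 := by rw [toricG, if_pos hs]

lemma refl_zero (s : P) : (reflect (ρ s) (toricG ρ s)).coeff 0 = if ρ s = 0 then 1 else 0 := by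
  rw [coeff_refl, if_pos (Nat.zero_le _)]
  split_ifs with h
  · rw [toricG_of_zero h, h, coeff_one_zero]
  · exact toricG_coeff_high s (by omega)

lemma Eulerian.g0 (hE : Eulerian ρ) (h : Grd ρ) (h0 : ρ ⊥ = 0) (t : P) :
    (toricG ρ t).coeff 0 = 1 := by
  rw [hE.dual h t, finsetSum_coeff]
  simp only [mul_coeff_zero (reflect _ _), coeff_alt, refl_zero]
  simp only [pow_zero, Nat.choose_zero_right, Nat.cast_one, mul_one]
  rw [sum_rank, lev_zero h h0]
  simp

lemma Eulerian.refl_one (hE : Eulerian ρ) (h : Grd ρ) (h0 : ρ ⊥ = 0) (s : P) :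
    (reflect (ρ s) (toricG ρ s)).coeff 1 = if ρ s = 1 then 1 else 0 := by
  rw [coeff_refl]
  split_ifs with h1 h2 h2
  · rw [h2, Nat.sub_self, hE.g0 h h0]
  · exact toricG_coeff_high s (by omega)
  · omega
  · rfl

lemma Eulerian.g1 (hE : Eulerian ρ) (h : Grd ρ) (h0 : ρ ⊥ = 0) (t : P) :
    (toricG ρ t).coeff 1 = (lev ρ ⊥ t 1).card - ρ t := by
  rw [hE.dual h t, finsetSum_coeff]
  have : ∀ s ∈ univ.filter (fun s => s ≤ t),
      (reflect (ρ s) (toricG ρ s) * ((-1) ^ (ρ t - ρ s) * (X - 1) ^ (ρ t - ρ s))).coeff 1 =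
        (if ρ s = 1 then 1 else 0) - (if ρ s = 0 then (ρ t : ℤ) else 0) := by
    intro s _
    rw [coeff_mul_one']
    simp only [coeff_alt, refl_zero, hE.refl_one h h0]
    by_cases h1 : ρ s = 0
    · simp [h1]
    · simp [h1]
  rw [sum_congr rfl this, sum_sub_distrib, sum_rank, sum_rank, lev_zero h h0]
  simp

lemma Eulerian.refl_two (hE : Eulerian ρ) (h : Grd ρ) (h0 : ρ ⊥ = 0) (s : P) :
    (reflect (ρ s) (toricG ρ s)).coeff 2 = (if ρ s = 2 then 1 else 0) +
      if ρ s = 3 then ((lev ρ ⊥ s 1).card : ℤ) - 3 else 0 := by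
  rw [coeff_refl]
  by_cases h1 : ρ s = 2
  · simp [h1, hE.g0 h h0]
  by_cases h2 : ρ s = 3
  · simp [h2, hE.g1 h h0]
  · simp only [h1, h2, if_false, add_zero]
    split_ifs with h3
    · exact toricG_coeff_high s (by omega)
    · rfl

lemma Eulerian.g2 (hE : Eulerian ρ) (h : Grd ρ) (h0 : ρ ⊥ = 0) (t : P) (ht : 1 ≤ ρ t) :
    (toricG ρ t).coeff 2 = ((ρ t).choose 2 : ℤ) - ((ρ t : ℤ) - 1) * (lev ρ ⊥ t 1).card +
      (lev ρ ⊥ t 2).card + ∑ s ∈ lev ρ ⊥ t 3, (((lev ρ ⊥ s 1).card : ℤ) - 3) := by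
  rw [hE.dual h t, finsetSum_coeff]
  have : ∀ s ∈ univ.filter (fun s => s ≤ t),
      (reflect (ρ s) (toricG ρ s) * ((-1) ^ (ρ t - ρ s) * (X - 1) ^ (ρ t - ρ s))).coeff 2 =
        (if ρ s = 0 then ((ρ t).choose 2 : ℤ) else 0) - (if ρ s = 1 then (ρ t : ℤ) - 1 else 0) +
        (if ρ s = 2 then 1 else 0) + if ρ s = 3 then ((lev ρ ⊥ s 1).card : ℤ) - 3 else 0 := by
    intro s _
    rw [coeff_mul_two']
    simp only [coeff_alt, refl_zero, hE.refl_one h h0, hE.refl_two h h0]
    by_cases h1 : ρ s = 0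
    · simp [h1]
    · by_cases h2 : ρ s = 1
      · simp [h2, Nat.cast_sub ht]
      · simp [h1, h2]
  rw [sum_congr rfl this, sum_add_distrib, sum_add_distrib, sum_sub_distrib, sum_rank, sum_rank,
    sum_rank, sum_rank, lev_zero h h0]
  simp only [card_singleton, sum_const, nsmul_eq_mul, Nat.cast_one]
  ring

end Pool.Agent.Lib.MP_5e1226_co
end
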