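import Pool.Agent.Lib.MP_5e1226_co.Batch3
import Pool.Agent.Lib.MP_5e1226_co.Toric

-- part Pool.Agent.Lib.MP_5e1226_co.Main
section

/-!
The lower bound inequality for graded lattices with the diamond property and connected intervals.
-/

set_option linter.unusedSectionVars false

namespace Pool.Agent.Lib.MP_5e1226_co

open Finset Classical

variable {P : Type} [Lattice P] [Fintype P] {ρ : P → ℕ}

def Proc (t : P) (cov : P → Prop) (x : P) : Prop := ∀ σ, σ ≤ t → σ ⊔ x < t → cov σ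

lemma Proc.pinned (h : Normal ρ) {b t x z e : P} {r : ℕ} {Z cov : P → Prop}
    (hv : Valid ρ b t r Z cov) (hx : Proc t cov x) (hz : z ∈ lev ρ b t (r + 1)) (hze : z ≤ e)
    (hxe : x ≤ e) (het : e ≤ t) (hr : ρ e + 2 ≤ ρ t) : Z z := by
  by_contra hZ
  obtain ⟨F, F', hne, a1, a2, a3, a4, a5, a6⟩ := h.two_coatoms het hr
  have c1 : cov F := hx F a2 (by
    rw [sup_eq_left.2 (hxe.trans a1)]; exact lt_of_rank (ρ := ρ) a2 (by omega))
  have c2 : cov F' := hx F' a4 (by
    rw [sup_eq_left.2 (hxe.trans a3)]; exact lt_of_rank (ρ := ρ) a4 (by omega))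
  have := hv.join z hz hZ F F' (hze.trans a1) (hze.trans a3) a2 a4 c1 c2
  rw [h.grd.sup_eq hne a2 a4 (by omega) (by omega)] at this
  exact hv.top this

lemma Normal.proc_base (h : Normal ρ) {b t x : P} {r : ℕ} {Z cov : P → Prop} (hb : ρ b = r)
    (ht : ρ t = r + 4) (hv : Valid ρ b t r Z cov) (hx : x ∈ lev ρ b t (r + 1))
    (hp : Proc t cov x) : 0 ≤ DD ρ b t r 3 Z cov (fun _ => 0) := by
  have hx' := mem_lev.1 hx
  have z0 : Z x := hp.pinned h hv hx le_rfl le_rfl hx'.2.1 (by omega)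
  have d1 := h.planar hb ht _ Z rfl ⟨x, mem_flt.2 ⟨hx, z0⟩⟩
  have d2 := h.planar_cov hb ht hv
  obtain ⟨f, f1, f2, f3⟩ := h.grd.exists_mid hx'.2.1 (r := r + 3) (by omega) (by omega)
  obtain ⟨e1, e2, hne, a1, a2, a3, a4, a5, a6, -⟩ := h.corner f1 hx'.2.2 f3
  obtain ⟨w1, b1, b2, b3, b4, -⟩ := h.edge_other hb hx'.1 a1 hx'.2.2 a3
  obtain ⟨w2, c1, c2, c3, c4, -⟩ := h.edge_other hb hx'.1 a4 hx'.2.2 a6
  have hw : w1 ≠ w2 := by
    rintro rfl
    apply hne
    rw [← h.grd.sup_eq b1 b3 a1 (by omega) (by omega), ← h.grd.sup_eq b1 c3 a4 (by omega) (by omega)]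
  have m1 : w1 ∈ lev ρ b t (r + 1) := by simp [b2, b3.trans (a2.trans f2), b4]
  have m2 : w2 ∈ lev ρ b t (r + 1) := by simp [c2, c3.trans (a5.trans f2), c4]
  have z1 : Z w1 := hp.pinned h hv m1 b3 a1 (a2.trans f2) (by omega)
  have z2 : Z w2 := hp.pinned h hv m2 c3 a4 (a5.trans f2) (by omega)
  have : 2 < (flt (lev ρ b t (r + 1)) Z).card :=
    two_lt_card_iff.2 ⟨x, w1, w2, mem_flt.2 ⟨hx, z0⟩, mem_flt.2 ⟨m1, z1⟩, mem_flt.2 ⟨m2, z2⟩,
      b1.symm, c1.symm, hw⟩
  rw [cc_of_two_le (by omega)] at d1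
  omega

lemma Normal.proc_nonneg (h : Normal ρ) : ∀ (n : ℕ) {b t x : P} {r : ℕ} {Z cov : P → Prop},
    ρ b = r → ρ t = r + n + 4 → Valid ρ b t r Z cov → x ∈ lev ρ b t (r + 1) → Proc t cov x →
    0 ≤ DD ρ b t r ((n : ℤ) + 3) Z cov (fun _ => 0) := by
  intro n
  induction n using Nat.strong_induction_on with
  | _ n ih =>
    intro b t x r Z cov hb ht hv hx hp
    rcases n with _ | n
    · simpa using h.proc_base hb ht hv hx hp
    have hx' := mem_lev.1 hx
    have inner : ∀ (m : ℕ) (Z cov : P → Prop),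
        (flt (lev ρ b t (r + 1)) (fun v => ¬ Proc t cov v)).card = m → Valid ρ b t r Z cov →
        Proc t cov x → 0 ≤ DD ρ b t r (((n + 1 : ℕ) : ℤ) + 3) Z cov (fun _ => 0) := by
      intro m
      induction m using Nat.strong_induction_on with
      | _ m ihm =>
        intro Z cov hm hv hp
        by_cases hall : ∀ u y e, Proc t cov u → b ≤ u → b ≤ y → u ≤ e → y ≤ e → e ≤ t →
            ρ u = ρ b + 1 → ρ y = ρ b + 1 → ρ e = ρ b + 2 → Proc t cov y
        · refine h.DD_nonneg_of_all hb fun v hv' => ?_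
          have hv2 := mem_lev.1 hv'
          have := h.graph_conn (Proc t cov) (n + 5) (hx'.1.trans hx'.2.1) (by omega) hall x v
            hx'.1 hv2.1 hx'.2.1 hv2.2.1 (by omega) (by omega) hp
          exact this.pinned h hv hv' le_rfl le_rfl hv2.2.1 (by omega)
        push Not at hall
        obtain ⟨u, y, e, a1, a2, a3, a4, a5, a6, a7, a8, a9, a10⟩ := hall
        have hy : y ∈ lev ρ b t (r + 1) := by simp [a3, a5.trans a6]; omega
        have hZy : Z y := a1.pinned h hv hy a5 a4 a6 (by omega)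
        have k1 := h.batch hb (d := ((n + 1 : ℕ) : ℤ) + 3) (by push_cast; omega) (by omega) hy hZy hv
          (by
            intro Φ b1 b2 b3 b4
            have l1 := h.grd.lt b2
            have := ih (ρ Φ - r - 4) (by omega) (b := b) (t := Φ) (x := y) hb (by omega)
              ((hv.sub b2.le b3).batch h b1) (by simp [a3, b1]; omega) fun σ _ c => Or.inr c
            rwa [show ((ρ Φ - r - 4 : ℕ) : ℤ) + 3 = (ρ Φ : ℤ) - r - 1 by omega] at this)
        have k2 := ihm _ (by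
          rw [← hm]
          apply card_lt_card
          refine ⟨fun v hv => ?_, fun h1 => ?_⟩
          · rw [mem_flt] at hv ⊢
            exact ⟨hv.1, fun c => hv.2 fun σ c1 c2 => Or.inl (c σ c1 c2)⟩
          · exact (mem_flt.1 (h1 (mem_flt.2 ⟨hy, a10⟩))).2 fun σ _ c => Or.inr c)
          (Zb ρ t Z cov y) (covb t cov y) rfl (hv.batch h (a5.trans a6))
          fun σ c1 c2 => Or.inl (hp σ c1 c2)
        have hq := hv.quot h hb hy
        obtain ⟨Z', c1, c2⟩ := h.elim (b := y) (t := t) (r := r + 1)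
          (d := ((n + 1 : ℕ) : ℤ) + 3 - 1) (by omega) (by push_cast; omega) _ _
          (piQ ρ b r Z cov y) hq rfl
        have k3 := ih n (by omega) (b := y) (t := t) (x := e) (r := r + 1) (by omega) (by omega)
          (hq.mono c1) (by simp [a5, a6]; omega)
          fun σ d1 d2 => a1 σ d1 (lt_of_le_of_lt (sup_le_sup_left a4 σ) d2)
        rw [show (n : ℤ) + 3 = ((n + 1 : ℕ) : ℤ) + 3 - 1 by push_cast; ring] at k3
        omega
    exact inner _ Z cov rfl hv hp

lemma Normal.empty_bound (h : Normal ρ) : ∀ (n : ℕ) {b t : P} {r : ℕ}, b ≤ t →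
    ρ b = r → ρ t = r + n + 4 →
    - (((n : ℤ) + 4) * (n + 3)) ≤
      2 * DD ρ b t r ((n : ℤ) + 3) (fun _ => False) (fun _ => False) (fun _ => 0) := by
  intro n
  induction n with
  | zero =>
    intro b t r hbt hb ht
    obtain ⟨y, y1, y2, y3⟩ := h.grd.exists_mid hbt (r := r + 1) (by omega) (by omega)
    have hy : y ∈ lev ρ b t (r + 1) := by simp [y1, y2, y3]
    rw [h.DD_pin_first hb hy]
    have d1 := h.planar hb ht _ (fun v => v = y) rfl ⟨y, mem_flt.2 ⟨hy, rfl⟩⟩
    have d2 := cc_anti (Nat.zero_le ((flt (lev ρ b t (r + 1)) (fun v => v = y)).card - 1))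
    have d3 : cc 0 = 3 := rfl
    simp only [Nat.cast_zero, zero_add]
    omega
  | succ n ih =>
    intro b t r hbt hb ht
    obtain ⟨y, y1, y2, y3⟩ := h.grd.exists_mid hbt (r := r + 1) (by omega) (by omega)
    have hy : y ∈ lev ρ b t (r + 1) := by simp [y1, y2, y3]
    rw [h.DD_pin_first hb hy]
    have hv : ∀ Φ, Valid ρ b Φ r (fun v => v = y) (fun _ => False) := fun Φ =>
      ⟨fun _ _ _ c => c, fun _ _ _ _ _ _ _ _ _ c _ => c, fun c => c⟩
    have k1 := h.batch hb (d := ((n + 1 : ℕ) : ℤ) + 3) (by push_cast; omega) (by omega) hy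
      (Z := fun v => v = y) rfl (hv t) (by
        intro Φ b1 b2 b3 b4
        have := h.proc_nonneg (ρ Φ - r - 4) (b := b) (t := Φ) (x := y) hb (by omega)
          ((hv Φ).batch h b1) (by simp [y1, b1, y3]) fun σ _ c => Or.inr c
        rwa [show ((ρ Φ - r - 4 : ℕ) : ℤ) + 3 = (ρ Φ : ℤ) - r - 1 by omega] at this)
    have k2 := h.proc_nonneg (n + 1) (b := b) (t := t) (x := y) hb ht
      ((hv t).batch h y2) hy fun σ _ c => Or.inr c
    have k3 := ih (b := y) (t := t) (r := r + 1) y2 y3 (by omega)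
    have e1 : ZQ ρ b r (fun v => v = y) (fun _ => False) y = fun _ => False := by
      funext e
      simp [ZQ, PL]
    rw [e1, DD_congr_pins (π := fun _ => 0) (π' := piQ ρ b r (fun v => v = y) (fun _ => False) y)
      (by
        intro f hf
        unfold piQ
        rw [card_eq_zero, eq_empty_iff_forall_notMem]
        intro m hm
        simp only [mem_flt, PL, false_and, or_false] at hm
        obtain ⟨-, c1, rfl⟩ := hm
        rw [sup_idem] at c1
        subst c1
        have := (mem_lev.1 hf).2.2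
        omega), show ((n + 1 : ℕ) : ℤ) + 3 - 1 = (n : ℤ) + 3 by push_cast; ring] at k1
    push_cast at k1 k2 ⊢
    nlinarith

/-- The lower bound inequality `f_1 + ∑ (k - 3) - d f_0 + C(d+1, 2) ≥ 0`. -/
theorem Normal.lbt (h : Normal ρ) {b t : P} {r n : ℕ} (hbt : b ≤ t) (hb : ρ b = r)
    (ht : ρ t = r + n + 4) :
    0 ≤ 2 * (((lev ρ b t (r + 2)).card : ℤ) +
      ∑ f ∈ lev ρ b t (r + 3), (((lev ρ b f (r + 1)).card : ℤ) - 3) -
      (n + 3) * (lev ρ b t (r + 1)).card) + (n + 4) * (n + 3) := by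
  have k := h.empty_bound n hbt hb ht
  have e1 : ∀ e, b ≤ e → ρ e = r + 2 → nu ρ b r (fun _ => False) (fun _ => 0) e = 1 := by
    intro e a1 a2
    obtain ⟨u, w, hne, -, -, -, -, -, -, l1⟩ := h.edge_ends hb a1 a2
    unfold nu
    rw [nz_pair hne l1, nk_pair l1]
    simp
  have e2 : ∀ f ∈ lev ρ b t (r + 3), w2 ρ b r (fun _ => False) (fun _ => 0) f =
      ((lev ρ b f (r + 1)).card : ℤ) - 3 := by
    intro f hf
    rw [mem_lev] at hf
    have a1 := h.w2_add_sum_nu (b := b) (fun _ => False) (fun _ => 0) hf.2.2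
    have a2 : w2 ρ b r (fun _ => False) (fun _ => 0) f =
        ((lev ρ b f (r + 2)).card : ℤ) - 3 := by
      simp [w2, nk, Naked, pf, cc]
    rw [sum_congr rfl fun e he => e1 e (mem_lev.1 he).1 (mem_lev.1 he).2.2] at a1
    simp [nz, pf, cc] at a1
    omega
  unfold DD at k
  simp only [if_false] at k
  rw [sum_congr rfl fun e he => e1 e (mem_lev.1 he).1 (mem_lev.1 he).2.2, sum_congr rfl e2] at k
  simp only [cost, if_false, sum_const, nsmul_eq_mul, mul_one] at k
  linarith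

end Pool.Agent.Lib.MP_5e1226_co
end

-- part Pool.Agent.Lib.MP_5e1226_co.Final
section

/-!
Nonnegativity of `g_0`, `g_1`, `g_2` for Gorenstein* lattices.
-/

namespace Pool.Agent.Lib.MP_5e1226_co

open Finset Polynomial

theorem toricG_low_nonneg {P : Type} [Lattice P] [OrderBot P] [Fintype P] {ρ : P → ℕ}
    (h0 : ρ ⊥ = 0) (hN : Normal ρ) (hE : Eulerian ρ) (t : P) {i : ℕ} (hi : i ≤ 2) :
    0 ≤ (toricG ρ t).coeff i := by
  by_cases hlow : (ρ t - 1) / 2 < i
  · rw [toricG_coeff_high t hlow]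
  interval_cases i
  · rw [hE.g0 hN.grd h0]
    norm_num
  · rw [hE.g1 hN.grd h0]
    have := hN.card_atoms (a := ⊥) (b := t) bot_le (r := 1) (n := ρ t) (by omega) (by omega)
    omega
  · rw [hE.g2 hN.grd h0 t (by omega)]
    obtain ⟨n, hn⟩ : ∃ n, ρ t = n + 4 := ⟨ρ t - 4, by omega⟩
    have k := hN.lbt (b := ⊥) (t := t) (r := 0) (n := n) bot_le h0 (by omega)
    simp only [zero_add] at k
    have e : 2 * ((n + 4).choose 2 : ℤ) = (n + 4) * (n + 3) := by
      have h1 := Nat.add_one_mul_choose_eq (n + 3) 1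
      rw [Nat.choose_one_right] at h1
      have h2 : (n + 4).choose 2 * 2 = (n + 4) * (n + 3) := h1.symm
      have h3 := congrArg (fun z : ℕ => (z : ℤ)) h2
      push_cast at h3
      linarith
    rw [hn]
    push_cast
    nlinarith

theorem gorenstein_nonneg (k : Type) [Field k] (P : Type) [Lattice P] [BoundedOrder P] [Fintype P]
    [DecidableEq P] (ρ : P → ℕ) (hρ : IsRank ρ) (hG : GorensteinStar k P) (i : ℕ)
    (hi : i ≤ 2 ∨ ρ ⊤ ≤ 6) : 0 ≤ (toricG ρ ⊤).coeff i := by
  have hg : Grd ρ := hρ.cov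
  by_cases h2 : i ≤ 2
  · exact toricG_low_nonneg hρ.bot (hG.normal hg) (hG.eulerian hg) ⊤ h2
  · rw [toricG_coeff_high ⊤ (by omega)]

end Pool.Agent.Lib.MP_5e1226_co
end
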