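import Mathlib

-- part Pool.Agent.Lib.MP_5e1226_co.Normal
section

/-!
Graded finite lattices with the diamond property and connected intervals: basic facts.
-/

namespace Pool.Agent.Lib.MP_5e1226_co

open Finset

open Classical in
/-- Elements of rank `r` in the interval `[a, c]`. -/
noncomputable def lev {P : Type} [PartialOrder P] [Fintype P] (ρ : P → ℕ) (a c : P) (r : ℕ) :
    Finset P :=
  univ.filter (fun x => a ≤ x ∧ x ≤ c ∧ ρ x = r)

/-- The rank goes up by one along covers. -/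
def Grd {P : Type} [PartialOrder P] (ρ : P → ℕ) : Prop := ∀ a b : P, a ⋖ b → ρ b = ρ a + 1

section graded

variable {P : Type} [PartialOrder P] [Fintype P] {ρ : P → ℕ}

@[simp] lemma mem_lev {a c x : P} {r : ℕ} : x ∈ lev ρ a c r ↔ a ≤ x ∧ x ≤ c ∧ ρ x = r := by
  simp [lev]

lemma Grd.lt (h : Grd ρ) {a b : P} (hab : a < b) : ρ a < ρ b := by
  induction b using (wellFounded_lt (α := P)).induction with
  | _ b ih =>
    obtain ⟨c, hac, hcb⟩ := hab.exists_le_covby
    have := h c b hcb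
    rcases hac.lt_or_eq with h1 | h1
    · have := ih c hcb.lt h1
      omega
    · subst h1
      omega

lemma Grd.le (h : Grd ρ) {a b : P} (hab : a ≤ b) : ρ a ≤ ρ b := by
  rcases hab.lt_or_eq with h1 | h1
  · exact (h.lt h1).le
  · rw [h1]

lemma Grd.eq (h : Grd ρ) {a b : P} (hab : a ≤ b) (hr : ρ b ≤ ρ a) : a = b := by
  rcases hab.lt_or_eq with h1 | h1
  · have := h.lt h1
    omega
  · exact h1

lemma lt_of_rank {a b : P} (hab : a ≤ b) (hr : ρ a < ρ b) : a < b :=
  lt_of_le_of_ne hab (by rintro rfl; omega)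

lemma Grd.exists_mid (h : Grd ρ) {a b : P} (hab : a ≤ b) {r : ℕ} (h1 : ρ a ≤ r) (h2 : r ≤ ρ b) :
    ∃ x, a ≤ x ∧ x ≤ b ∧ ρ x = r := by
  induction b using (wellFounded_lt (α := P)).induction with
  | _ b ih =>
    rcases h2.lt_or_eq with h3 | h3
    · have hlt : a < b := lt_of_rank (ρ := ρ) hab (by omega)
      obtain ⟨c, hac, hcb⟩ := hlt.exists_le_covby
      have := h c b hcb
      obtain ⟨x, hx1, hx2, hx3⟩ := ih c hcb.lt hac (by omega)
      exact ⟨x, hx1, hx2.trans hcb.le, hx3⟩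
    · exact ⟨b, hab, le_rfl, h3.symm⟩

end graded

/-- Graded, every interval of rank two has exactly two middle elements, and the proper part of
every interval of rank at least three is connected. -/
structure Normal {P : Type} [PartialOrder P] [Fintype P] (ρ : P → ℕ) : Prop where
  grd : Grd ρ
  dia : ∀ a b : P, a ≤ b → ρ b = ρ a + 2 → (lev ρ a b (ρ a + 1)).card = 2
  conn : ∀ a b : P, a ≤ b → ρ a + 3 ≤ ρ b → ∀ A : P → Prop,
    (∀ x y, A x → a < x → x < b → a < y → y < b → (x ≤ y ∨ y ≤ x) → A y) →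
    ∀ x y, a < x → x < b → a < y → y < b → A x → A y

variable {P : Type} [Lattice P] [Fintype P] {ρ : P → ℕ}

lemma Normal.two (h : Normal ρ) {a b : P} (hab : a ≤ b) {r : ℕ} (ha : ρ a + 1 = r)
    (hb : ρ b = r + 1) : (lev ρ a b r).card = 2 := by
  subst ha
  exact h.dia a b hab (by omega)

/-- The other middle element of a diamond. -/
lemma Normal.other (h : Normal ρ) {a b x : P} (hax : a ≤ x) (hxb : x ≤ b) (ha : ρ a + 1 = ρ x)
    (hb : ρ b = ρ x + 1) :
    ∃ y, y ≠ x ∧ a ≤ y ∧ y ≤ b ∧ ρ y = ρ x ∧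
      ∀ z, a ≤ z → z ≤ b → ρ z = ρ x → z = x ∨ z = y := by
  classical
  have h2 := h.two (hax.trans hxb) ha hb
  obtain ⟨u, v, huv, he⟩ := card_eq_two.1 h2
  have hx : x ∈ lev ρ a b (ρ x) := by simp [hax, hxb]
  have key : ∀ z, a ≤ z → z ≤ b → ρ z = ρ x → z = u ∨ z = v := by
    intro z h1 h2 h3
    have : z ∈ lev ρ a b (ρ x) := by simp [h1, h2, h3]
    rw [he] at this
    simpa using this
  have hu : u ∈ lev ρ a b (ρ x) := by rw [he]; simp
  have hv : v ∈ lev ρ a b (ρ x) := by rw [he]; simp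
  rw [mem_lev] at hu hv
  rcases key x hax hxb rfl with rfl | rfl
  · exact ⟨v, huv.symm, hv.1, hv.2.1, hv.2.2, key⟩
  · exact ⟨u, huv, hu.1, hu.2.1, hu.2.2, fun z h1 h2 h3 => (key z h1 h2 h3).symm⟩

lemma Grd.sup_eq (h : Grd ρ) {x y f : P} (hxy : x ≠ y) (hx : x ≤ f) (hy : y ≤ f)
    (hr : ρ x = ρ y) (hf : ρ f = ρ x + 1) : x ⊔ y = f := by
  apply h.eq (sup_le hx hy)
  have : x < x ⊔ y := by
    refine lt_of_le_of_ne le_sup_left fun h1 => hxy ?_
    have h2 : y ≤ x := by rw [h1]; exact le_sup_right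
    exact (h.eq h2 hr.le).symm
  have := h.lt this
  omega

lemma Grd.inf_eq (h : Grd ρ) {x y f : P} (hxy : x ≠ y) (hx : f ≤ x) (hy : f ≤ y)
    (hr : ρ x = ρ y) (hf : ρ x = ρ f + 1) : x ⊓ y = f := by
  symm
  apply h.eq (le_inf hx hy)
  have : x ⊓ y < x := by
    refine lt_of_le_of_ne inf_le_left fun h1 => hxy ?_
    have h2 : x ≤ y := by rw [← h1]; exact inf_le_right
    exact h.eq h2 hr.ge
  have := h.lt this
  omega

/-- If `y` is not below `x` and both lie below a cover `f` of `x`, then `x ⊔ y = f`. -/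
lemma Grd.sup_eq' (h : Grd ρ) {x y f : P} (hxy : ¬ y ≤ x) (hx : x ≤ f) (hy : y ≤ f)
    (hf : ρ f = ρ x + 1) : x ⊔ y = f := by
  apply h.eq (sup_le hx hy)
  have : x < x ⊔ y := by
    refine lt_of_le_of_ne le_sup_left fun h1 => hxy ?_
    rw [h1]; exact le_sup_right
  have := h.lt this
  omega

lemma Grd.sup_rank (h : Grd ρ) {x y : P} (hxy : ¬ y ≤ x) : ρ x < ρ (x ⊔ y) := by
  apply h.lt
  refine lt_of_le_of_ne le_sup_left fun h1 => hxy ?_
  rw [h1]; exact le_sup_right

/-- In an interval `[a, b]`, some atom is not below a given element `p` with `¬ b ≤ p`. -/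
lemma Normal.exists_atom_not_le (h : Normal ρ) :
    ∀ (n : ℕ) {a b p : P}, a ≤ b → ρ b = ρ a + n + 1 → ¬ b ≤ p →
      ∃ x, a ≤ x ∧ x ≤ b ∧ ρ x = ρ a + 1 ∧ ¬ x ≤ p := by
  intro n
  induction n with
  | zero => exact fun hab hr hp => ⟨_, hab, le_rfl, by omega, hp⟩
  | succ n ih =>
    intro a b p hab hr hp
    by_cases hap : a ≤ p
    · have hq : p ⊓ b < b := lt_of_le_of_ne inf_le_right fun h1 => hp (by
        rw [← h1]; exact inf_le_left)
      have hqr := h.grd.lt hq
      have haq : a ≤ p ⊓ b := le_inf hap hab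
      obtain ⟨F, hF1, hF2, hF3⟩ := h.grd.exists_mid hq.le (r := ρ a + n + 1) (by omega) (by omega)
      obtain ⟨G, hG1, hG2, hG3⟩ := h.grd.exists_mid (haq.trans hF1) (r := ρ a + n) (by omega)
        (by omega)
      obtain ⟨F', h1, h2, h3, h4, -⟩ := h.other hG2 hF2 (by omega) (by omega)
      have hn : ¬ F' ≤ F := fun h5 => h1 (h.grd.eq h5 h4.ge)
      obtain ⟨x, hx1, hx2, hx3, hx4⟩ := ih (hG1.trans h2) (by omega) hn
      exact ⟨x, hx1, hx2.trans h3, hx3, fun h5 =>
        hx4 ((le_inf h5 (hx2.trans h3)).trans hF1)⟩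
    · obtain ⟨x, hx1, hx2, hx3⟩ := h.grd.exists_mid hab (r := ρ a + 1) (by omega) (by omega)
      exact ⟨x, hx1, hx2, hx3, fun h5 => hap (hx1.trans h5)⟩

lemma Normal.atom_not_le (h : Normal ρ) {a b p : P} (hab : a ≤ b) (hr : ρ a < ρ b)
    (hp : ¬ b ≤ p) : ∃ x, a ≤ x ∧ x ≤ b ∧ ρ x = ρ a + 1 ∧ ¬ x ≤ p :=
  h.exists_atom_not_le (ρ b - ρ a - 1) hab (by omega) hp

/-- An interval of rank `n` has at least `n` atoms. -/
lemma Normal.le_card_atoms (h : Normal ρ) :
    ∀ (n : ℕ) {a b : P}, a ≤ b → ρ b = ρ a + n → n ≤ (lev ρ a b (ρ a + 1)).card := by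
  classical
  intro n
  induction n with
  | zero => exact fun _ _ => Nat.zero_le _
  | succ n ih =>
    intro a b hab hr
    obtain ⟨F, hF1, hF2, hF3⟩ := h.grd.exists_mid hab (r := ρ a + n) (by omega) (by omega)
    have hn : ¬ b ≤ F := fun h5 => by have := h.grd.le h5; omega
    obtain ⟨x, hx1, hx2, hx3, hx4⟩ := h.atom_not_le hab (by omega) hn
    have h1 := ih hF1 hF3
    have h2 : insert x (lev ρ a F (ρ a + 1)) ⊆ lev ρ a b (ρ a + 1) := by
      intro z hz
      rcases mem_insert.1 hz with rfl | hz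
      · simp [hx1, hx2, hx3]
      · rw [mem_lev] at hz ⊢
        exact ⟨hz.1, hz.2.1.trans hF2, hz.2.2⟩
    have h3 := card_le_card h2
    rw [card_insert_of_notMem (by simp [hx4])] at h3
    omega

lemma Normal.card_atoms (h : Normal ρ) {a b : P} (hab : a ≤ b) {r n : ℕ} (ha : ρ a + 1 = r)
    (hb : ρ b + 1 = r + n) : n ≤ (lev ρ a b r).card := by
  subst ha
  exact h.le_card_atoms n hab (by omega)

/-- Two distinct elements covered by `t` above any `a` of corank at least two. -/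
lemma Normal.two_coatoms (h : Normal ρ) {a t : P} (hat : a ≤ t) (hr : ρ a + 2 ≤ ρ t) :
    ∃ F F', F ≠ F' ∧ a ≤ F ∧ F ≤ t ∧ a ≤ F' ∧ F' ≤ t ∧ ρ F + 1 = ρ t ∧ ρ F' + 1 = ρ t := by
  obtain ⟨G, hG1, hG2, hG3⟩ := h.grd.exists_mid hat (r := ρ t - 2) (by omega) (by omega)
  obtain ⟨F, hF1, hF2, hF3⟩ := h.grd.exists_mid hG2 (r := ρ t - 1) (by omega) (by omega)
  obtain ⟨F', h1, h2, h3, h4, -⟩ := h.other hF1 hF2 (by omega) (by omega)
  exact ⟨F, F', h1.symm, hG1.trans hF1, hF2, hG1.trans h2, h3, by omega, by omega⟩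

/-- The graph of atoms and rank-two elements of an interval is connected. -/
lemma Normal.graph_conn (h : Normal ρ) (A : P → Prop) {a : P} :
    ∀ (n : ℕ) {t : P}, a ≤ t → ρ t = ρ a + n →
    (∀ u v e, A u → a ≤ u → a ≤ v → u ≤ e → v ≤ e → e ≤ t → ρ u = ρ a + 1 → ρ v = ρ a + 1 →
      ρ e = ρ a + 2 → A v) →
    ∀ u v, a ≤ u → a ≤ v → u ≤ t → v ≤ t → ρ u = ρ a + 1 → ρ v = ρ a + 1 → A u → A v := by
  intro n
  induction n using Nat.strong_induction_on with
  | _ n ih =>
    intro t hat hr hA u v hau hav hut hvt hu hv hAu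
    have hle := h.grd.le hut
    rcases Nat.lt_or_ge n 3 with hn | hn
    · rcases Nat.lt_or_ge n 2 with hn2 | hn2
      · have e1 := h.grd.eq hut (by omega)
        have e2 := h.grd.eq hvt (by omega)
        rw [e2, ← e1]; exact hAu
      · exact hA u v t hAu hau hav hut hvt le_rfl hu hv (by omega)
    · have key := h.conn a t hat (by omega)
        (fun x => ∃ w, a ≤ w ∧ w ≤ x ∧ ρ w = ρ a + 1 ∧ A w) (by
          rintro x y ⟨w, hw1, hw2, hw3, hw4⟩ hax hxt hay hyt hxy
          rcases hxy with hxy | hxy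
          · exact ⟨w, hw1, hw2.trans hxy, hw3, hw4⟩
          · have := h.grd.lt hay
            obtain ⟨w', h1, h2, h3⟩ := h.grd.exists_mid hay.le (r := ρ a + 1) (by omega) (by omega)
            have hx1 := h.grd.lt hxt
            have hx2 := h.grd.lt hax
            refine ⟨w', h1, h2, h3, ih (ρ x - ρ a) (by omega) hax.le (by omega) ?_ w w' hw1 h1 hw2
              (h2.trans hxy) hw3 h3 hw4⟩
            intro u v e hAu hau hav hue hve hex
            exact hA u v e hAu hau hav hue hve (hex.trans hxt.le))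
        u v (lt_of_rank (ρ := ρ) hau (by omega)) (lt_of_rank (ρ := ρ) hut (by omega))
        (lt_of_rank (ρ := ρ) hav (by omega)) (lt_of_rank (ρ := ρ) hvt (by omega))
        ⟨u, hau, le_rfl, hu, hAu⟩
      obtain ⟨w, hw1, hw2, hw3, hw4⟩ := key
      rwa [← h.grd.eq hw2 (by omega)]

/-- The dual graph (coatoms adjacent through elements of corank two) is connected. -/
lemma Normal.dual_conn (h : Normal ρ) (A : P → Prop) {t : P} :
    ∀ (n : ℕ) {a : P}, a ≤ t → ρ t = ρ a + n →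
    (∀ u v e, A u → u ≤ t → v ≤ t → e ≤ u → e ≤ v → a ≤ e → ρ u + 1 = ρ t → ρ v + 1 = ρ t →
      ρ e + 2 = ρ t → A v) →
    ∀ u v, a ≤ u → a ≤ v → u ≤ t → v ≤ t → ρ u + 1 = ρ t → ρ v + 1 = ρ t → A u → A v := by
  intro n
  induction n using Nat.strong_induction_on with
  | _ n ih =>
    intro a hat hr hA u v hau hav hut hvt hu hv hAu
    have hle := h.grd.le hau
    rcases Nat.lt_or_ge n 3 with hn | hn
    · rcases Nat.lt_or_ge n 2 with hn2 | hn2
      · have e1 := h.grd.eq hau (by omega)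
        have e2 := h.grd.eq hav (by omega)
        rw [← e2, e1]; exact hAu
      · exact hA u v a hAu hut hvt hau hav le_rfl hu hv (by omega)
    · have key := h.conn a t hat (by omega)
        (fun x => ∃ w, x ≤ w ∧ w ≤ t ∧ ρ w + 1 = ρ t ∧ A w) (by
          rintro x y ⟨w, hw1, hw2, hw3, hw4⟩ hax hxt hay hyt hxy
          rcases hxy with hxy | hxy
          · have := h.grd.lt hyt
            obtain ⟨w', h1, h2, h3⟩ := h.grd.exists_mid hyt.le (r := ρ t - 1) (by omega) (by omega)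
            have hx1 := h.grd.lt hxt
            have hx2 := h.grd.lt hax
            refine ⟨w', h1, h2, by omega, ih (ρ t - ρ x) (by omega) hxt.le (by omega) ?_ w w' hw1
              (hxy.trans h1) hw2 h2 hw3 (by omega) hw4⟩
            intro u v e hAu hut hvt heu hev hxe
            exact hA u v e hAu hut hvt heu hev (hax.le.trans hxe)
          · exact ⟨w, hxy.trans hw1, hw2, hw3, hw4⟩)
        u v (lt_of_rank (ρ := ρ) hau (by omega)) (lt_of_rank (ρ := ρ) hut (by omega))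
        (lt_of_rank (ρ := ρ) hav (by omega)) (lt_of_rank (ρ := ρ) hvt (by omega))
        ⟨u, le_rfl, hut, hu, hAu⟩
      obtain ⟨w, hw1, hw2, hw3, hw4⟩ := key
      rwa [h.grd.eq hw1 (by omega)]

/-- Double counting of incidences between two levels. -/
lemma sum_lev_comm {M : Type} [AddCommMonoid M] (a t : P) (r s : ℕ) (g : P → P → M) :
    ∑ x ∈ lev ρ a t r, ∑ y ∈ lev ρ x t s, g x y = ∑ y ∈ lev ρ a t s, ∑ x ∈ lev ρ a y r, g x y := by
  apply Finset.sum_comm'
  intro x y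
  simp only [mem_lev]
  constructor
  · rintro ⟨⟨h1, h2, h3⟩, h4, h5, h6⟩
    exact ⟨⟨h1, h4, h3⟩, h1.trans h4, h5, h6⟩
  · rintro ⟨⟨h1, h2, h3⟩, h4, h5, h6⟩
    exact ⟨⟨h1, h2.trans h5, h3⟩, h2, h5, h6⟩

end Pool.Agent.Lib.MP_5e1226_co
end

-- part Pool.Agent.Lib.MP_5e1226_co.State
section

/-!
States (pinned vertices, covered faces, pins on edges) and their combinatorial rigidity count.
-/

set_option linter.unusedSectionVars false

namespace Pool.Agent.Lib.MP_5e1226_co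

open Finset Classical

def cc (p : ℕ) : ℤ := if p = 0 then 3 else if p = 1 then 1 else 0

lemma cc_nonneg (p : ℕ) : 0 ≤ cc p := by unfold cc; split_ifs <;> omega

lemma cc_anti {p q : ℕ} (h : p ≤ q) : cc q ≤ cc p := by unfold cc; split_ifs <;> omega

lemma cc_of_two_le {p : ℕ} (h : 2 ≤ p) : cc p = 0 := by unfold cc; split_ifs <;> omega

variable {P : Type} [Lattice P] [Fintype P]

/-- Number of vertices below `e` that are not pinned. -/
noncomputable def nz (ρ : P → ℕ) (b : P) (r : ℕ) (Z : P → Prop) (e : P) : ℤ :=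
  ∑ v ∈ lev ρ b e (r + 1), if Z v then 0 else 1

def Naked (ρ : P → ℕ) (b : P) (r : ℕ) (Z : P → Prop) (π : P → ℕ) (e : P) : Prop :=
  π e = 0 ∧ ∀ v ∈ lev ρ b e (r + 1), ¬ Z v

noncomputable def nk (ρ : P → ℕ) (b : P) (r : ℕ) (Z : P → Prop) (π : P → ℕ) (e : P) : ℤ :=
  if Naked ρ b r Z π e then 1 else 0

noncomputable def nu (ρ : P → ℕ) (b : P) (r : ℕ) (Z : P → Prop) (π : P → ℕ) (e : P) : ℤ :=
  nz ρ b r Z e - nk ρ b r Z π e

noncomputable def pf (ρ : P → ℕ) (b : P) (r : ℕ) (Z : P → Prop) (π : P → ℕ) (f : P) : ℕ :=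
  (∑ v ∈ lev ρ b f (r + 1), if Z v then 1 else 0) + ∑ e ∈ lev ρ b f (r + 2), π e

noncomputable def w2 (ρ : P → ℕ) (b : P) (r : ℕ) (Z : P → Prop) (π : P → ℕ) (f : P) : ℤ :=
  (∑ e ∈ lev ρ b f (r + 2), nk ρ b r Z π e) - cc (pf ρ b r Z π f)

noncomputable def cost (d : ℤ) (Z cov : P → Prop) (z : P) : ℤ :=
  if Z z then 0 else if cov z then 1 else d

noncomputable def DD (ρ : P → ℕ) (b t : P) (r : ℕ) (d : ℤ) (Z cov : P → Prop) (π : P → ℕ) : ℤ :=
  (∑ e ∈ lev ρ b t (r + 2), if cov e then 0 else nu ρ b r Z π e) +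
    (∑ f ∈ lev ρ b t (r + 3), if cov f then 0 else w2 ρ b r Z π f) -
    ∑ z ∈ lev ρ b t (r + 1), cost d Z cov z

structure Valid (ρ : P → ℕ) (b t : P) (r : ℕ) (Z cov : P → Prop) : Prop where
  down : ∀ x y, x ≤ y → cov y → cov x
  join : ∀ z ∈ lev ρ b t (r + 1), ¬ Z z → ∀ x y, z ≤ x → z ≤ y → x ≤ t → y ≤ t → cov x → cov y →
    cov (x ⊔ y)
  top : ¬ cov t

variable {ρ : P → ℕ} {b : P} {r : ℕ}

lemma nk_nonneg (Z : P → Prop) (π : P → ℕ) (e : P) : 0 ≤ nk ρ b r Z π e := by
  unfold nk; split_ifs <;> omega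

lemma nk_le_one (Z : P → Prop) (π : P → ℕ) (e : P) : nk ρ b r Z π e ≤ 1 := by
  unfold nk; split_ifs <;> omega

/-- The second end of an edge. -/
lemma Normal.edge_other (h : Normal ρ) (hb : ρ b = r) {u e : P} (hbu : b ≤ u) (hue : u ≤ e)
    (hu : ρ u = r + 1) (he : ρ e = r + 2) :
    ∃ w, w ≠ u ∧ b ≤ w ∧ w ≤ e ∧ ρ w = r + 1 ∧ lev ρ b e (r + 1) = {u, w} := by
  obtain ⟨w, h1, h2, h3, h4, h5⟩ := h.other hbu hue (by omega) (by omega)
  refine ⟨w, h1, h2, h3, by omega, ?_⟩
  ext z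
  simp only [mem_lev, mem_insert, mem_singleton]
  constructor
  · rintro ⟨a1, a2, a3⟩
    exact h5 z a1 a2 (by omega)
  · rintro (rfl | rfl)
    · exact ⟨hbu, hue, hu⟩
    · exact ⟨h2, h3, by omega⟩

lemma Normal.edge_ends (h : Normal ρ) (hb : ρ b = r) {e : P} (hbe : b ≤ e) (he : ρ e = r + 2) :
    ∃ u w, w ≠ u ∧ b ≤ u ∧ u ≤ e ∧ ρ u = r + 1 ∧ b ≤ w ∧ w ≤ e ∧ ρ w = r + 1 ∧
      lev ρ b e (r + 1) = {u, w} := by
  obtain ⟨u, h1, h2, h3⟩ := h.grd.exists_mid hbe (r := r + 1) (by omega) (by omega)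
  obtain ⟨w, a1, a2, a3, a4, a5⟩ := h.edge_other hb h1 h2 h3 he
  exact ⟨u, w, a1, h1, h2, h3, a2, a3, a4, a5⟩

lemma nz_pair {Z : P → Prop} {e u w : P} (hne : w ≠ u) (hl : lev ρ b e (r + 1) = {u, w}) :
    nz ρ b r Z e = (if Z u then 0 else 1) + (if Z w then 0 else 1) := by
  unfold nz
  rw [hl, sum_pair hne.symm]

lemma nk_pair {Z : P → Prop} {π : P → ℕ} {e u w : P} (hl : lev ρ b e (r + 1) = {u, w}) :
    nk ρ b r Z π e = if π e = 0 ∧ ¬ Z u ∧ ¬ Z w then 1 else 0 := by
  unfold nk Naked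
  rw [hl]
  simp

lemma Normal.nu_nonneg (h : Normal ρ) (hb : ρ b = r) (Z : P → Prop) (π : P → ℕ) {e : P}
    (hbe : b ≤ e) (he : ρ e = r + 2) : 0 ≤ nu ρ b r Z π e := by
  obtain ⟨u, w, hne, -, -, -, -, -, -, hl⟩ := h.edge_ends hb hbe he
  unfold nu
  rw [nz_pair hne hl, nk_pair hl]
  by_cases h1 : Z u <;> by_cases h2 : Z w <;> by_cases h3 : π e = 0 <;> simp [h1, h2, h3]

lemma Normal.nu_mono (h : Normal ρ) (hb : ρ b = r) {Z Z' : P → Prop} (hZ : ∀ v, Z v → Z' v)
    (π : P → ℕ) {e : P} (hbe : b ≤ e) (he : ρ e = r + 2) :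
    nu ρ b r Z' π e ≤ nu ρ b r Z π e := by
  obtain ⟨u, w, hne, -, -, -, -, -, -, hl⟩ := h.edge_ends hb hbe he
  unfold nu
  rw [nz_pair hne hl, nk_pair hl, nz_pair hne hl, nk_pair hl]
  have a1 := hZ u
  have a2 := hZ w
  by_cases h1 : Z u <;> by_cases h2 : Z w <;> by_cases h3 : π e = 0 <;> by_cases h4 : Z' u <;>
    by_cases h5 : Z' w <;> simp_all

/-- The two edges of a polygon at a vertex. -/
lemma Normal.corner (h : Normal ρ) {u f : P} (huf : u ≤ f) (hu : ρ u = r + 1)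
    (hf : ρ f = r + 3) :
    ∃ e1 e2, e1 ≠ e2 ∧ u ≤ e1 ∧ e1 ≤ f ∧ ρ e1 = r + 2 ∧ u ≤ e2 ∧ e2 ≤ f ∧ ρ e2 = r + 2 ∧
      lev ρ u f (r + 2) = {e1, e2} := by
  obtain ⟨e1, e2, a1, a2, a3, a4, a5, a6, a7, a8⟩ :=
    h.edge_ends (b := u) (r := r + 1) hu huf (by omega)
  exact ⟨e1, e2, a1.symm, a2, a3, a4, a5, a6, a7, a8⟩

lemma pf_ge_two_of {Z : P → Prop} {π : P → ℕ} {f w1 w2 e1 e2 : P} (hw : w1 ≠ w2) (he : e1 ≠ e2)
    (h1 : w1 ∈ lev ρ b f (r + 1)) (h2 : w2 ∈ lev ρ b f (r + 1))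
    (h3 : e1 ∈ lev ρ b f (r + 2)) (h4 : e2 ∈ lev ρ b f (r + 2)) :
    (if Z w1 then 1 else 0) + (if Z w2 then 1 else 0) + π e1 + π e2 ≤ pf ρ b r Z π f := by
  unfold pf
  have a1 : ∑ v ∈ ({w1, w2} : Finset P), (if Z v then 1 else 0) ≤
      ∑ v ∈ lev ρ b f (r + 1), if Z v then 1 else 0 :=
    sum_le_sum_of_subset (by
      intro x hx
      rcases mem_insert.1 hx with rfl | hx
      · exact h1
      · rw [mem_singleton.1 hx]; exact h2)
  have a2 : ∑ v ∈ ({e1, e2} : Finset P), π v ≤ ∑ v ∈ lev ρ b f (r + 2), π v :=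
    sum_le_sum_of_subset (by
      intro x hx
      rcases mem_insert.1 hx with rfl | hx
      · exact h3
      · rw [mem_singleton.1 hx]; exact h4)
  rw [sum_pair hw] at a1
  rw [sum_pair he] at a2
  omega

/-- Effect on the naked edges of a polygon of pinning one more vertex `u`. -/
lemma sum_nk_add {Z Z' : P → Prop} {π π' : P → ℕ} {u f : P} (hZ' : ∀ v, Z' v ↔ Z v ∨ v = u)
    (hbu : b ≤ u) (hu : ρ u = r + 1)
    (hπ : ∀ e ∈ lev ρ b f (r + 2), ¬ u ≤ e → π' e = π e) :
    ∑ e ∈ lev ρ b f (r + 2), nk ρ b r Z π e =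
      ∑ e ∈ lev ρ b f (r + 2), nk ρ b r Z' π' e + ∑ e ∈ lev ρ u f (r + 2), nk ρ b r Z π e := by
  have hl : lev ρ u f (r + 2) = (lev ρ b f (r + 2)).filter (fun e => u ≤ e) := by
    ext e
    simp only [mem_lev, mem_filter]
    constructor
    · rintro ⟨a1, a2, a3⟩
      exact ⟨⟨hbu.trans a1, a2, a3⟩, a1⟩
    · rintro ⟨⟨_, a2, a3⟩, a1⟩
      exact ⟨a1, a2, a3⟩
  rw [hl, sum_filter, ← sum_add_distrib]
  refine sum_congr rfl fun e he => ?_
  by_cases hue : u ≤ e
  · have : ¬ Naked ρ b r Z' π' e := by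
      rintro ⟨-, h2⟩
      exact h2 u (by simp [hbu, hue, hu]) ((hZ' u).2 (Or.inr rfl))
    simp [hue, nk, this]
  · have : Naked ρ b r Z' π' e ↔ Naked ρ b r Z π e := by
      unfold Naked
      rw [hπ e he hue]
      refine and_congr_right fun _ => forall₂_congr fun v hv => ?_
      have : v ≠ u := by
        rintro rfl
        exact hue (mem_lev.1 hv).2.1
      simp [this, hZ']
    simp [hue, nk, this]

lemma sum_ind_add {Z Z' : P → Prop} {u f : P} (hZ' : ∀ v, Z' v ↔ Z v ∨ v = u)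
    (hu : u ∈ lev ρ b f (r + 1)) (hZ : ¬ Z u) :
    (∑ v ∈ lev ρ b f (r + 1), if Z' v then 1 else 0) =
      (∑ v ∈ lev ρ b f (r + 1), if Z v then 1 else 0) + 1 := by
  have : (∑ v ∈ lev ρ b f (r + 1), if v = u then 1 else 0) = 1 := by
    rw [sum_ite_eq' , if_pos hu]
  have h2 : (∑ v ∈ lev ρ b f (r + 1), if Z' v then 1 else 0) =
      (∑ v ∈ lev ρ b f (r + 1), if Z v then 1 else 0) +
        ∑ v ∈ lev ρ b f (r + 1), if v = u then 1 else 0 := by
    rw [← sum_add_distrib]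
    refine sum_congr rfl fun v _ => ?_
    by_cases h1 : v = u
    · subst h1; simp [hZ, hZ']
    · simp [h1, hZ']
  rw [h2, this]

/-- Pinning one more vertex does not increase the weight of a polygon. -/
lemma Normal.w2_add (h : Normal ρ) (hb : ρ b = r) {Z Z' : P → Prop} {π π' : P → ℕ} {u f : P}
    (hZ' : ∀ v, Z' v ↔ Z v ∨ v = u)
    (hbu : b ≤ u) (huf : u ≤ f) (hu : ρ u = r + 1) (hf : ρ f = r + 3) (hZ : ¬ Z u)
    (hπ : ∀ e ∈ lev ρ b f (r + 2), π' e = π e) :
    w2 ρ b r Z' π' f ≤ w2 ρ b r Z π f := by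
  unfold w2
  rw [sum_nk_add (Z := Z) (π := π) (π' := π') hZ' hbu hu (fun e he _ => hπ e he)]
  have hp : pf ρ b r Z' π' f = pf ρ b r Z π f + 1 := by
    unfold pf
    rw [sum_ind_add hZ' (by simp [hbu, huf, hu]) hZ, sum_congr rfl hπ]
    ring
  rw [hp]
  obtain ⟨e1, e2, hne, a1, a2, a3, a4, a5, a6, hl⟩ := h.corner huf hu hf
  obtain ⟨w1, b1, b2, b3, b4, l1⟩ := h.edge_other hb hbu a1 hu a3
  obtain ⟨w2, c1, c2, c3, c4, l2⟩ := h.edge_other hb hbu a4 hu a6
  have hw : w1 ≠ w2 := by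
    rintro rfl
    apply hne
    rw [← h.grd.sup_eq b1 b3 a1 (by omega) (by omega), ← h.grd.sup_eq b1 c3 a4 (by omega) (by omega)]
  have key := pf_ge_two_of (ρ := ρ) (b := b) (r := r) (Z := Z) (π := π) (f := f) hw hne
    (by simp [b2, b3.trans a2, b4]) (by simp [c2, c3.trans a5, c4])
    (by simp [hbu.trans a1, a2, a3]) (by simp [hbu.trans a4, a5, a6])
  rw [hl, sum_pair hne, nk_pair l1, nk_pair l2]
  generalize pf ρ b r Z π f = p at key
  unfold cc
  by_cases h1 : Z w1 <;> by_cases h2 : Z w2 <;> by_cases h3 : π e1 = 0 <;>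
    by_cases h4 : π e2 = 0 <;> simp [h1, h2, h3, h4, hZ] at key ⊢ <;> split_ifs <;> omega

lemma w2_congr {Z Z' : P → Prop} {π : P → ℕ} {f : P}
    (hZ : ∀ v ∈ lev ρ b f (r + 1), Z v ↔ Z' v) : w2 ρ b r Z π f = w2 ρ b r Z' π f := by
  unfold w2 pf
  congr 1
  · refine sum_congr rfl fun e he => ?_
    have : Naked ρ b r Z π e ↔ Naked ρ b r Z' π e := by
      unfold Naked
      refine and_congr_right fun _ => forall₂_congr fun v hv => ?_
      rw [mem_lev] at hv he
      rw [hZ v (by simp [hv.1, hv.2.1.trans he.2.1, hv.2.2])]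
    simp [nk, this]
  · congr 2
    exact sum_congr rfl fun v hv => by simp [hZ v hv]

lemma Normal.w2_mono (h : Normal ρ) (hb : ρ b = r) {Z Z' : P → Prop} (hZ : ∀ v, Z v → Z' v)
    (π : P → ℕ) {f : P} (hf : ρ f = r + 3) : w2 ρ b r Z' π f ≤ w2 ρ b r Z π f := by
  have key : ∀ S : Finset P, S ⊆ lev ρ b f (r + 1) →
      w2 ρ b r (fun v => Z v ∨ v ∈ S) π f ≤ w2 ρ b r Z π f := by
    intro S
    induction S using Finset.induction_on with
    | empty => intro _; simp
    | insert u S huS ih =>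
      intro hS
      have ih' := ih fun x hx => hS (mem_insert_of_mem hx)
      have hu := mem_lev.1 (hS (mem_insert_self u S))
      by_cases hZu : Z u
      · refine le_of_eq_of_le (w2_congr fun v _ => ?_) ih'
        by_cases hv : v = u
        · subst hv; simp [hZu]
        · simp [hv]
      · refine le_trans (h.w2_add hb (Z := fun v => Z v ∨ v ∈ S) (π := π) (π' := π) (u := u)
          (fun v => ?_) hu.1 hu.2.1 hu.2.2 hf (by simp [hZu, huS]) fun _ _ => rfl) ih'
        simp only [mem_insert]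
        tauto
  refine le_of_eq_of_le (w2_congr fun v hv => ?_)
    (key ((lev ρ b f (r + 1)).filter Z') (filter_subset _ _))
  simp only [mem_filter, hv, true_and]
  have := hZ v
  tauto

lemma Normal.w2_nonneg (h : Normal ρ) (hb : ρ b = r) (Z : P → Prop) (π : P → ℕ) {f : P}
    (hbf : b ≤ f) (hf : ρ f = r + 3) : 0 ≤ w2 ρ b r Z π f := by
  refine le_trans ?_ (h.w2_mono hb (Z' := fun _ => True) (fun _ _ => trivial) π hf)
  unfold w2
  have h3 := h.card_atoms hbf (r := r + 1) (n := 3) (by omega) (by omega)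
  have : 2 ≤ pf ρ b r (fun _ => True) π f := by
    unfold pf
    simp only [if_true, sum_const, smul_eq_mul, mul_one]
    omega
  rw [cc_of_two_le this]
  have := sum_nonneg fun e (_ : e ∈ lev ρ b f (r + 2)) =>
    nk_nonneg (ρ := ρ) (b := b) (r := r) (fun _ => True) π e
  omega

/-- Total weight of a polygon together with its edges. -/
lemma Normal.w2_add_sum_nu (h : Normal ρ) (Z : P → Prop) (π : P → ℕ) {f : P}
    (hf : ρ f = r + 3) :
    w2 ρ b r Z π f + ∑ e ∈ lev ρ b f (r + 2), nu ρ b r Z π e =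
      2 * nz ρ b r Z f - cc (pf ρ b r Z π f) := by
  unfold w2 nu
  rw [sum_sub_distrib]
  have : ∑ e ∈ lev ρ b f (r + 2), nz ρ b r Z e = 2 * nz ρ b r Z f := by
    unfold nz
    rw [← sum_lev_comm b f (r + 1) (r + 2) (fun v _ => if Z v then (0 : ℤ) else 1), mul_sum]
    refine sum_congr rfl fun v hv => ?_
    rw [mem_lev] at hv
    rw [sum_const, h.two hv.2.1 (by omega) (by omega)]
    simp
  rw [this]
  ring

lemma Valid.mono {t : P} {Z Z' cov : P → Prop} (hv : Valid ρ b t r Z cov) (hZ : ∀ v, Z v → Z' v) :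
    Valid ρ b t r Z' cov :=
  ⟨hv.down, fun z hz h1 => hv.join z hz fun h2 => h1 (hZ z h2), hv.top⟩

/-- Above a covered face at a vertex that is not pinned there is an uncovered cover. -/
lemma Valid.exists_uncov (h : Normal ρ) {t : P} {Z cov : P → Prop} (hv : Valid ρ b t r Z cov)
    {z Φ : P} (hz : z ∈ lev ρ b t (r + 1)) (hZ : ¬ Z z) (hzΦ : z ≤ Φ) (hΦt : Φ ≤ t)
    (hc : cov Φ) : ∃ x, Φ ≤ x ∧ x ≤ t ∧ ρ x = ρ Φ + 1 ∧ ¬ cov x := by
  let S := univ.filter (fun x => z ≤ x ∧ x ≤ t ∧ cov x)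
  have hS : S.Nonempty := ⟨Φ, by simp [S, hzΦ, hΦt, hc]⟩
  have hm : z ≤ S.sup' hS id ∧ S.sup' hS id ≤ t ∧ cov (S.sup' hS id) := by
    apply sup'_induction hS id (p := fun x => z ≤ x ∧ x ≤ t ∧ cov x)
    · rintro x ⟨a1, a2, a3⟩ y ⟨b1, b2, b3⟩
      exact ⟨a1.trans le_sup_left, sup_le a2 b2, hv.join z hz hZ x y a1 b1 a2 b2 a3 b3⟩
    · intro x hx
      simpa [S] using hx
  have hlt : ρ Φ < ρ t := h.grd.lt (lt_of_le_of_ne hΦt (by rintro rfl; exact hv.top hc))
  obtain ⟨x, a1, a2, a3, a4⟩ := h.atom_not_le hΦt hlt (p := S.sup' hS id)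
    (fun h1 => hv.top (hv.down _ _ h1 hm.2.2))
  refine ⟨x, a1, a2, a3, fun h1 => a4 ?_⟩
  exact le_sup' (f := id) (by simp [S, hzΦ.trans a1, a2, h1])

end Pool.Agent.Lib.MP_5e1226_co
end

-- part Pool.Agent.Lib.MP_5e1226_co.Planar1
section

/-!
Intervals of rank three and four: cuts of polygons, an Euler characteristic bound, and
three-connectivity.
-/

set_option linter.unusedSectionVars false

namespace Pool.Agent.Lib.MP_5e1226_co

open Finset Classical

lemma zmod2_two : 2 • (1 : ZMod 2) = 0 := by decide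

lemma zmod2_eq : ∀ p q : ZMod 2, p + q = 0 → q = p := by decide

variable {P : Type} [Lattice P] [Fintype P] {ρ : P → ℕ} {b t : P} {r : ℕ}

/-- A nontrivial cut of a polygon has at least two edges. -/
lemma Normal.cut_two (h : Normal ρ) {a c : P} {s : ℕ} (ha : ρ a = s) (hc : ρ c = s + 3)
    (A : P → Prop) {u w : P} (hu : u ∈ lev ρ a c (s + 1)) (hw : w ∈ lev ρ a c (s + 1))
    (hAu : A u) (hAw : ¬ A w) (e0 : P) :
    ∃ e u' w', e ≠ e0 ∧ e ≤ c ∧ ρ e = s + 2 ∧ a ≤ u' ∧ u' ≤ e ∧ ρ u' = s + 1 ∧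
      a ≤ w' ∧ w' ≤ e ∧ ρ w' = s + 1 ∧ A u' ∧ ¬ A w' := by
  by_contra hcon
  push Not at hcon
  rw [mem_lev] at hu hw
  have hex : ∃ u' w', e0 ≤ c ∧ ρ e0 = s + 2 ∧ a ≤ u' ∧ u' ≤ e0 ∧ ρ u' = s + 1 ∧
      a ≤ w' ∧ w' ≤ e0 ∧ ρ w' = s + 1 ∧ A u' ∧ ¬ A w' := by
    by_contra hc2
    push Not at hc2
    apply hAw
    refine h.graph_conn A 3 (hu.1.trans hu.2.1) (by omega) ?_ u w hu.1 hw.1 hu.2.1 hw.2.1
      (by omega) (by omega) hAu
    intro u' w' e h1 h2 h3 h4 h5 h6 h7 h8 h9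
    by_cases he : e = e0
    · subst he
      exact hc2 u' w' h6 (by omega) h2 h4 (by omega) h3 h5 (by omega) h1
    · exact hcon e u' w' he h6 (by omega) h2 h4 (by omega) h3 h5 (by omega) h1
  obtain ⟨u', w', b1, b2, b3, b4, b5, b6, b7, b8, b9, b10⟩ := hex
  have s1 : ∑ e ∈ lev ρ a c (s + 2), ∑ v ∈ lev ρ a e (s + 1), (if A v then (1 : ZMod 2) else 0)
      = 0 := by
    rw [← sum_lev_comm a c (s + 1) (s + 2) (fun v _ => if A v then (1 : ZMod 2) else 0)]
    refine sum_eq_zero fun v hv => ?_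
    rw [mem_lev] at hv
    rw [sum_const, h.two hv.2.1 (by omega) (by omega)]
    split_ifs
    · decide
    · simp
  rw [sum_eq_single e0] at s1
  · obtain ⟨x, c1, c2, c3, c4, l1⟩ := h.edge_other ha b3 b4 b5 b2
    have : w' ∈ lev ρ a e0 (s + 1) := by simp [b6, b7, b8]
    rw [l1] at this s1
    have hne : w' ≠ u' := by rintro rfl; exact b10 b9
    have hx : w' = x := by simpa [hne] using this
    rw [sum_pair c1.symm, if_pos b9, ← hx, if_neg b10] at s1
    simp at s1
  · intro e he hne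
    rw [mem_lev] at he
    obtain ⟨x, y, c0, c1, c2, c3, c4, c5, c6, l1⟩ := h.edge_ends ha he.1 he.2.2
    rw [l1, sum_pair c0.symm]
    have d1 := hcon e x y hne he.2.1 he.2.2 c1 c2 c3 c4 c5 c6
    have d2 := hcon e y x hne he.2.1 he.2.2 c4 c5 c6 c1 c2 c3
    by_cases hx : A x
    · rw [if_pos hx, if_pos (d1 hx)]
      decide
    · rw [if_neg hx, if_neg fun hy => hx (d2 hy)]
      simp
  · intro hn
    exact absurd (by simp [b3.trans b4, b1, b2]) hn

/-- `C` is connected through the edges of `[b, t]` with both ends in `C`. -/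
def ConnC (ρ : P → ℕ) (b t : P) (r : ℕ) (C : Finset P) : Prop :=
  ∀ A : P → Prop, (∀ u w e, A u → u ∈ C → w ∈ C → e ∈ lev ρ b t (r + 2) → u ≤ e → w ≤ e → A w) →
    ∀ u ∈ C, ∀ w ∈ C, A u → A w

/-- Elements of rank `s` all of whose vertices lie in `C`. -/
noncomputable def inside (ρ : P → ℕ) (b t : P) (r : ℕ) (C : Finset P) (s : ℕ) : Finset P :=
  (lev ρ b t s).filter (fun e => ∀ v ∈ lev ρ b e (r + 1), v ∈ C)

lemma Normal.euler_le (h : Normal ρ) (hb : ρ b = r) (ht : ρ t = r + 4) {C : Finset P}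
    (hC : C ⊆ lev ρ b t (r + 1)) (hconn : ConnC ρ b t r C) {z : P} (hz : z ∈ lev ρ b t (r + 1))
    (hzC : z ∉ C) :
    (inside ρ b t r C (r + 3)).card + C.card ≤ (inside ρ b t r C (r + 2)).card + 1 := by
  set N := inside ρ b t r C (r + 2) with hN
  set F0 := inside ρ b t r C (r + 3) with hF0
  let M1 : Matrix N C (ZMod 2) := fun e v => if (v : P) ≤ e then 1 else 0
  let M2 : Matrix F0 N (ZMod 2) := fun f e => if (e : P) ≤ f then 1 else 0
  have hsub : ∀ f ∈ F0, ∀ e ∈ lev ρ b f (r + 2), e ∈ N := by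
    intro f hf e he
    simp only [hF0, hN, inside, mem_filter, mem_lev] at hf he ⊢
    exact ⟨⟨he.1, he.2.1.trans hf.1.2.1, he.2.2⟩, fun v hv =>
      hf.2 v ⟨hv.1, hv.2.1.trans he.2.1, hv.2.2⟩⟩
  have hmul : M2 * M1 = 0 := by
    ext f v
    rw [Matrix.mul_apply]
    have hv := mem_lev.1 (hC v.2)
    have hf : (f : P) ∈ lev ρ b t (r + 3) := (mem_filter.1 f.2).1
    rw [mem_lev] at hf
    have e1 : ∑ e : N, M2 f e * M1 e v =
        ∑ e ∈ N, if e ∈ lev ρ (v : P) (f : P) (r + 2) then (1 : ZMod 2) else 0 := by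
      rw [← sum_coe_sort N]
      refine sum_congr rfl fun e _ => ?_
      have he : (e : P) ∈ lev ρ b t (r + 2) := (mem_filter.1 e.2).1
      rw [mem_lev] at he
      by_cases h1 : (e : P) ≤ f <;> by_cases h2 : (v : P) ≤ e <;> simp [M1, M2, h1, h2, he.2.2]
    rw [e1, sum_ite_mem, sum_const, inter_eq_right.2]
    · by_cases hvf : (v : P) ≤ f
      · rw [h.two hvf (by omega) (by omega), Matrix.zero_apply]
        exact zmod2_two
      · have : lev ρ (v : P) (f : P) (r + 2) = ∅ := by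
          ext e
          simp only [mem_lev, notMem_empty, iff_false, not_and]
          exact fun h1 h2 => absurd (h1.trans h2) hvf
        simp [this]
    · intro e he
      rw [mem_lev] at he
      exact hsub f f.2 e (by simp [hv.1.trans he.1, he.2.1, he.2.2])
  have hr := Matrix.rank_add_rank_le_card_of_mul_eq_zero hmul
  have h1 : C.card ≤ M1.rank + 1 := by
    have e1 := LinearMap.finrank_range_add_finrank_ker M1.mulVecLin
    have e2 : LinearMap.ker M1.mulVecLin ≤ Submodule.span (ZMod 2) {fun _ => 1} := by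
      intro φ hφ
      rw [LinearMap.mem_ker, Matrix.mulVecLin_apply] at hφ
      rw [Submodule.mem_span_singleton]
      by_cases hne : C.Nonempty
      · obtain ⟨u, hu⟩ := hne
        refine ⟨φ ⟨u, hu⟩, ?_⟩
        funext w
        have := hconn (fun x => ∀ hx : x ∈ C, φ ⟨x, hx⟩ = φ ⟨u, hu⟩) (by
          intro x y e hA hx hy he hxe hye _
          by_cases hxy : y = x
          · subst hxy; exact hA hx
          rw [← hA hx]
          have hx' := mem_lev.1 (hC hx)
          have hy' := mem_lev.1 (hC hy)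
          have he' := mem_lev.1 he
          obtain ⟨y', c1, c2, c3, c4, l1⟩ := h.edge_other hb hx'.1 hxe hx'.2.2 he'.2.2
          have hyy : y = y' := by
            have : y ∈ lev ρ b e (r + 1) := by simp [hy'.1, hye, hy'.2.2]
            rw [l1] at this
            simpa [hxy] using this
          subst hyy
          have heN : e ∈ N := by
            simp only [hN, inside, mem_filter]
            refine ⟨he, fun v hv => ?_⟩
            rw [l1] at hv
            rcases mem_insert.1 hv with rfl | hv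
            · exact hx
            · rw [mem_singleton.1 hv]; exact hy
          have e3 := congrFun hφ ⟨e, heN⟩
          simp only [Matrix.mulVec, dotProduct, Pi.zero_apply] at e3
          rw [Fintype.sum_eq_add (⟨x, hx⟩ : C) ⟨y, hy⟩ (by
            intro h5; exact c1 (congrArg Subtype.val h5).symm) (by
            rintro ⟨v, hv⟩ ⟨h5, h6⟩
            have : ¬ v ≤ e := by
              intro h7
              have hv' := mem_lev.1 (hC hv)
              have : v ∈ lev ρ b e (r + 1) := by simp [hv'.1, h7, hv'.2.2]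
              rw [l1] at this
              rcases mem_insert.1 this with rfl | h8
              · exact h5 rfl
              · exact h6 (Subtype.ext (mem_singleton.1 h8))
            simp [M1, this])] at e3
          simp only [M1, hxe, hye, if_true, one_mul] at e3
          exact zmod2_eq _ _ e3) u hu w w.2 (fun _ => rfl) w.2
        simp [this]
      · refine ⟨0, ?_⟩
        funext w
        exact absurd ⟨w, w.2⟩ hne
    have e3 := (Submodule.finrank_mono e2).trans (finrank_span_le_card _)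
    simp only [Set.toFinset_singleton, card_singleton] at e3
    simp only [Module.finrank_fintype_fun_eq_card, Fintype.card_coe] at e1
    unfold Matrix.rank
    omega
  have h2 : F0.card ≤ M2.rank := by
    rw [← Matrix.rank_transpose]
    have e1 := LinearMap.finrank_range_add_finrank_ker M2.transpose.mulVecLin
    have e2 : LinearMap.ker M2.transpose.mulVecLin = ⊥ := by
      rw [eq_bot_iff]
      intro ψ hψ
      rw [LinearMap.mem_ker, Matrix.mulVecLin_apply] at hψ
      rw [Submodule.mem_bot]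
      funext f
      by_contra hf
      have hfl : (f : P) ∈ lev ρ b t (r + 3) := (mem_filter.1 f.2).1
      rw [mem_lev] at hfl hz
      obtain ⟨g, g1, g2, g3⟩ := h.grd.exists_mid hz.2.1 (r := r + 3) (by omega) (by omega)
      have := h.dual_conn (fun x => ∃ hx : x ∈ F0, ψ ⟨x, hx⟩ ≠ 0) 4 (hz.1.trans hz.2.1) (by omega)
        (by
          rintro x y e ⟨hx, hA⟩ hxt hyt hex hey hbe rx ry re
          by_cases hxy : y = x
          · subst hxy; exact ⟨hx, hA⟩
          obtain ⟨y', c1, c2, c3, c4, c5⟩ := h.other hex hxt (by omega) (by omega)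
          have hyy : y = y' := (c5 y hey hyt (by omega)).resolve_left hxy
          subst hyy
          have heN : e ∈ N := hsub x hx e (by simp [hbe, hex]; omega)
          have e3 := congrFun hψ ⟨e, heN⟩
          simp only [Matrix.mulVec, dotProduct, Pi.zero_apply, Matrix.transpose_apply] at e3
          by_contra hcon
          push Not at hcon
          rw [Fintype.sum_eq_single (⟨x, hx⟩ : F0) (by
            rintro ⟨v, hv⟩ h5
            by_cases h7 : e ≤ v
            · have hv' : v ∈ lev ρ b t (r + 3) := (mem_filter.1 hv).1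
              rw [mem_lev] at hv'
              rcases c5 v h7 hv'.2.1 (by omega) with rfl | rfl
              · exact absurd rfl h5
              · simp [hcon hv]
            · simp [M2, h7])] at e3
          simp only [M2, hex, if_true, one_mul] at e3
          exact hA e3)
        f g hfl.1 (hz.1.trans g1) hfl.2.1 g2 (by omega) (by omega) ⟨f.2, hf⟩
      obtain ⟨hg, -⟩ := this
      exact hzC ((mem_filter.1 hg).2 z (by simp [hz.1, g1, hz.2.2]))
    rw [e2] at e1
    simp only [Module.finrank_fintype_fun_eq_card, Fintype.card_coe, finrank_bot] at e1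
    unfold Matrix.rank
    omega
  simp only [Fintype.card_coe] at hr
  omega

end Pool.Agent.Lib.MP_5e1226_co
end

-- part Pool.Agent.Lib.MP_5e1226_co.Planar2
section

/-!
Three-connectivity of the graph of an interval of rank four.
-/

set_option linter.unusedSectionVars false

namespace Pool.Agent.Lib.MP_5e1226_co

open Finset Classical

variable {P : Type} [Lattice P] [Fintype P] {ρ : P → ℕ} {b t : P} {r : ℕ}

lemma Normal.not_three (h : Normal ρ) {a c x y z : P} {s : ℕ} (ha : ρ a + 1 = s)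
    (hc : ρ c = s + 1) (hx : x ∈ lev ρ a c s) (hy : y ∈ lev ρ a c s) (hz : z ∈ lev ρ a c s)
    (hxy : x ≠ y) (hxz : x ≠ z) : y = z := by
  rw [mem_lev] at hx hy hz
  obtain ⟨w, -, -, -, -, h5⟩ := h.other hx.1 hx.2.1 (by omega) (by omega)
  have e1 := (h5 y hy.1 hy.2.1 (by omega)).resolve_left hxy.symm
  have e2 := (h5 z hz.1 hz.2.1 (by omega)).resolve_left hxz.symm
  rw [e1, e2]

lemma eq_of_card_le_two {S : Finset P} (hS : S.card ≤ 2) {x y z : P} (hx : x ∈ S) (hy : y ∈ S)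
    (hz : z ∈ S) (hxy : x ≠ y) (hxz : x ≠ z) : y = z := by
  by_contra hyz
  have : ({x, y, z} : Finset P) ⊆ S := by
    intro w hw
    simp only [mem_insert, mem_singleton] at hw
    rcases hw with rfl | rfl | rfl <;> assumption
  have h2 := card_le_card this
  rw [card_insert_of_notMem (by simp [hxy, hxz]), card_pair hyz] at h2
  omega

lemma Normal.three_conn (h : Normal ρ) (hb : ρ b = r) (ht : ρ t = r + 4) (C R : P → Prop)
    (S : Finset P) (hS : S.card ≤ 2) (hall : ∀ v ∈ lev ρ b t (r + 1), C v ∨ R v ∨ v ∈ S)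
    (hCR : ∀ v, C v → ¬ R v) (hCS : ∀ v, C v → v ∉ S) (hRS : ∀ v, R v → v ∉ S)
    (hedge : ∀ e ∈ lev ρ b t (r + 2), ∀ u ∈ lev ρ b e (r + 1), ∀ w ∈ lev ρ b e (r + 1),
      C u → ¬ R w)
    {c0 r0 : P} (hc0 : c0 ∈ lev ρ b t (r + 1)) (hr0 : r0 ∈ lev ρ b t (r + 1)) (hC : C c0)
    (hR : R r0) : False := by
  have hall' : ∀ v e, b ≤ v → v ≤ e → e ≤ t → ρ v = r + 1 → C v ∨ R v ∨ v ∈ S :=
    fun v e h1 h2 h3 h4 => hall v (by simp [h1, h2.trans h3, h4])
  have hedge' : ∀ e u w, e ≤ t → ρ e = r + 2 → b ≤ u → u ≤ e → ρ u = r + 1 → b ≤ w → w ≤ e →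
      ρ w = r + 1 → C u → ¬ R w := fun e u w h1 h2 h3 h4 h5 h6 h7 h8 =>
    hedge e (by simp [h3.trans h4, h1, h2]) u (by simp [h3, h4, h5]) w (by simp [h6, h7, h8])
  have K0 : ∀ f e u' w', f ≤ t → ρ f = r + 3 → e ≤ f → ρ e = r + 2 → b ≤ u' → u' ≤ e →
      ρ u' = r + 1 → b ≤ w' → w' ≤ e → ρ w' = r + 1 →
      (C u' ∨ (u' ∈ S ∧ ∃ a x, u' ≤ a ∧ a ≤ f ∧ ρ a = r + 2 ∧ b ≤ x ∧ x ≤ a ∧ ρ x = r + 1 ∧ C x)) →
      ¬ (C w' ∨ (w' ∈ S ∧ ∃ a x, w' ≤ a ∧ a ≤ f ∧ ρ a = r + 2 ∧ b ≤ x ∧ x ≤ a ∧ ρ x = r + 1 ∧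
        C x)) →
      u' ∈ S ∧ ∃ a x, a ≠ e ∧ u' ≤ a ∧ a ≤ f ∧ ρ a = r + 2 ∧ b ≤ x ∧ x ≤ a ∧ ρ x = r + 1 ∧
        C x := by
    intro f e u' w' h1 h2 h3 h4 h5 h6 h7 h8 h9 h10 hA hnA
    rcases hA with hA | ⟨hA, a, x, a1, a2, a3, a4, a5, a6, a7⟩
    · exfalso
      apply hnA
      rcases hall' w' e h8 h9 (h3.trans h1) h10 with h11 | h11 | h11
      · exact Or.inl h11
      · exact absurd h11 (hedge' e u' w' (h3.trans h1) h4 h5 h6 h7 h8 h9 h10 hA)
      · exact Or.inr ⟨h11, e, u', h9, h3, h4, h5, h6, h7, hA⟩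
    · refine ⟨hA, a, x, ?_, a1, a2, a3, a4, a5, a6, a7⟩
      rintro rfl
      have n1 : u' ≠ x := by rintro rfl; exact hCS _ a7 hA
      have n2 : u' ≠ w' := by
        rintro rfl
        exact hnA (Or.inr ⟨hA, a, x, a1, a2, a3, a4, a5, a6, a7⟩)
      have := h.not_three (a := b) (c := a) (s := r + 1) (x := u') (y := x) (z := w') (by omega)
        (by omega) (by simp [h5, h6, h7]) (by simp [a4, a5, a6]) (by simp [h8, h9, h10]) n1 n2
      subst this
      exact hnA (Or.inl a7)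
  have K : ∀ f u w, f ≤ t → ρ f = r + 3 → u ∈ lev ρ b f (r + 1) → w ∈ lev ρ b f (r + 1) →
      C u → R w → ∃ z1 z2, z1 ≠ z2 ∧ z1 ∈ S ∧ z2 ∈ S ∧ z1 ∈ lev ρ b f (r + 1) ∧
        z2 ∈ lev ρ b f (r + 1) ∧ ∃ a x a' x', a ∈ lev ρ z1 f (r + 2) ∧ a' ∈ lev ρ z1 f (r + 2) ∧
          x ∈ lev ρ b a (r + 1) ∧ x' ∈ lev ρ b a' (r + 1) ∧ C x ∧ R x' := by
    intro f u w h1 h2 hu hw hCu hRw
    have hnA : ¬ (C w ∨ (w ∈ S ∧ ∃ a x, w ≤ a ∧ a ≤ f ∧ ρ a = r + 2 ∧ b ≤ x ∧ x ≤ a ∧
        ρ x = r + 1 ∧ C x)) := by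
      rintro (h3 | ⟨h3, -⟩)
      · exact hCR _ h3 hRw
      · exact hRS _ hRw h3
    obtain ⟨e, u1, w1, -, p2, p3, p4, p5, p6, p7, p8, p9, p10, p11⟩ := h.cut_two hb h2
      (fun v => C v ∨ (v ∈ S ∧ ∃ a x, v ≤ a ∧ a ≤ f ∧ ρ a = r + 2 ∧ b ≤ x ∧ x ≤ a ∧
        ρ x = r + 1 ∧ C x)) hu hw (Or.inl hCu) hnA f
    obtain ⟨e', u2, w2, q1, q2, q3, q4, q5, q6, q7, q8, q9, q10, q11⟩ := h.cut_two hb h2
      (fun v => C v ∨ (v ∈ S ∧ ∃ a x, v ≤ a ∧ a ≤ f ∧ ρ a = r + 2 ∧ b ≤ x ∧ x ≤ a ∧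
        ρ x = r + 1 ∧ C x)) hu hw (Or.inl hCu) hnA e
    obtain ⟨s1, a, x, a0, a1, a2, a3, a4, a5, a6, a7⟩ :=
      K0 f e u1 w1 h1 h2 p2 p3 p4 p5 p6 p7 p8 p9 p10 p11
    obtain ⟨s2, a', x', a0', a1', a2', a3', a4', a5', a6', a7'⟩ :=
      K0 f e' u2 w2 h1 h2 q2 q3 q4 q5 q6 q7 q8 q9 q10 q11
    have hne : u1 ≠ u2 := by
      rintro rfl
      have e1 := h.not_three (a := u1) (c := f) (s := r + 2) (x := e) (y := a) (z := e') (by omega)
        (by omega) (by simp [p5, p2, p3]) (by simp [a1, a2, a3]) (by simp [q5, q2, q3]) a0.symm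
        q1.symm
      have e2 := h.not_three (a := u1) (c := f) (s := r + 2) (x := e') (y := a') (z := e) (by omega)
        (by omega) (by simp [q5, q2, q3]) (by simp [a1', a2', a3']) (by simp [p5, p2, p3]) a0'.symm
        q1
      subst e1
      have n1 : u1 ≠ x := by rintro rfl; exact hCS _ a7 s1
      have n2 : u1 ≠ w2 := by rintro rfl; exact q11 q10
      have := h.not_three (a := b) (c := a) (s := r + 1) (x := u1) (y := x) (z := w2) (by omega)
        (by omega) (by simp [p4, a1, p6]) (by simp [a4, a5, a6]) (by simp [q7, q8, q9]) n1 n2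
      subst this
      exact q11 (Or.inl a7)
    refine ⟨u1, u2, hne, s1, s2, by simp [p4, p5.trans p2, p6], by simp [q4, q5.trans q2, q6],
      a, x, e, w1, by simp [a1, a2, a3], by simp [p5, p2, p3], by simp [a4, a5, a6],
      by simp [p7, p8, p9], a7, ?_⟩
    rcases hall' w1 e p7 p8 (p2.trans h1) p9 with h11 | h11 | h11
    · exact absurd (Or.inl h11) p11
    · exact h11
    · exfalso
      have n2 : u1 ≠ w1 := by rintro rfl; exact p11 p10
      have := eq_of_card_le_two hS s1 s2 h11 hne n2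
      subst this
      exact p11 (Or.inr ⟨s2, a', x', a1', a2', a3', a4', a5', a6', a7'⟩)
  have NB : ∀ f u w, f ≤ t → ρ f = r + 3 → u ∈ lev ρ b f (r + 1) → w ∈ lev ρ b f (r + 1) →
      C u → ¬ R w := by
    intro f u w h1 h2 hu hw hCu hRw
    obtain ⟨z1, z2, hne, s1, s2, m1, m2, a, x, a', x', ha, ha', hx, hx', hCx, hRx⟩ :=
      K f u w h1 h2 hu hw hCu hRw
    rw [mem_lev] at m1 m2
    have n1 : z1 ≠ x := by rintro rfl; exact hCS _ hCx s1
    have n2 : z1 ≠ x' := by rintro rfl; exact hRS _ hRx s1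
    have ha1 := mem_lev.1 ha
    have ha1' := mem_lev.1 ha'
    have haa : a ≠ a' := by
      rintro rfl
      have := h.not_three (a := b) (c := a) (s := r + 1) (x := z1) (by omega) (by omega)
        (by simp [m1.1, ha1.1, m1.2.2]) hx hx' n1 n2
      subst this
      exact hCR _ hCx hRx
    have K2 : ρ (z1 ⊔ z2) ≠ r + 2 := by
      intro h3
      have hm : z1 ⊔ z2 ∈ lev ρ z1 f (r + 2) := by simp [m1.2.1, m2.2.1, h3]
      by_cases h4 : a = z1 ⊔ z2
      · have := h.not_three (a := b) (c := a) (s := r + 1) (x := z1) (z := z2) (by omega) (by omega)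
          (by simp [m1.1, ha1.1, m1.2.2]) hx (by simp [m2.1, h4, m2.2.2]) n1 hne
        subst this
        exact hCS _ hCx s2
      · have h5 := h.not_three (a := z1) (c := f) (s := r + 2) (by omega) (by omega) ha ha' hm haa h4
        have := h.not_three (a := b) (c := a') (s := r + 1) (x := z1) (z := z2) (by omega)
          (by omega) (by simp [m1.1, ha1'.1, m1.2.2]) hx' (by simp [m2.1, h5, m2.2.2]) n2 hne
        subst this
        exact hRS _ hRx s2
    obtain ⟨g, e1, e2, g1, g2, g3, g4, g5, g6, g7, g8, g9, ⟨y, hy, hCy⟩, g11⟩ :=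
      h.cut_two (a := z1) (c := t) (s := r + 1) m1.2.2 (by omega)
        (fun e => ∃ v ∈ lev ρ b e (r + 1), C v) (u := a) (w := a')
        (by simp [ha1.1, ha1.2.1.trans h1, ha1.2.2]) (by simp [ha1'.1, ha1'.2.1.trans h1, ha1'.2.2])
        ⟨x, hx, hCx⟩ (by
          rintro ⟨v, hv, hCv⟩
          have n3 : z1 ≠ v := by rintro rfl; exact hCS _ hCv s1
          have := h.not_three (a := b) (c := a') (s := r + 1) (x := z1) (by omega) (by omega)
            (by simp [m1.1, ha1'.1, m1.2.2]) hx' hv n2 n3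
          subst this
          exact hCR _ hCv hRx) f
    obtain ⟨y', c1, c2, c3, c4, l1⟩ := h.edge_other hb m1.1 g7 m1.2.2 g9
    rw [mem_lev] at hy
    rcases hall' y' e2 c2 c3 (g8.trans g2) c4 with h11 | h11 | h11
    · exact g11 ⟨y', by simp [c2, c3, c4], h11⟩
    · obtain ⟨z1', z2', hne', s1', s2', m1', m2', -⟩ := K g y y' g2 (by omega)
        (by simp [hy.1, hy.2.1.trans g5, hy.2.2]) (by simp [c2, c3.trans g8, c4]) hCy h11
      have hz2 : z2 ≤ g := by
        by_cases h5 : z1 = z1'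
        · subst h5
          rw [eq_of_card_le_two hS s1 s2 s2' hne hne']
          exact (mem_lev.1 m2').2.1
        · rw [eq_of_card_le_two hS s1 s2 s1' hne h5]
          exact (mem_lev.1 m1').2.1
      apply K2
      have i1 : z1 ⊔ z2 ≤ f ⊓ g := sup_le (le_inf m1.2.1 (g4.trans g5)) (le_inf m2.2.1 hz2)
      have i2 : f ⊓ g < f := lt_of_le_of_ne inf_le_left fun h5 => g1 (by
        have : f ≤ g := by rw [← h5]; exact inf_le_right
        exact (h.grd.eq this (by omega)).symm)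
      have i3 := h.grd.lt i2
      have i4 := h.grd.le i1
      have i5 := h.grd.sup_rank (x := z1) (y := z2) fun h5 => hne (h.grd.eq h5 (by omega)).symm
      omega
    · have := eq_of_card_le_two hS s1 s2 h11 hne c1.symm
      subst this
      apply K2
      rw [h.grd.sup_eq hne g7 c3 (by omega) (by omega)]
      omega
  rw [mem_lev] at hc0 hr0
  obtain ⟨f0, f1, f2, f3⟩ := h.grd.exists_mid hc0.2.1 (r := r + 3) (by omega) (by omega)
  obtain ⟨g0, g1, g2, g3⟩ := h.grd.exists_mid hr0.2.1 (r := r + 3) (by omega) (by omega)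
  have := h.dual_conn (fun f => ∃ v ∈ lev ρ b f (r + 1), C v) 4 (hc0.1.trans hc0.2.1) (by omega)
    (by
      rintro f g e ⟨v, hv, hCv⟩ hft hgt hef heg hbe rf rg re
      by_cases hfg : g = f
      · subst hfg; exact ⟨v, hv, hCv⟩
      obtain ⟨x1, x2, c0, c1, c2, c3, c4, c5, c6, l1⟩ := h.edge_ends hb hbe (by omega)
      have hS1 : C x1 ∨ x1 ∈ S := by
        rcases hall' x1 e c1 c2 (hef.trans hft) c3 with h11 | h11 | h11
        · exact Or.inl h11
        · exact absurd h11 (NB f v x1 hft (by omega) hv (by simp [c1, c2.trans hef, c3]) hCv)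
        · exact Or.inr h11
      have hS2 : C x2 ∨ x2 ∈ S := by
        rcases hall' x2 e c4 c5 (hef.trans hft) c6 with h11 | h11 | h11
        · exact Or.inl h11
        · exact absurd h11 (NB f v x2 hft (by omega) hv (by simp [c4, c5.trans hef, c6]) hCv)
        · exact Or.inr h11
      rcases hS1 with hS1 | hS1
      · exact ⟨x1, by simp [c1, c2.trans heg, c3], hS1⟩
      rcases hS2 with hS2 | hS2
      · exact ⟨x2, by simp [c4, c5.trans heg, c6], hS2⟩
      obtain ⟨e', d1, d2, d3, d4, -⟩ := h.other c2 hef (by omega) (by omega)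
      obtain ⟨x, k1, k2, k3, k4, l2⟩ := h.edge_other hb c1 d2 c3 (by omega)
      have hCx : C x := by
        rcases hall' x e' k2 k3 (d3.trans hft) k4 with h11 | h11 | h11
        · exact h11
        · exact absurd h11 (NB f v x hft (by omega) hv (by simp [k2, k3.trans d3, k4]) hCv)
        · exfalso
          have := eq_of_card_le_two hS hS1 hS2 h11 c0.symm k1.symm
          subst this
          apply d1
          rw [← h.grd.sup_eq c0.symm d2 k3 (by omega) (by omega),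
            ← h.grd.sup_eq c0.symm c2 c5 (by omega) (by omega)]
      obtain ⟨g', e1, e2, g1, g2, g3, g4, g5, g6, g7, g8, g9, ⟨y, hy, hCy⟩, g11⟩ :=
        h.cut_two (a := x1) (c := t) (s := r + 1) c3 (by omega)
          (fun e => ∃ v ∈ lev ρ b e (r + 1), C v) (u := e') (w := e)
          (by simp [d2, d3.trans hft]; omega) (by simp [c2, hef.trans hft]; omega)
          ⟨x, by simp [k2, k3, k4], hCx⟩ (by
            rintro ⟨v, hv, hCv⟩
            rw [l1] at hv
            rcases mem_insert.1 hv with rfl | hv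
            · exact hCS _ hCv hS1
            · rw [mem_singleton.1 hv] at hCv
              exact hCS _ hCv hS2) f
      obtain ⟨y', k1', k2', k3', k4', l3⟩ := h.edge_other hb c1 g7 c3 g9
      rw [mem_lev] at hy
      have hyg : y ∈ lev ρ b g' (r + 1) := by simp [hy.1, hy.2.1.trans g5, hy.2.2]
      rcases hall' y' e2 k2' k3' (g8.trans g2) k4' with h11 | h11 | h11
      · exact absurd ⟨y', by simp [k2', k3', k4'], h11⟩ g11
      · exact absurd h11 (NB g' y y' g2 (by omega) hyg (by simp [k2', k3'.trans g8, k4']) hCy)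
      · have := eq_of_card_le_two hS hS1 hS2 h11 c0.symm k1'.symm
        subst this
        have e3 : e2 = e := by
          rw [← h.grd.sup_eq c0.symm g7 k3' (by omega) (by omega),
            ← h.grd.sup_eq c0.symm c2 c5 (by omega) (by omega)]
        subst e3
        have := h.not_three (a := e2) (c := t) (s := r + 3) (x := f) (y := g) (z := g') (by omega)
          (by omega) (by simp [hef, hft]; omega) (by simp [heg, hgt]; omega)
          (by simp [g8, g2]; omega) (Ne.symm hfg) g1.symm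
        rw [this]
        exact ⟨y, hyg, hCy⟩)
    f0 g0 (hc0.1.trans f1) (hr0.1.trans g1) f2 g2 (by omega) (by omega)
    ⟨c0, by simp [hc0.1, f1, hc0.2.2], hC⟩
  obtain ⟨v, hv, hCv⟩ := this
  exact NB g0 v r0 g2 g3 hv (by simp [hr0.1, g1, hr0.2.2]) hCv hR

end Pool.Agent.Lib.MP_5e1226_co
end

-- part Pool.Agent.Lib.MP_5e1226_co.Planar3
section

/-!
The rigidity count in intervals of rank four.
-/

set_option linter.unusedSectionVars false

namespace Pool.Agent.Lib.MP_5e1226_co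

open Finset Classical

variable {P : Type} [Lattice P] [Fintype P] {ρ : P → ℕ} {b t : P} {r : ℕ}

/-- Elements of rank `s` above `z` all of whose other vertices lie in `C`. -/
noncomputable def att (ρ : P → ℕ) (b t : P) (r : ℕ) (C : Finset P) (z : P) (s : ℕ) : Finset P :=
  (inside ρ b t r (insert z C) s).filter (fun e => z ≤ e)

lemma mem_inside {C : Finset P} {s : ℕ} {e : P} :
    e ∈ inside ρ b t r C s ↔ e ∈ lev ρ b t s ∧ ∀ v ∈ lev ρ b e (r + 1), v ∈ C := by
  simp only [inside, mem_filter]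

lemma mem_att {C : Finset P} {s : ℕ} {e z : P} :
    e ∈ att ρ b t r C z s ↔
      (e ∈ lev ρ b t s ∧ ∀ v ∈ lev ρ b e (r + 1), v = z ∨ v ∈ C) ∧ z ≤ e := by
  simp only [att, mem_filter, mem_inside, mem_insert]

lemma card_inside_insert {C : Finset P} {z : P} (hz : z ∈ lev ρ b t (r + 1)) (hzC : z ∉ C)
    (s : ℕ) : (inside ρ b t r (insert z C) s).card =
      (inside ρ b t r C s).card + (att ρ b t r C z s).card := by
  rw [← card_filter_add_card_filter_not (s := inside ρ b t r (insert z C) s) (fun e => z ≤ e),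
    add_comm]
  congr 2
  ext e
  rw [mem_lev] at hz
  simp only [mem_filter, mem_inside, mem_insert]
  constructor
  · rintro ⟨⟨h1, h2⟩, h3⟩
    refine ⟨h1, fun v hv => (h2 v hv).resolve_left ?_⟩
    rintro rfl
    exact h3 (mem_lev.1 hv).2.1
  · rintro ⟨h1, h2⟩
    exact ⟨⟨h1, fun v hv => Or.inr (h2 v hv)⟩, fun h3 => hzC (h2 z (by simp [hz.1, h3, hz.2.2]))⟩

lemma Normal.att_le (h : Normal ρ) (ht : ρ t = r + 4) {C : Finset P} {z : P}
    (hz : z ∈ lev ρ b t (r + 1)) :
    (att ρ b t r C z (r + 3)).card ≤ (att ρ b t r C z (r + 2)).card := by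
  rw [mem_lev] at hz
  have := card_mul_le_card_mul (s := att ρ b t r C z (r + 3)) (t := att ρ b t r C z (r + 2))
    (fun f e => e ≤ f) (m := 2) (n := 2) (by
      intro f hf
      rw [mem_att, mem_lev] at hf
      refine le_of_eq_of_le (h.two hf.2 (r := r + 2) (by omega) (by omega)).symm ?_
      apply card_le_card
      intro e he
      rw [mem_lev] at he
      simp only [bipartiteAbove, mem_filter, mem_att, mem_lev]
      exact ⟨⟨⟨⟨hz.1.trans he.1, he.2.1.trans hf.1.1.2.1, he.2.2⟩, fun v hv =>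
        hf.1.2 v (by simp [hv.1, hv.2.1.trans he.2.1, hv.2.2])⟩, he.1⟩, he.2.1⟩) (by
      intro e he
      rw [mem_att, mem_lev] at he
      refine le_of_le_of_eq ?_ (h.two he.1.1.2.1 (r := r + 3) (by omega) (by omega))
      apply card_le_card
      intro f hf
      simp only [bipartiteBelow, mem_filter, mem_att, mem_lev] at hf ⊢
      exact ⟨hf.2, hf.1.1.1.2.1, hf.1.1.1.2.2⟩)
  omega

lemma sum_ite_mem_card (S T : Finset P) (hT : T ⊆ S) :
    ∑ e ∈ S, (if e ∈ T then (1 : ℤ) else 0) = T.card := by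
  rw [sum_ite_mem, inter_eq_right.2 hT]
  simp

lemma Normal.comp_formula (h : Normal ρ) (hb : ρ b = r) (ht : ρ t = r + 4) {C : Finset P}
    (hC : C ⊆ lev ρ b t (r + 1)) {Z : P → Prop} (hZ : ∀ v ∈ lev ρ b t (r + 1), Z v ↔ v ∉ C) :
    3 * (((inside ρ b t r C (r + 2)).card : ℤ) - (inside ρ b t r C (r + 3)).card - C.card) +
      ∑ z ∈ lev ρ b t (r + 1) \ C,
        (((att ρ b t r C z (r + 2)).card : ℤ) - (att ρ b t r C z (r + 3)).card) ≤
      DD ρ b t r 3 Z (fun _ => False) (fun _ => 0) := by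
  have hsub : ∀ s, inside ρ b t r C s ⊆ lev ρ b t s := fun s => filter_subset _ _
  have hsub2 : ∀ z s, att ρ b t r C z s ⊆ lev ρ b t s := fun z s e he => (mem_att.1 he).1.1
  have hnk : ∀ e ∈ lev ρ b t (r + 2),
      nk ρ b r Z (fun _ => 0) e = if e ∈ inside ρ b t r C (r + 2) then 1 else 0 := by
    intro e he
    unfold nk Naked
    have : (∀ v ∈ lev ρ b e (r + 1), ¬ Z v) ↔ e ∈ inside ρ b t r C (r + 2) := by
      rw [mem_inside]
      simp only [he, true_and]
      refine forall₂_congr fun v hv => ?_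
      rw [mem_lev] at hv he
      rw [hZ v (by simp [hv.1, hv.2.1.trans he.2.1, hv.2.2]), not_not]
    simp only [this, true_and]
  have s1 : ((inside ρ b t r C (r + 2)).card : ℤ) +
      ∑ z ∈ lev ρ b t (r + 1) \ C, ((att ρ b t r C z (r + 2)).card : ℤ) ≤
      ∑ e ∈ lev ρ b t (r + 2), nu ρ b r Z (fun _ => 0) e := by
    rw [← sum_ite_mem_card _ _ (hsub _), sum_congr rfl fun z _ =>
      (sum_ite_mem_card _ _ (hsub2 z _)).symm, sum_comm, ← sum_add_distrib]
    refine sum_le_sum fun e he => ?_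
    have he' := mem_lev.1 he
    obtain ⟨u, w, hne, b1, b2, b3, b4, b5, b6, l1⟩ := h.edge_ends hb he'.1 he'.2.2
    have hu : u ∈ lev ρ b t (r + 1) := by simp [b1, b2.trans he'.2.1, b3]
    have hw : w ∈ lev ρ b t (r + 1) := by simp [b4, b5.trans he'.2.1, b6]
    have e1 : ∑ z ∈ lev ρ b t (r + 1) \ C, (if e ∈ att ρ b t r C z (r + 2) then (1 : ℤ) else 0) ≤
        ∑ z ∈ lev ρ b t (r + 1), ((if z = u then (if u ∉ C ∧ w ∈ C then 1 else 0) else 0) +
          (if z = w then (if w ∉ C ∧ u ∈ C then 1 else 0) else 0)) := by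
      refine le_trans (sum_le_sum fun z hz => ?_) (sum_le_sum_of_subset_of_nonneg sdiff_subset
        fun z _ _ => by positivity)
      rw [mem_sdiff, mem_lev] at hz
      by_cases h1 : e ∈ att ρ b t r C z (r + 2)
      · rw [if_pos h1]
        rw [mem_att, l1] at h1
        have h2 : z ∈ lev ρ b e (r + 1) := by simp [hz.1.1, h1.2, hz.1.2.2]
        rw [l1] at h2
        have h3 := h1.1.2 u (by simp)
        have h4 := h1.1.2 w (by simp)
        rcases mem_insert.1 h2 with rfl | h2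
        · simp [hz.2, h4.resolve_left hne, hne.symm]
        · rw [mem_singleton] at h2
          subst h2
          simp [hz.2, h3.resolve_left hne.symm, hne]
      · rw [if_neg h1]
        positivity
    rw [sum_add_distrib, sum_ite_eq', sum_ite_eq', if_pos hu, if_pos hw] at e1
    refine le_trans (add_le_add_right e1 _) ?_
    unfold nu
    rw [nz_pair hne l1, nk_pair l1]
    have i1 : e ∈ inside ρ b t r C (r + 2) ↔ u ∈ C ∧ w ∈ C := by
      rw [mem_inside, l1]
      simp [he]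
    have i2 := hZ u hu
    have i3 := hZ w hw
    by_cases h1 : u ∈ C <;> by_cases h2 : w ∈ C <;> simp [h1, h2, i1, i2, i3]
  have s2 : ∑ f ∈ lev ρ b t (r + 3), ∑ e ∈ lev ρ b f (r + 2), nk ρ b r Z (fun _ => 0) e =
      2 * ((inside ρ b t r C (r + 2)).card : ℤ) := by
    rw [← sum_lev_comm b t (r + 2) (r + 3) (fun e _ => nk ρ b r Z (fun _ => 0) e),
      ← sum_ite_mem_card _ _ (hsub _), mul_sum]
    refine sum_congr rfl fun e he => ?_
    rw [hnk e he, sum_const, h.two (mem_lev.1 he).2.1 (by rw [(mem_lev.1 he).2.2]) (by omega)]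
    simp
  have s3 : ∑ f ∈ lev ρ b t (r + 3), cc (pf ρ b r Z (fun _ => 0) f) ≤
      3 * ((inside ρ b t r C (r + 3)).card : ℤ) +
      ∑ z ∈ lev ρ b t (r + 1) \ C, ((att ρ b t r C z (r + 3)).card : ℤ) := by
    rw [← sum_ite_mem_card _ _ (hsub _), sum_congr rfl fun z _ =>
      (sum_ite_mem_card _ _ (hsub2 z _)).symm, sum_comm, mul_sum, ← sum_add_distrib]
    refine sum_le_sum fun f hf => ?_
    have hf' := mem_lev.1 hf
    have hp : pf ρ b r Z (fun _ => 0) f = ((lev ρ b f (r + 1)).filter Z).card := by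
      unfold pf
      simp
    have hv : ∀ v ∈ lev ρ b f (r + 1), v ∈ lev ρ b t (r + 1) := by
      intro v hv
      rw [mem_lev] at hv ⊢
      exact ⟨hv.1, hv.2.1.trans hf'.2.1, hv.2.2⟩
    have n1 : 0 ≤ ∑ z ∈ lev ρ b t (r + 1) \ C,
        (if f ∈ att ρ b t r C z (r + 3) then (1 : ℤ) else 0) :=
      sum_nonneg fun z _ => by positivity
    rw [hp]
    unfold cc
    split_ifs with h1 h2 h3 h4 h5
    · omega
    · exfalso
      apply h2
      rw [mem_inside]
      refine ⟨hf, fun v hv' => ?_⟩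
      have := filter_eq_empty_iff.1 (card_eq_zero.1 h1) hv'
      rwa [hZ v (hv v hv'), not_not] at this
    · omega
    · obtain ⟨z, hz⟩ := card_eq_one.1 h3
      have hz1 : z ∈ (lev ρ b f (r + 1)).filter Z := by rw [hz]; simp
      rw [mem_filter] at hz1
      have := single_le_sum (f := fun z => if f ∈ att ρ b t r C z (r + 3) then (1 : ℤ) else 0)
        (s := lev ρ b t (r + 1) \ C) (fun z _ => by positivity) (a := z)
        (mem_sdiff.2 ⟨hv z hz1.1, (hZ z (hv z hz1.1)).1 hz1.2⟩)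
      rw [if_pos (by
        rw [mem_att]
        refine ⟨⟨hf, fun v hv' => ?_⟩, (mem_lev.1 hz1.1).2.1⟩
        by_contra hcon
        push Not at hcon
        have : v ∈ (lev ρ b f (r + 1)).filter Z :=
          mem_filter.2 ⟨hv', (hZ v (hv v hv')).2 hcon.2⟩
        rw [hz] at this
        exact hcon.1 (mem_singleton.1 this))] at this
      omega
    · omega
    · omega
  have s4 : ∑ z ∈ lev ρ b t (r + 1), cost 3 Z (fun _ => False) z = 3 * (C.card : ℤ) := by
    rw [← sum_ite_mem_card _ _ hC, mul_sum]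
    refine sum_congr rfl fun z hz => ?_
    unfold cost
    rw [hZ z hz]
    by_cases h1 : z ∈ C <;> simp [h1]
  unfold DD
  simp only [if_false, w2]
  rw [sum_sub_distrib, sum_sub_distrib, s2, s4]
  omega

lemma Normal.comp (h : Normal ρ) (hb : ρ b = r) (ht : ρ t = r + 4) {C : Finset P}
    (hC : C ⊆ lev ρ b t (r + 1)) (hne : C.Nonempty) (hconn : ConnC ρ b t r C)
    (hO : (lev ρ b t (r + 1) \ C).Nonempty)
    {Z : P → Prop} (hZ : ∀ v ∈ lev ρ b t (r + 1), Z v ↔ v ∉ C) :
    - cc ((lev ρ b t (r + 1) \ C).card - 1) ≤ DD ρ b t r 3 Z (fun _ => False) (fun _ => 0) := by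
  refine le_trans ?_ (h.comp_formula hb ht hC hZ)
  set O := lev ρ b t (r + 1) \ C with hOdef
  set a : P → ℤ := fun z =>
    ((att ρ b t r C z (r + 2)).card : ℤ) - (att ρ b t r C z (r + 3)).card with ha
  change _ ≤ _ + ∑ z ∈ O, a z
  have ha0 : ∀ z ∈ O, 0 ≤ a z := by
    intro z hz
    have := h.att_le ht (C := C) (mem_sdiff.1 hz).1
    simp only [ha]
    omega
  have hs0 : 0 ≤ ∑ z ∈ O, a z := sum_nonneg ha0
  obtain ⟨z0, hz0⟩ := hO
  have hE := h.euler_le hb ht hC hconn (mem_sdiff.1 hz0).1 (mem_sdiff.1 hz0).2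
  have hc0 := cc_nonneg (O.card - 1)
  by_cases h1 : O.card = 1
  · rw [h1]
    simp only [cc]
    simp only [Nat.sub_self, if_true]
    omega
  by_cases h2 : (inside ρ b t r C (r + 3)).card + C.card ≤ (inside ρ b t r C (r + 2)).card
  · omega
  have hO1 : 0 < O.card := card_pos.2 ⟨z0, hz0⟩
  set S := O.filter (fun z => (att ρ b t r C z (r + 2)).Nonempty) with hS
  have ha1 : ∀ z ∈ S, 1 ≤ a z := by
    intro z hz
    rw [hS, mem_filter] at hz
    obtain ⟨hz, e, he⟩ := hz
    obtain ⟨z', hz', hzz⟩ := exists_mem_ne (s := O) (by omega) z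
    rw [mem_sdiff] at hz hz'
    have hz1 := mem_lev.1 hz.1
    rw [mem_att] at he
    have he1 := mem_lev.1 he.1.1
    obtain ⟨w, c1, c2, c3, c4, l1⟩ := h.edge_other hb hz1.1 he.2 hz1.2.2 he1.2.2
    have hw : w ∈ C := (he.1.2 w (by simp [c2, c3, c4])).resolve_left c1
    have := h.euler_le hb ht (C := insert z C) (insert_subset hz.1 hC) (by
      intro A hA
      have k1 : ∀ u ∈ C, ∀ w ∈ C, A u → A w := hconn A fun u w e h1 h2 h3 =>
        hA u w e h1 (mem_insert_of_mem h2) (mem_insert_of_mem h3)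
      have k2 : A z → A w := fun h1 =>
        hA z w e h1 (mem_insert_self _ _) (mem_insert_of_mem hw) he.1.1 he.2 c3
      have k3 : A w → A z := fun h1 =>
        hA w z e h1 (mem_insert_of_mem hw) (mem_insert_self _ _) he.1.1 c3 he.2
      intro u hu v hv hAu
      have k4 : A w := by
        rcases mem_insert.1 hu with rfl | hu
        · exact k2 hAu
        · exact k1 u hu w hw hAu
      rcases mem_insert.1 hv with rfl | hv
      · exact k3 k4
      · exact k1 w hw v hv k4) hz'.1 (by simp [hzz, hz'.2])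
    rw [card_inside_insert hz.1 hz.2, card_inside_insert hz.1 hz.2,
      card_insert_of_notMem hz.2] at this
    simp only [ha]
    omega
  have hs1 : (S.card : ℤ) ≤ ∑ z ∈ O, a z := by
    refine le_trans ?_ (sum_le_sum_of_subset_of_nonneg (filter_subset _ _ : S ⊆ O)
      fun z hz _ => ha0 z hz)
    rw [card_eq_sum_ones]
    push_cast
    exact sum_le_sum ha1
  by_cases h3 : 3 ≤ S.card
  · omega
  have hSO : O ⊆ S := by
    intro z hz
    by_contra hzS
    obtain ⟨c0, hc0⟩ := hne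
    refine h.three_conn hb ht (fun v => v ∈ C) (fun v => v ∈ O ∧ v ∉ S) S (by omega) ?_ ?_ ?_ ?_ ?_
      (hC hc0) (mem_sdiff.1 hz).1 hc0 ⟨hz, hzS⟩
    · intro v hv
      by_cases h4 : v ∈ C
      · exact Or.inl h4
      · by_cases h5 : v ∈ S
        · exact Or.inr (Or.inr h5)
        · exact Or.inr (Or.inl ⟨mem_sdiff.2 ⟨hv, h4⟩, h5⟩)
    · exact fun v h4 h5 => (mem_sdiff.1 h5.1).2 h4
    · exact fun v h4 h5 => (mem_sdiff.1 (mem_filter.1 h5).1).2 h4
    · exact fun v h4 => h4.2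
    · rintro e he u hu w hw huC ⟨hwO, hwS⟩
      apply hwS
      rw [hS, mem_filter]
      refine ⟨hwO, e, ?_⟩
      rw [mem_att]
      refine ⟨⟨he, fun v hv => ?_⟩, (mem_lev.1 hw).2.1⟩
      by_cases h4 : w = v
      · exact Or.inl h4.symm
      · right
        have n1 : w ≠ u := by rintro rfl; exact (mem_sdiff.1 hwO).2 huC
        rw [← h.not_three (a := b) (c := e) (s := r + 1) (by omega) (mem_lev.1 he).2.2 hw hu hv
          n1 h4]
        exact huC
  have := card_le_card hSO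
  have h5 : O.card = 2 := by omega
  rw [h5]
  simp only [cc]
  norm_num
  omega

end Pool.Agent.Lib.MP_5e1226_co
end
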